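import Mathlib

/-!
# The four two-graphs on 11 points

Row `u` of a table is the bit mask of the `v` such that the pair `u v` is negative.
-/

set_option autoImplicit false

namespace Pool.Agent.RP5

/-- the rows of the four tables -/
def qrows (j : Fin 4) : List ℕ :=
  match j with
  | 0 => [1632, 1920, 680, 1284, 0, 1285, 385, 1094, 106, 7, 171]
  | 1 => [1304, 64, 1168, 1265, 589, 1544, 1818, 268, 1729, 368, 365]
  | 2 => [772, 924, 635, 294, 1510, 1180, 20, 50, 1051, 1031, 816]
  | 3 => [1072, 504, 752, 1682, 623, 1943, 1302, 1070, 1634, 316, 489]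

/-- the four two-graphs -/
def qtab (j : Fin 4) (u v : Fin 11) : Bool := ((qrows j).getD u.1 0).testBit v.1

end Pool.Agent.RP5
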