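import Pool.Agent.RP5S.Levels

set_option autoImplicit false

namespace Pool.Agent.RP5S

theorem SBase.DoneB.nil (B : SBase) (nt TG : ℕ) : B.DoneB nt TG Stk.nil :=
  fun _ _ _ _ _ => trivial

theorem SBase.DoneB.cons {B : SBase} {nt TG m S : ℕ} {st : Stk}
    (h1 : B.DoneB nt TG (Stk.cons m S Stk.nil)) (h2 : B.DoneB nt TG st) :
    B.DoneB nt TG (Stk.cons m S st) :=
  fun a ha hag hS hP => ⟨(h1 a ha hag hS hP).1, h2 a ha hag hS hP⟩

end Pool.Agent.RP5S
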