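import Pool.Agent.RP5S.B0C0
import Pool.Agent.RP5S.B0C1
import Pool.Agent.RP5S.B0C2
import Pool.Agent.RP5S.B0C3
import Pool.Agent.RP5S.B0C4
import Pool.Agent.RP5S.B0Main
import Pool.Agent.RP5S.DoneLem

/-! Level B, base number 0: assembly -/

set_option autoImplicit false

namespace Pool.Agent.RP5S.B0

open Pool.Agent.RP5

theorem doneD : base.DoneB nt TG D := by
  unfold D
  refine SBase.DoneB.cons (base.doneB ok rfl rfl rfl (SBase.DoneB.nil _ _ _) c0) ?_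
  refine SBase.DoneB.cons (base.doneB ok rfl rfl rfl (SBase.DoneB.nil _ _ _) c1) ?_
  refine SBase.DoneB.cons (base.doneB ok rfl rfl rfl (SBase.DoneB.nil _ _ _) c2) ?_
  refine SBase.DoneB.cons (base.doneB ok rfl rfl rfl (SBase.DoneB.nil _ _ _) c3) ?_
  refine SBase.DoneB.cons (base.doneB ok rfl rfl rfl (SBase.DoneB.nil _ _ _) c4) ?_
  refine SBase.DoneB.cons (base.doneB ok rfl rfl rfl (SBase.DoneB.nil _ _ _) c5) ?_
  refine SBase.DoneB.cons (base.doneB ok rfl rfl rfl (SBase.DoneB.nil _ _ _) c6) ?_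
  refine SBase.DoneB.cons (base.doneB ok rfl rfl rfl (SBase.DoneB.nil _ _ _) c7) ?_
  refine SBase.DoneB.cons (base.doneB ok rfl rfl rfl (SBase.DoneB.nil _ _ _) c8) ?_
  refine SBase.DoneB.cons (base.doneB ok rfl rfl rfl (SBase.DoneB.nil _ _ _) c9) ?_
  refine SBase.DoneB.cons (base.doneB ok rfl rfl rfl (SBase.DoneB.nil _ _ _) c10) ?_
  refine SBase.DoneB.cons (base.doneB ok rfl rfl rfl (SBase.DoneB.nil _ _ _) c11) ?_
  refine SBase.DoneB.cons (base.doneB ok rfl rfl rfl (SBase.DoneB.nil _ _ _) c12) ?_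
  refine SBase.DoneB.cons (base.doneB ok rfl rfl rfl (SBase.DoneB.nil _ _ _) c13) ?_
  refine SBase.DoneB.cons (base.doneB ok rfl rfl rfl (SBase.DoneB.nil _ _ _) c14) ?_
  refine SBase.DoneB.cons (base.doneB ok rfl rfl rfl (SBase.DoneB.nil _ _ _) c15) ?_
  refine SBase.DoneB.cons (base.doneB ok rfl rfl rfl (SBase.DoneB.nil _ _ _) c16) ?_
  refine SBase.DoneB.cons (base.doneB ok rfl rfl rfl (SBase.DoneB.nil _ _ _) c17) ?_
  refine SBase.DoneB.cons (base.doneB ok rfl rfl rfl (SBase.DoneB.nil _ _ _) c18) ?_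
  refine SBase.DoneB.cons (base.doneB ok rfl rfl rfl (SBase.DoneB.nil _ _ _) c19) ?_
  refine SBase.DoneB.cons (base.doneB ok rfl rfl rfl (SBase.DoneB.nil _ _ _) c20) ?_
  refine SBase.DoneB.cons (base.doneB ok rfl rfl rfl (SBase.DoneB.nil _ _ _) c21) ?_
  refine SBase.DoneB.cons (base.doneB ok rfl rfl rfl (SBase.DoneB.nil _ _ _) c22) ?_
  refine SBase.DoneB.cons (base.doneB ok rfl rfl rfl (SBase.DoneB.nil _ _ _) c23) ?_
  refine SBase.DoneB.cons (base.doneB ok rfl rfl rfl (SBase.DoneB.nil _ _ _) c24) ?_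
  refine SBase.DoneB.cons (base.doneB ok rfl rfl rfl (SBase.DoneB.nil _ _ _) c25) ?_
  refine SBase.DoneB.cons (base.doneB ok rfl rfl rfl (SBase.DoneB.nil _ _ _) c26) ?_
  refine SBase.DoneB.cons (base.doneB ok rfl rfl rfl (SBase.DoneB.nil _ _ _) c27) ?_
  refine SBase.DoneB.cons (base.doneB ok rfl rfl rfl (SBase.DoneB.nil _ _ _) c28) ?_
  refine SBase.DoneB.cons (base.doneB ok rfl rfl rfl (SBase.DoneB.nil _ _ _) c29) ?_
  refine SBase.DoneB.cons (base.doneB ok rfl rfl rfl (SBase.DoneB.nil _ _ _) c30) ?_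
  refine SBase.DoneB.cons (base.doneB ok rfl rfl rfl (SBase.DoneB.nil _ _ _) c31) ?_
  refine SBase.DoneB.cons (base.doneB ok rfl rfl rfl (SBase.DoneB.nil _ _ _) c32) ?_
  refine SBase.DoneB.cons (base.doneB ok rfl rfl rfl (SBase.DoneB.nil _ _ _) c33) ?_
  refine SBase.DoneB.cons (base.doneB ok rfl rfl rfl (SBase.DoneB.nil _ _ _) c34) ?_
  refine SBase.DoneB.cons (base.doneB ok rfl rfl rfl (SBase.DoneB.nil _ _ _) c35) ?_
  refine SBase.DoneB.cons (base.doneB ok rfl rfl rfl (SBase.DoneB.nil _ _ _) c36) ?_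
  refine SBase.DoneB.cons (base.doneB ok rfl rfl rfl (SBase.DoneB.nil _ _ _) c37) ?_
  refine SBase.DoneB.cons (base.doneB ok rfl rfl rfl (SBase.DoneB.nil _ _ _) c38) ?_
  refine SBase.DoneB.cons (base.doneB ok rfl rfl rfl (SBase.DoneB.nil _ _ _) c39) ?_
  refine SBase.DoneB.cons (base.doneB ok rfl rfl rfl (SBase.DoneB.nil _ _ _) c40) ?_
  refine SBase.DoneB.cons (base.doneB ok rfl rfl rfl (SBase.DoneB.nil _ _ _) c41) ?_
  refine SBase.DoneB.cons (base.doneB ok rfl rfl rfl (SBase.DoneB.nil _ _ _) c42) ?_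
  refine SBase.DoneB.cons (base.doneB ok rfl rfl rfl (SBase.DoneB.nil _ _ _) c43) ?_
  refine SBase.DoneB.cons (base.doneB ok rfl rfl rfl (SBase.DoneB.nil _ _ _) c44) ?_
  refine SBase.DoneB.cons (base.doneB ok rfl rfl rfl (SBase.DoneB.nil _ _ _) c45) ?_
  refine SBase.DoneB.cons (base.doneB ok rfl rfl rfl (SBase.DoneB.nil _ _ _) c46) ?_
  refine SBase.DoneB.cons (base.doneB ok rfl rfl rfl (SBase.DoneB.nil _ _ _) c47) ?_
  refine SBase.DoneB.cons (base.doneB ok rfl rfl rfl (SBase.DoneB.nil _ _ _) c48) ?_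
  refine SBase.DoneB.cons (base.doneB ok rfl rfl rfl (SBase.DoneB.nil _ _ _) c49) ?_
  refine SBase.DoneB.cons (base.doneB ok rfl rfl rfl (SBase.DoneB.nil _ _ _) c50) ?_
  refine SBase.DoneB.cons (base.doneB ok rfl rfl rfl (SBase.DoneB.nil _ _ _) c51) ?_
  refine SBase.DoneB.cons (base.doneB ok rfl rfl rfl (SBase.DoneB.nil _ _ _) c52) ?_
  refine SBase.DoneB.cons (base.doneB ok rfl rfl rfl (SBase.DoneB.nil _ _ _) c53) ?_
  refine SBase.DoneB.cons (base.doneB ok rfl rfl rfl (SBase.DoneB.nil _ _ _) c54) ?_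
  refine SBase.DoneB.cons (base.doneB ok rfl rfl rfl (SBase.DoneB.nil _ _ _) c55) ?_
  refine SBase.DoneB.cons (base.doneB ok rfl rfl rfl (SBase.DoneB.nil _ _ _) c56) ?_
  refine SBase.DoneB.cons (base.doneB ok rfl rfl rfl (SBase.DoneB.nil _ _ _) c57) ?_
  refine SBase.DoneB.cons (base.doneB ok rfl rfl rfl (SBase.DoneB.nil _ _ _) c58) ?_
  refine SBase.DoneB.cons (base.doneB ok rfl rfl rfl (SBase.DoneB.nil _ _ _) c59) ?_
  refine SBase.DoneB.cons (base.doneB ok rfl rfl rfl (SBase.DoneB.nil _ _ _) c60) ?_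
  refine SBase.DoneB.cons (base.doneB ok rfl rfl rfl (SBase.DoneB.nil _ _ _) c61) ?_
  refine SBase.DoneB.cons (base.doneB ok rfl rfl rfl (SBase.DoneB.nil _ _ _) c62) ?_
  refine SBase.DoneB.cons (base.doneB ok rfl rfl rfl (SBase.DoneB.nil _ _ _) c63) ?_
  refine SBase.DoneB.cons (base.doneB ok rfl rfl rfl (SBase.DoneB.nil _ _ _) c64) ?_
  refine SBase.DoneB.cons (base.doneB ok rfl rfl rfl (SBase.DoneB.nil _ _ _) c65) ?_
  refine SBase.DoneB.cons (base.doneB ok rfl rfl rfl (SBase.DoneB.nil _ _ _) c66) ?_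
  refine SBase.DoneB.cons (base.doneB ok rfl rfl rfl (SBase.DoneB.nil _ _ _) c67) ?_
  refine SBase.DoneB.cons (base.doneB ok rfl rfl rfl (SBase.DoneB.nil _ _ _) c68) ?_
  refine SBase.DoneB.cons (base.doneB ok rfl rfl rfl (SBase.DoneB.nil _ _ _) c69) ?_
  refine SBase.DoneB.cons (base.doneB ok rfl rfl rfl (SBase.DoneB.nil _ _ _) c70) ?_
  refine SBase.DoneB.cons (base.doneB ok rfl rfl rfl (SBase.DoneB.nil _ _ _) c71) ?_
  refine SBase.DoneB.cons (base.doneB ok rfl rfl rfl (SBase.DoneB.nil _ _ _) c72) ?_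
  refine SBase.DoneB.cons (base.doneB ok rfl rfl rfl (SBase.DoneB.nil _ _ _) c73) ?_
  refine SBase.DoneB.cons (base.doneB ok rfl rfl rfl (SBase.DoneB.nil _ _ _) c74) ?_
  refine SBase.DoneB.cons (base.doneB ok rfl rfl rfl (SBase.DoneB.nil _ _ _) c75) ?_
  refine SBase.DoneB.cons (base.doneB ok rfl rfl rfl (SBase.DoneB.nil _ _ _) c76) ?_
  refine SBase.DoneB.cons (base.doneB ok rfl rfl rfl (SBase.DoneB.nil _ _ _) c77) ?_
  refine SBase.DoneB.cons (base.doneB ok rfl rfl rfl (SBase.DoneB.nil _ _ _) c78) ?_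
  refine SBase.DoneB.cons (base.doneB ok rfl rfl rfl (SBase.DoneB.nil _ _ _) c79) ?_
  refine SBase.DoneB.cons (base.doneB ok rfl rfl rfl (SBase.DoneB.nil _ _ _) c80) ?_
  refine SBase.DoneB.cons (base.doneB ok rfl rfl rfl (SBase.DoneB.nil _ _ _) c81) ?_
  refine SBase.DoneB.cons (base.doneB ok rfl rfl rfl (SBase.DoneB.nil _ _ _) c82) ?_
  refine SBase.DoneB.cons (base.doneB ok rfl rfl rfl (SBase.DoneB.nil _ _ _) c83) ?_
  refine SBase.DoneB.cons (base.doneB ok rfl rfl rfl (SBase.DoneB.nil _ _ _) c84) ?_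
  refine SBase.DoneB.cons (base.doneB ok rfl rfl rfl (SBase.DoneB.nil _ _ _) c85) ?_
  refine SBase.DoneB.cons (base.doneB ok rfl rfl rfl (SBase.DoneB.nil _ _ _) c86) ?_
  refine SBase.DoneB.cons (base.doneB ok rfl rfl rfl (SBase.DoneB.nil _ _ _) c87) ?_
  refine SBase.DoneB.cons (base.doneB ok rfl rfl rfl (SBase.DoneB.nil _ _ _) c88) ?_
  refine SBase.DoneB.cons (base.doneB ok rfl rfl rfl (SBase.DoneB.nil _ _ _) c89) ?_
  refine SBase.DoneB.cons (base.doneB ok rfl rfl rfl (SBase.DoneB.nil _ _ _) c90) ?_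
  refine SBase.DoneB.cons (base.doneB ok rfl rfl rfl (SBase.DoneB.nil _ _ _) c91) ?_
  refine SBase.DoneB.cons (base.doneB ok rfl rfl rfl (SBase.DoneB.nil _ _ _) c92) ?_
  refine SBase.DoneB.cons (base.doneB ok rfl rfl rfl (SBase.DoneB.nil _ _ _) c93) ?_
  refine SBase.DoneB.cons (base.doneB ok rfl rfl rfl (SBase.DoneB.nil _ _ _) c94) ?_
  refine SBase.DoneB.cons (base.doneB ok rfl rfl rfl (SBase.DoneB.nil _ _ _) c95) ?_
  refine SBase.DoneB.cons (base.doneB ok rfl rfl rfl (SBase.DoneB.nil _ _ _) c96) ?_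
  refine SBase.DoneB.cons (base.doneB ok rfl rfl rfl (SBase.DoneB.nil _ _ _) c97) ?_
  refine SBase.DoneB.cons (base.doneB ok rfl rfl rfl (SBase.DoneB.nil _ _ _) c98) ?_
  refine SBase.DoneB.cons (base.doneB ok rfl rfl rfl (SBase.DoneB.nil _ _ _) c99) ?_
  refine SBase.DoneB.cons (base.doneB ok rfl rfl rfl (SBase.DoneB.nil _ _ _) c100) ?_
  refine SBase.DoneB.cons (base.doneB ok rfl rfl rfl (SBase.DoneB.nil _ _ _) c101) ?_
  refine SBase.DoneB.cons (base.doneB ok rfl rfl rfl (SBase.DoneB.nil _ _ _) c102) ?_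
  refine SBase.DoneB.cons (base.doneB ok rfl rfl rfl (SBase.DoneB.nil _ _ _) c103) ?_
  refine SBase.DoneB.cons (base.doneB ok rfl rfl rfl (SBase.DoneB.nil _ _ _) c104) ?_
  refine SBase.DoneB.cons (base.doneB ok rfl rfl rfl (SBase.DoneB.nil _ _ _) c105) ?_
  refine SBase.DoneB.cons (base.doneB ok rfl rfl rfl (SBase.DoneB.nil _ _ _) c106) ?_
  refine SBase.DoneB.cons (base.doneB ok rfl rfl rfl (SBase.DoneB.nil _ _ _) c107) ?_
  refine SBase.DoneB.cons (base.doneB ok rfl rfl rfl (SBase.DoneB.nil _ _ _) c108) ?_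
  refine SBase.DoneB.cons (base.doneB ok rfl rfl rfl (SBase.DoneB.nil _ _ _) c109) ?_
  refine SBase.DoneB.cons (base.doneB ok rfl rfl rfl (SBase.DoneB.nil _ _ _) c110) ?_
  refine SBase.DoneB.cons (base.doneB ok rfl rfl rfl (SBase.DoneB.nil _ _ _) c111) ?_
  refine SBase.DoneB.cons (base.doneB ok rfl rfl rfl (SBase.DoneB.nil _ _ _) c112) ?_
  refine SBase.DoneB.cons (base.doneB ok rfl rfl rfl (SBase.DoneB.nil _ _ _) c113) ?_
  refine SBase.DoneB.cons (base.doneB ok rfl rfl rfl (SBase.DoneB.nil _ _ _) c114) ?_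
  refine SBase.DoneB.cons (base.doneB ok rfl rfl rfl (SBase.DoneB.nil _ _ _) c115) ?_
  refine SBase.DoneB.cons (base.doneB ok rfl rfl rfl (SBase.DoneB.nil _ _ _) c116) ?_
  refine SBase.DoneB.cons (base.doneB ok rfl rfl rfl (SBase.DoneB.nil _ _ _) c117) ?_
  refine SBase.DoneB.cons (base.doneB ok rfl rfl rfl (SBase.DoneB.nil _ _ _) c118) ?_
  refine SBase.DoneB.cons (base.doneB ok rfl rfl rfl (SBase.DoneB.nil _ _ _) c119) ?_
  refine SBase.DoneB.cons (base.doneB ok rfl rfl rfl (SBase.DoneB.nil _ _ _) c120) ?_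
  refine SBase.DoneB.cons (base.doneB ok rfl rfl rfl (SBase.DoneB.nil _ _ _) c121) ?_
  refine SBase.DoneB.cons (base.doneB ok rfl rfl rfl (SBase.DoneB.nil _ _ _) c122) ?_
  refine SBase.DoneB.cons (base.doneB ok rfl rfl rfl (SBase.DoneB.nil _ _ _) c123) ?_
  exact SBase.DoneB.nil _ _ _

theorem nb_ok : ∀ u v : Fin 11, v < u → ∀ s t : Bool, qtab 0 u v = xor s t →
    (base.nb (2 * u.1 + s.toNat)).testBit (2 * v.1 + t.toNat) = true := by
  decide +kernel

theorem lev : LevelB nt TG 0 :=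
  base.levelB rfl rfl 0 nb_ok (base.doneB ok rfl rfl rfl doneD main)

end Pool.Agent.RP5S.B0
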