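import Pool.Agent.RP5S.B1Base
import Pool.Agent.RP5S.Targets

/-! Level B, base number 1: the first part of the search -/

set_option autoImplicit false

namespace Pool.Agent.RP5S.B1

/-- the states which are treated in other files -/
def D : Stk :=
  Stk.cons 4 s0 (
  Stk.cons 4 s1 (
  Stk.cons 5 s2 (
  Stk.cons 4 s3 (
  Stk.cons 5 s4 (
  Stk.cons 6 s5 (
  Stk.cons 6 s6 (
  Stk.cons 5 s7 (
  Stk.cons 5 s8 (
  Stk.cons 5 s9 (
  Stk.cons 4 s10 (
  Stk.cons 6 s11 (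
  Stk.cons 5 s12 (
  Stk.cons 6 s13 (
  Stk.cons 5 s14 (
  Stk.cons 4 s15 (
  Stk.cons 4 s16 (
  Stk.cons 5 s17 (
  Stk.cons 5 s18 (
  Stk.cons 5 s19 (
  Stk.cons 5 s20 (
  Stk.cons 5 s21 (
  Stk.cons 5 s22 (
  Stk.cons 4 s23 (
  Stk.cons 5 s24 (
  Stk.cons 5 s25 (
  Stk.cons 5 s26 (
  Stk.cons 5 s27 (
  Stk.cons 5 s28 (
  Stk.cons 6 s29 (
  Stk.cons 5 s30 (
  Stk.cons 6 s31 (
  Stk.cons 6 s32 (
  Stk.cons 6 s33 (
  Stk.cons 5 s34 (
  Stk.cons 5 s35 (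
  Stk.cons 5 s36 (
  Stk.cons 4 s37 (
  Stk.cons 5 s38 (
  Stk.cons 6 s39 (
  Stk.cons 5 s40 (
  Stk.cons 4 s41 (
  Stk.cons 6 s42 (
  Stk.cons 6 s43 (
  Stk.cons 6 s44 (
  Stk.cons 6 s45 (
  Stk.cons 6 s46 (
  Stk.cons 6 s47 (
  Stk.cons 6 s48 (
  Stk.cons 6 s49 (
  Stk.cons 6 s50 (
  Stk.cons 5 s51 (
  Stk.cons 5 s52 (
  Stk.cons 4 s53 (
  Stk.nil))))))))))))))))))))))))))))))))))))))))))))))))))))))

theorem main : base.go (Leaf.leaf base nt TG) 127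
    0xffcffcffcffc04f1591de017ffc07320204effc0572f000effc0aa2be02dffc0a01aa047ffc05f2f800cffc07d20c042ffc0622fb00dffc05a16401c0630e800a0a7025ffcffcffc0611f002b06327700affc0a712c025057014ffe09711c004ffcffc0a72bb025ffc05f0e400cffcffc05a2f301cffc08218c012ffc07c1860140611f002b011007ffe0510d600807103bffcffc0770fc0100ab030ffc06f0f400fffc07f20e00bffc0631f200affc05b1ea009ffc09722600405801dffcffc0a712c025ffc07f20e00bffc0631f200affc05b1ea009ffc097226004ffc0511e0008010046ffe05015a018ffc04f15901700e008ffe04e0d3005ffcffcffc0a712c025057014ffe09711c004ffcffc06127502b011007ffe0510d600807103bffcffc0501df018ffc04f1de01700e008ffe04e0d300500b04fffe04b155015ffcffc0602f901fffc0710f603b05801dffc05015a01806200dffcffc05026401800f049ffe04f159017ffc04e1dd005ffc04b15501500a00effe04a0cf006041016040007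
    D (Stk.cons 0 0 Stk.nil) = true := by decide +kernel

end Pool.Agent.RP5S.B1
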