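import Pool.Agent.RP5S.B1C0
import Pool.Agent.RP5S.B1C1
import Pool.Agent.RP5S.B1Main
import Pool.Agent.RP5S.DoneLem

/-! Level B, base number 1: assembly -/

set_option autoImplicit false

namespace Pool.Agent.RP5S.B1

open Pool.Agent.RP5

theorem doneD : base.DoneB nt TG D := by
  unfold D
  refine SBase.DoneB.cons (base.doneB ok rfl rfl rfl (SBase.DoneB.nil _ _ _) c0) ?_
  refine SBase.DoneB.cons (base.doneB ok rfl rfl rfl (SBase.DoneB.nil _ _ _) c1) ?_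
  refine SBase.DoneB.cons (base.doneB ok rfl rfl rfl (SBase.DoneB.nil _ _ _) c2) ?_
  refine SBase.DoneB.cons (base.doneB ok rfl rfl rfl (SBase.DoneB.nil _ _ _) c3) ?_
  refine SBase.DoneB.cons (base.doneB ok rfl rfl rfl (SBase.DoneB.nil _ _ _) c4) ?_
  refine SBase.DoneB.cons (base.doneB ok rfl rfl rfl (SBase.DoneB.nil _ _ _) c5) ?_
  refine SBase.DoneB.cons (base.doneB ok rfl rfl rfl (SBase.DoneB.nil _ _ _) c6) ?_
  refine SBase.DoneB.cons (base.doneB ok rfl rfl rfl (SBase.DoneB.nil _ _ _) c7) ?_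
  refine SBase.DoneB.cons (base.doneB ok rfl rfl rfl (SBase.DoneB.nil _ _ _) c8) ?_
  refine SBase.DoneB.cons (base.doneB ok rfl rfl rfl (SBase.DoneB.nil _ _ _) c9) ?_
  refine SBase.DoneB.cons (base.doneB ok rfl rfl rfl (SBase.DoneB.nil _ _ _) c10) ?_
  refine SBase.DoneB.cons (base.doneB ok rfl rfl rfl (SBase.DoneB.nil _ _ _) c11) ?_
  refine SBase.DoneB.cons (base.doneB ok rfl rfl rfl (SBase.DoneB.nil _ _ _) c12) ?_
  refine SBase.DoneB.cons (base.doneB ok rfl rfl rfl (SBase.DoneB.nil _ _ _) c13) ?_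
  refine SBase.DoneB.cons (base.doneB ok rfl rfl rfl (SBase.DoneB.nil _ _ _) c14) ?_
  refine SBase.DoneB.cons (base.doneB ok rfl rfl rfl (SBase.DoneB.nil _ _ _) c15) ?_
  refine SBase.DoneB.cons (base.doneB ok rfl rfl rfl (SBase.DoneB.nil _ _ _) c16) ?_
  refine SBase.DoneB.cons (base.doneB ok rfl rfl rfl (SBase.DoneB.nil _ _ _) c17) ?_
  refine SBase.DoneB.cons (base.doneB ok rfl rfl rfl (SBase.DoneB.nil _ _ _) c18) ?_
  refine SBase.DoneB.cons (base.doneB ok rfl rfl rfl (SBase.DoneB.nil _ _ _) c19) ?_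
  refine SBase.DoneB.cons (base.doneB ok rfl rfl rfl (SBase.DoneB.nil _ _ _) c20) ?_
  refine SBase.DoneB.cons (base.doneB ok rfl rfl rfl (SBase.DoneB.nil _ _ _) c21) ?_
  refine SBase.DoneB.cons (base.doneB ok rfl rfl rfl (SBase.DoneB.nil _ _ _) c22) ?_
  refine SBase.DoneB.cons (base.doneB ok rfl rfl rfl (SBase.DoneB.nil _ _ _) c23) ?_
  refine SBase.DoneB.cons (base.doneB ok rfl rfl rfl (SBase.DoneB.nil _ _ _) c24) ?_
  refine SBase.DoneB.cons (base.doneB ok rfl rfl rfl (SBase.DoneB.nil _ _ _) c25) ?_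
  refine SBase.DoneB.cons (base.doneB ok rfl rfl rfl (SBase.DoneB.nil _ _ _) c26) ?_
  refine SBase.DoneB.cons (base.doneB ok rfl rfl rfl (SBase.DoneB.nil _ _ _) c27) ?_
  refine SBase.DoneB.cons (base.doneB ok rfl rfl rfl (SBase.DoneB.nil _ _ _) c28) ?_
  refine SBase.DoneB.cons (base.doneB ok rfl rfl rfl (SBase.DoneB.nil _ _ _) c29) ?_
  refine SBase.DoneB.cons (base.doneB ok rfl rfl rfl (SBase.DoneB.nil _ _ _) c30) ?_
  refine SBase.DoneB.cons (base.doneB ok rfl rfl rfl (SBase.DoneB.nil _ _ _) c31) ?_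
  refine SBase.DoneB.cons (base.doneB ok rfl rfl rfl (SBase.DoneB.nil _ _ _) c32) ?_
  refine SBase.DoneB.cons (base.doneB ok rfl rfl rfl (SBase.DoneB.nil _ _ _) c33) ?_
  refine SBase.DoneB.cons (base.doneB ok rfl rfl rfl (SBase.DoneB.nil _ _ _) c34) ?_
  refine SBase.DoneB.cons (base.doneB ok rfl rfl rfl (SBase.DoneB.nil _ _ _) c35) ?_
  refine SBase.DoneB.cons (base.doneB ok rfl rfl rfl (SBase.DoneB.nil _ _ _) c36) ?_
  refine SBase.DoneB.cons (base.doneB ok rfl rfl rfl (SBase.DoneB.nil _ _ _) c37) ?_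
  refine SBase.DoneB.cons (base.doneB ok rfl rfl rfl (SBase.DoneB.nil _ _ _) c38) ?_
  refine SBase.DoneB.cons (base.doneB ok rfl rfl rfl (SBase.DoneB.nil _ _ _) c39) ?_
  refine SBase.DoneB.cons (base.doneB ok rfl rfl rfl (SBase.DoneB.nil _ _ _) c40) ?_
  refine SBase.DoneB.cons (base.doneB ok rfl rfl rfl (SBase.DoneB.nil _ _ _) c41) ?_
  refine SBase.DoneB.cons (base.doneB ok rfl rfl rfl (SBase.DoneB.nil _ _ _) c42) ?_
  refine SBase.DoneB.cons (base.doneB ok rfl rfl rfl (SBase.DoneB.nil _ _ _) c43) ?_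
  refine SBase.DoneB.cons (base.doneB ok rfl rfl rfl (SBase.DoneB.nil _ _ _) c44) ?_
  refine SBase.DoneB.cons (base.doneB ok rfl rfl rfl (SBase.DoneB.nil _ _ _) c45) ?_
  refine SBase.DoneB.cons (base.doneB ok rfl rfl rfl (SBase.DoneB.nil _ _ _) c46) ?_
  refine SBase.DoneB.cons (base.doneB ok rfl rfl rfl (SBase.DoneB.nil _ _ _) c47) ?_
  refine SBase.DoneB.cons (base.doneB ok rfl rfl rfl (SBase.DoneB.nil _ _ _) c48) ?_
  refine SBase.DoneB.cons (base.doneB ok rfl rfl rfl (SBase.DoneB.nil _ _ _) c49) ?_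
  refine SBase.DoneB.cons (base.doneB ok rfl rfl rfl (SBase.DoneB.nil _ _ _) c50) ?_
  refine SBase.DoneB.cons (base.doneB ok rfl rfl rfl (SBase.DoneB.nil _ _ _) c51) ?_
  refine SBase.DoneB.cons (base.doneB ok rfl rfl rfl (SBase.DoneB.nil _ _ _) c52) ?_
  refine SBase.DoneB.cons (base.doneB ok rfl rfl rfl (SBase.DoneB.nil _ _ _) c53) ?_
  exact SBase.DoneB.nil _ _ _

theorem nb_ok : ∀ u v : Fin 11, v < u → ∀ s t : Bool, qtab 1 u v = xor s t →
    (base.nb (2 * u.1 + s.toNat)).testBit (2 * v.1 + t.toNat) = true := by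
  decide +kernel

theorem lev : LevelB nt TG 1 :=
  base.levelB rfl rfl 1 nb_ok (base.doneB ok rfl rfl rfl doneD main)

end Pool.Agent.RP5S.B1
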