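import Pool.Agent.RP5S.B2Base
import Pool.Agent.RP5S.Targets

/-! Level B, base number 2: the first part of the search -/

set_option autoImplicit false

namespace Pool.Agent.RP5S.B2

/-- the states which are treated in other files -/
def D : Stk :=
  Stk.cons 4 s0 (
  Stk.cons 4 s1 (
  Stk.cons 5 s2 (
  Stk.cons 4 s3 (
  Stk.cons 5 s4 (
  Stk.cons 4 s5 (
  Stk.cons 6 s6 (
  Stk.cons 6 s7 (
  Stk.cons 6 s8 (
  Stk.cons 6 s9 (
  Stk.cons 6 s10 (
  Stk.cons 6 s11 (
  Stk.cons 6 s12 (
  Stk.cons 6 s13 (
  Stk.cons 6 s14 (
  Stk.cons 6 s15 (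
  Stk.cons 6 s16 (
  Stk.cons 6 s17 (
  Stk.cons 6 s18 (
  Stk.cons 6 s19 (
  Stk.cons 6 s20 (
  Stk.cons 6 s21 (
  Stk.cons 5 s22 (
  Stk.cons 6 s23 (
  Stk.cons 6 s24 (
  Stk.cons 6 s25 (
  Stk.cons 6 s26 (
  Stk.cons 6 s27 (
  Stk.cons 6 s28 (
  Stk.cons 6 s29 (
  Stk.cons 6 s30 (
  Stk.cons 6 s31 (
  Stk.cons 6 s32 (
  Stk.cons 6 s33 (
  Stk.cons 6 s34 (
  Stk.cons 6 s35 (
  Stk.cons 6 s36 (
  Stk.cons 6 s37 (
  Stk.cons 6 s38 (
  Stk.cons 5 s39 (
  Stk.cons 5 s40 (
  Stk.cons 4 s41 (
  Stk.nil))))))))))))))))))))))))))))))))))))))))))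

theorem main : base.go (Leaf.leaf base nt TG) 205
    0xffcffc08c18801effcffc0482be04401c01901b02100900e00001500c01000a00501201601f006003018fff01501b01600f00c00101f00601900a01d008011005021012002029fff030147ffe1ea3640333470532eb0370fe01031503125002f36601d21302d2be04439402e04a044ffe08a18602affc0671e1002ffc07b17701a00801901501100601f00101700301b00502101301d00e00a00c034fff00b01a01301f00401d00901500d01801601000e000020006003000fff00214affe00b01a01301f00401d00901500d01801601000e000020006003000fff00214affe23a23e33603000800e00b00d01802001301000300601401600001b01d00501e000fff018142ffe25034c02f1ea03301701c01302000000e00b01501801e00800d01a006002004010018fff01001b01801201400101700201d00e01f00a00500c021009006029fff01c140ffe030144ffe1ea36403325435002b3150312b602c36b0480fe0102eb03721302d2be04419c02e18602a3860221e100202a0cdffe06a262016ffc06416001700102101100200d01201600600f01b01901c00a01501f005009009fff01f01000401b00f01901d01700001202000a01400c002008006013fff36403303b093ffe1771f501a01c01200f01e01501000200101800a01600601a00d00800402001ffff1f104802a0cdffe1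e426201601f01000401b00f01901d01700001202000a01400c002008006013fff01a01000b00901d01200d00402101400201900000e01e006017014fff1ea36403301601d00e01001800a01a02101400001300701f00400c002009007fff1f104802a0cdffe1e426201601108bffe14d1cb0182eb0372b602c18602a38d02d2e503819e03b0fe01031503125002f35b002019090ffe0591d3001ffc09619202700d00600801d01e00101501901301602000400e01b01000a002008fff00d00600801d01e00101501901301602000400e01b01000a002008fff15615a0460c806701e00402101300100b00301401000700d00e01600801901d01a01bfff15a04604a14bffe18637e02a01500a00800001901b01c02101f01000c00e002013016004007006fff0c806701e00402101300100b00301401000700d00e01600801901d01a01bfff04a14bffe18637e02a19238a02701e00402101300100b00301401000700d00e01600801901d01a01bfff00400001901300c01a01c00601600901e00b01101402000e002029fff00a14affe0c833e06715a04603208bffe16e1ec01d3900363130201ea0332be0441e100217701a2620161600171d300137401037800c31503125002f048014ffe088106025ffc05424c012ffc089281024ffc07e2f4011ffc0732e900bffc06215e01bffc07426c00fffc06e0ec00affcffc19429001c25002f0851ff01fffc069261015ffc08c18801e03a012ffe07a0f8008ffcffc08117d021ffc0682de003ffc0741ee00fffc0a612400dffc0730f100bffc05114d018ffc06c1e6009ffc07a0f8008ffc08c30201effc0721ec01dffc09829001cffcffc19429001c09d199020ffc0701ea033ffc05825002fffc09330900e02b00effe06b0e9004066014ffcffc06b263004025010ffe0650e3005049034ffcffc06a166016059001ffc064160017ffc05114d01801000cffe0500ce006045019044007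
    D (Stk.cons 0 0 Stk.nil) = true := by decide +kernel

end Pool.Agent.RP5S.B2
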