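import Pool.Agent.RP5S.CovCycle

/-!
# Base tables

A base is a partial signed graph on the vertices `0, …, n - 1`.  The signed vertex `(w, s)` has the
code `2 w + s` (`s = 1` for `true`).  A literal is a signed set with `k + 1` elements, the literals
are numbered `0, …, L - 1`.
-/

set_option autoImplicit false

namespace Pool.Agent.RP5S

/-- evaluate `n`, then continue -/
def sq {α : Type} (n : ℕ) (f : ℕ → α) : α := Nat.rec (f 0) (fun k _ => f (Nat.succ k)) n

theorem sq_eq {α : Type} (n : ℕ) (f : ℕ → α) : sq n f = f n := by cases n <;> rfl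

/-- field number `i` of width `w` of the number `T` -/
def fld (T w i : ℕ) : ℕ := Nat.mod (Nat.shiftRight T (Nat.mul i w)) (Nat.pow 2 w)

/-- base data -/
structure Base where
  /-- number of vertices -/
  n : ℕ
  /-- literals have `k + 1` elements -/
  k : ℕ
  /-- number of literals -/
  L : ℕ
  /-- compatibility table: field `x` of width `2 n` is the mask of the codes `y`, of smaller
  vertices, which are compatible with `x` -/
  N : ℕ
  /-- literal table: field `x` of width `L` is the mask of the literals which contain `x` -/
  I : ℕ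

namespace Base

variable (B : Base)

/-- compatible codes of smaller vertices -/
def nb (x : ℕ) : ℕ := fld B.N (Nat.mul 2 B.n) x

/-- literals containing the code `x` -/
def li (x : ℕ) : ℕ := fld B.I B.L x

/-- run through the codes `x` in `c`, from the largest to the smallest -/
def loop (f : ℕ → ℕ → Bool) : ℕ → ℕ → Bool
  | 0, c => Nat.beq c 0
  | fuel + 1, c => bif Nat.beq c 0 then true else sq (Nat.log2 c) fun x =>
      bif f c x then sq (Nat.xor c (Nat.pow 2 x)) fun c' => loop f fuel c' else false

/-- every potential coherent signed set with `m` elements in `c` lies in a literal in `X` -/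
def enum : ℕ → ℕ → ℕ → Bool
  | 0 => fun _ X => Nat.blt 0 X
  | m + 1 => fun c X => loop (fun c x => sq (Nat.land c (B.nb x)) fun c' =>
      sq (Nat.land X (B.li x)) fun X' => enum m c' X') (Nat.mul 2 B.n + 1) c

/-- mask of the codes with a given sign -/
def smask (s : Bool) : ℕ := Nat.mul (bif s then 2 else 1) (Nat.div (Nat.pow 4 B.n - 1) 3)

/-- there is no potential coherent signed set with `m` elements in `c`, the signs alternate, the
largest element has sign `s` -/
def noalt : ℕ → Bool → ℕ → Bool
  | 0 => fun _ _ => false
  | m + 1 => fun s c => sq (Nat.land c (B.smask s)) fun d =>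
      loop (fun _ x => sq (Nat.land c (B.nb x)) fun c' => noalt m (!s) c')
        (Nat.mul 2 B.n + 1) d

/-- update of the counters -/
def upd (m : ℕ) : ℕ → List ℕ → List ℕ
  | _, [] => []
  | p, g :: gs => Nat.lor g (Nat.land p m) :: upd m g gs

/-- counters: entry `i` is the mask of the literals with more than `i` of the codes below `c` -/
def cnt : ℕ → List ℕ
  | 0 => List.replicate (B.k + 2) 0
  | x + 1 => upd (B.li x) (Nat.pow 2 B.L - 1) (cnt x)

/-- no literal has more than `k + 1` elements -/
def sizeOk : Bool := Nat.beq ((B.cnt (Nat.mul 2 B.n)).getD (B.k + 1) 1) 0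

/-- all checks -/
def ok : Bool :=
  B.sizeOk && (B.enum (B.k + 1) (Nat.pow 4 B.n - 1) (Nat.pow 2 B.L - 1) &&
    (B.noalt (B.k + 2) true (Nat.pow 4 B.n - 1) && B.noalt (B.k + 2) false (Nat.pow 4 B.n - 1)))

/-- `(ok0, ok1)`: the literals whose elements among the first `w` vertices have alternating signs,
starting with `true`, and whose next sign should be `true` (first component), `false` (second) -/
def altAux : ℕ → ℕ × ℕ
  | 0 => (Nat.pow 2 B.L - 1, 0)
  | w + 1 =>
      let p := altAux w
      let f := B.li (2 * w)
      let t := B.li (2 * w + 1)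
      let r := Nat.xor (Nat.pow 2 B.L - 1) (Nat.lor f t)
      (Nat.lor (Nat.land p.1 r) (Nat.land p.2 f), Nat.lor (Nat.land p.2 r) (Nat.land p.1 t))

/-- the literals with alternating signs, starting with `true` -/
def altMask : ℕ := Nat.lor (B.altAux B.n).1 (B.altAux B.n).2

/-- the literals containing the codes `x₁ > x₂ > … > xₘ`, coded by `x₁ + 64 x₂ + …`; `0` if the
codes are not decreasing (and smaller than `b`) -/
def ridgeAux : ℕ → ℕ → ℕ → ℕ → ℕ
  | 0, _, _, X => X
  | m + 1, b, c, X => sq (Nat.mod c 64) fun x =>
      bif Nat.blt x b then sq (Nat.land X (B.li x)) fun X' => ridgeAux m x (Nat.div c 64) X' else 0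

/-- the literals containing a ridge -/
def ridge (c : ℕ) : ℕ := B.ridgeAux B.k (2 * B.n) c (Nat.pow 2 B.L - 1)

/-- valid clauses -/
inductive Valid : ℕ → Prop
  | alt : Valid B.altMask
  | xor (e c : ℕ) : Valid e → Valid (Nat.xor e (B.ridge c))

/-- the signed graph `a` (on the first `n` vertices) is compatible with the base -/
def Agree {N : ℕ} (a : Fin N → Fin N → Bool) : Prop :=
  ∀ u v : Fin N, u.1 < B.n → v.1 < u.1 → ∀ s t : Bool, a u v = xor s t →
    (B.nb (2 * u.1 + s.toNat)).testBit (2 * v.1 + t.toNat) = true

/-- the row `r` covers the literal `j` -/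
def Covers (r : ℕ → Bool) (j : ℕ) : Prop :=
  ∀ w < B.n, ∀ s : Bool, (B.li (2 * w + s.toNat)).testBit j = true → r w = s

end Base

end Pool.Agent.RP5S
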