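import Pool.Agent.RP5S.Engine

/-!
# Fast version of the checks of a base

`Nat.log2` is slow in the kernel, so the bits of a mask are enumerated from below: the lowest bit
`l = 2 ^ x` is isolated, and `x` is read off a table with index `l % 37`.
-/

set_option autoImplicit false

noncomputable section

namespace Pool.Agent.RP5S

/-- table: the field number `2 ^ x % 37` of width `6` is `x`, for `x < 36` -/
def idxTab : ℕ :=
  0x124c850524e56218c29d3df5998d11c43612dc79840381b5c2681000

/-- the exponent `x` of the power `l = 2 ^ x` of two -/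
def idx (l : ℕ) : ℕ := fl idxTab 6 63 (Nat.mod l 37)

/-- run through the bits `x` of `c` -/
def loopF (f : ℕ → Bool) (fuel : ℕ) : ℕ → Bool :=
  @Nat.rec (fun _ => ℕ → Bool) (fun _ => false) (fun _ ih c =>
    @Bool.rec (fun _ => Bool)
      (sq (Nat.xor c (Nat.land c (Nat.sub c 1))) fun l =>
        @Bool.rec (fun _ => Bool) false (sq (Nat.xor c l) fun c' => ih c') (sq (idx l) f))
      true (Nat.beq c 0)) fuel

/-- every potential coherent signed set with `m` elements in `c` lies in a literal in `X`
(`X` is not evaluated before the end); `NB`, `LI` are the tables of neighbours and literals -/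
def enumF (NB LI : ℕ → ℕ) (m : ℕ) : ℕ → ℕ → Bool :=
  @Nat.rec (fun _ => ℕ → ℕ → Bool) (fun _ X => Nat.blt 0 X) (fun _ ih c X =>
    loopF (fun x => sq (Nat.land c (NB x)) fun c' => ih c' (Nat.land X (LI x))) 37 c) m

/-- there is no potential coherent signed set with `m` elements in `c`, the signs alternate;
`s`, `s'` are the masks of the codes with the sign of the largest element, and the other sign -/
def noaltF (NB : ℕ → ℕ) (m : ℕ) : ℕ → ℕ → ℕ → Bool :=
  @Nat.rec (fun _ => ℕ → ℕ → ℕ → Bool) (fun _ _ _ => false) (fun _ ih s s' c =>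
    loopF (fun x => sq (Nat.land c (NB x)) fun c' => ih s' s c') 37 (Nat.land c s)) m

/-- all checks -/
def Base.okF (B : Base) : Bool :=
  sq B.N fun N => sq B.I fun I => sq B.L fun L => sq B.k fun k => sq (Nat.mul 2 B.n) fun n2 =>
  sq (ones n2) fun K2 => sq (ones L) fun KL => sq (Nat.div K2 3) fun s0 => sq (Nat.mul 2 s0) fun s1 =>
  B.sizeOk && (Nat.ble n2 36 && (
    enumF (fun x => fl N n2 K2 x) (fun x => fl I L KL x) (Nat.succ k) K2 KL &&
      (noaltF (fun x => fl N n2 K2 x) (Nat.add k 2) s1 s0 K2 &&
        noaltF (fun x => fl N n2 K2 x) (Nat.add k 2) s0 s1 K2)))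

end Pool.Agent.RP5S
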