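import Pool.Agent.RP5S.Leaf
import Pool.Agent.RP5S.Fast
import Pool.Agent.RP5S.QTab

/-!
# Check of the clauses, and the final statements
-/

set_option autoImplicit false

noncomputable section

namespace Pool.Agent.RP5S

open Finset Pool.Agent.RP5

/-- change `acc` by the coboundaries of `r` ridges, which are read from the stream `str` -/
def Base.xorRidges (B : Base) (k : ℕ → ℕ → Bool) : ℕ → ℕ → ℕ → Bool
  | 0, str, acc => k str acc
  | r + 1, str, acc => sq (Nat.xor acc (B.ridge (Nat.land str 16777215))) fun acc' =>
      sq (Nat.shiftRight str 24) fun str' => xorRidges B k r str' acc'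

/-- check that the clauses number `e, e + 1, …, e + r - 1` are valid; each one is obtained from a
previous one (number `p`) or from the alternating literals (`p = 4095`, mask `alt`) -/
def SBase.clausesAux (B : SBase) (alt : ℕ) : ℕ → ℕ → ℕ → Bool
  | 0, _, _ => true
  | r + 1, e, str => sq (Nat.land str 4095) fun p =>
      sq (Nat.land (Nat.shiftRight str 12) 4095) fun c =>
      sq (Nat.shiftRight str 24) fun str' =>
      bif Nat.beq p 4095 || Nat.blt p e then
        sq (bif Nat.beq p 4095 then alt else fl B.CT B.M (ones B.M) p) fun acc =>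
        B.xorRidges (fun str'' acc' =>
          bif Nat.beq acc' (fl B.CT B.M (ones B.M) e) then clausesAux B alt r (Nat.succ e) str''
          else false) c str' acc
      else false

/-- check that all clauses are valid -/
def SBase.clauses (B : SBase) (str : ℕ) : Bool :=
  sq B.altMask fun alt => sq str fun str => B.clausesAux alt B.nc 0 str

/-- all checks for the data of the search -/
def SBase.ok' (B : SBase) (str : ℕ) : Bool :=
  B.toBase.okF && (Nat.ble B.M B.L && B.clauses str)

/-- the signed graph `a` (on the first 17 vertices) respects the target `NX` -/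
def Resp {N : ℕ} (NX : ℕ) (a : Fin N → Fin N → Bool) : Prop :=
  ∀ u v : Fin N, u.1 < 17 → v.1 < u.1 → ∀ t : Bool,
    NX.testBit (34 * u.1 + 2 * v.1 + t.toNat) = true → a u v ≠ t

/-- the target `NX` can not be extended by six vertices -/
def Dead (NX : ℕ) : Prop :=
  ∀ a : Fin 23 → Fin 23 → Bool, (∀ u v, a u v = a v u) → Resp NX a →
    (∀ u v : Fin 23, 17 ≤ u.1 → 17 ≤ v.1 → u ≠ v → a u v = false) → ¬ P a 5 univ

/-- every exclusion of the base is an exclusion of the target -/
def Base.respOk (B : Base) (NX : ℕ) : Bool :=
  (List.range B.n).all fun u => (List.range (2 * u)).all fun y =>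
    (((B.nb (2 * u)).testBit y || NX.testBit (34 * u + y)) &&
      ((B.nb (2 * u + 1)).testBit y || NX.testBit (34 * u + (y ^^^ 1))))

/-- the 17-vertex signed graphs which extend the signed graph on 11 vertices number `j` contain one
of the `nt` targets -/
def LevelB (nt TG : ℕ) (j : Fin 4) : Prop :=
  ∀ a : Fin 17 → Fin 17 → Bool, (∀ u v, a u v = a v u) →
    (∀ u v : Fin 11, u ≠ v → a (u.castLE (by omega)) (v.castLE (by omega)) = qtab j u v) →
    (∀ u v : Fin 17, 11 ≤ u.1 → 11 ≤ v.1 → u ≠ v → a u v = false) → P a 4 univ →
    ∃ t < nt, Emb17 (fl TG 578 (ones 578) t) a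

end Pool.Agent.RP5S
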