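import Pool.Agent.RP5.GC

/-!
# The relaxed covering lemma (cycle form)

If the complement of a coherent set `S` contains no alternating coherent `(k+2)`-set, then there is
a (not necessarily symmetric) cycle of signed coherent `(k+1)`-sets which are all covered by `S`,
and whose pairing with the alternation functional is one.
-/

set_option autoImplicit false
set_option linter.unusedSectionVars false

open Finset

namespace Pool.Agent.RP5

variable {V : Type*} [LinearOrder V] [Fintype V]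

/-- for witnesses -/
theorem IsWit.covcycle {k : ℕ} {K : Finset (V × Bool) → Prop} {z : Ch V}
    (h : IsWit (k + 1) K z) (τ : Finset (V × Bool))
    (hτ : ∀ s, z s ≠ 0 → ∀ p ∈ τ, p ∈ s → ∀ q ∈ τ, neg q ∉ s)
    (hno : ∀ s, z s ≠ 0 → (∀ p ∈ τ, p ∉ s ∧ neg p ∉ s) → ¬ altp true s ∧ ¬ altp false s) :
    ∃ t : Ch V, bd t = 0 ∧ ∑ s, t s * altc true s = 1 ∧
      ∀ r, t r ≠ 0 → (∀ p ∈ τ, p ∉ r ∧ neg p ∉ r) ∧ ∃ x ∈ τ, z (insert x r) ≠ 0 := by
  classical
  obtain ⟨c, x, hy, hc, hx⟩ := h.step_decomp τ hτ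
  have hav : ∀ r, bd c r ≠ 0 → ∀ p ∈ τ, p ∉ r ∧ neg p ∉ r := by
    intro r hr
    by_contra hn
    have h2 : bd (c + x) r = 0 := by
      by_contra h3
      exact hn (hy.supp r h3)
    have h4 : bd x r = 0 := by
      by_contra h5
      obtain ⟨u, hu, hxu⟩ := exists_of_bd_ne h5
      exact hn fun p hp => ⟨fun h6 => ((hx _ hxu).2 p hp).1 (mem_insert_of_mem h6),
        fun h6 => ((hx _ hxu).2 p hp).2 (mem_insert_of_mem h6)⟩
    apply hr
    rw [bd_add, Pi.add_apply, h4, add_zero] at h2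
    exact h2
  refine ⟨bd c, bd_bd c, ?_, fun r hr => ⟨hav r hr, ?_⟩⟩
  · have h1 := hy.ess.sum_altc
    rw [bd_add] at h1
    simp only [Pi.add_apply, add_mul, sum_add_distrib] at h1
    have h2 : ∑ r, bd x r * altc true r = 0 := by
      rw [sum_bd_mul]
      refine sum_eq_zero fun s _ => ?_
      by_cases h0 : x s = 0
      · rw [h0, zero_mul]
      · obtain ⟨h3, h4⟩ := hx s h0
        have hcard := h.card h3
        rw [altc_erase (h.af h3) (card_pos.mp (by omega))]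
        obtain ⟨h5, h6⟩ := hno s h3 h4
        simp only [altc, if_neg h5, Bool.not_true, if_neg h6, add_zero, mul_zero]
    rw [h2, add_zero] at h1
    exact h1
  · obtain ⟨u, hu, hcu⟩ := exists_of_bd_ne hr
    obtain ⟨h3, p, hp, hpr⟩ := hc _ hcu
    refine ⟨u, ?_, h3⟩
    rcases mem_insert.mp hpr with rfl | h4
    · exact hp
    · exact absurd h4 (hav r hr p hp).1

/-- **Relaxed covering lemma, cycle form.** -/
theorem P.covcycle {a : V → V → Bool} {k : ℕ} {U S : Finset V}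
    {ε : V → Bool} (h : P a (k + 1) U) (hS : IsSgn a ε S)
    (hno : ∀ s, CohS a s → s.card = k + 2 → pr s ⊆ U \ S → ¬ altp true s ∧ ¬ altp false s) :
    ∃ t : Ch V, bd t = 0 ∧ ∑ s, t s * altc true s = 1 ∧
      ∀ r, t r ≠ 0 → CohS a r ∧ r.card = k + 1 ∧ pr r ⊆ U \ S ∧
        ∃ x ∈ lift ε S, CohS a (insert x r) := by
  classical
  obtain ⟨z, hz⟩ := h
  have hτ : ∀ s, z s ≠ 0 → ∀ p ∈ lift ε S, p ∈ s → ∀ q ∈ lift ε S, neg q ∉ s := by
    intro s hs p hp hps q hq hqs
    obtain ⟨h1, _⟩ := hz.supp s hs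
    rw [mem_lift] at hp hq
    by_cases he : p.1 = q.1
    · have : p = q := Prod.ext he (by rw [hp.2, hq.2, he])
      subst this
      exact h1.af p hps hqs
    · have h2 := (h1 p hps _ hqs).2 he
      rw [neg_fst, hS _ hp.1 _ hq.1 he, hp.2] at h2
      simp only [neg_apply, hq.2] at h2
      revert h2
      cases ε p.1 <;> cases ε q.1 <;> simp
  have hnS : ∀ (s : Finset (V × Bool)), (∀ p ∈ lift ε S, p ∉ s ∧ neg p ∉ s) →
      ∀ v ∈ pr s, v ∉ S := by
    intro s hs v hv hvS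
    simp only [pr, mem_image] at hv
    obtain ⟨q, hq, rfl⟩ := hv
    have h3 := hs (q.1, ε q.1) (mem_lift.mpr ⟨hvS, rfl⟩)
    by_cases he : q.2 = ε q.1
    · exact h3.1 (by rw [← he]; exact hq)
    · refine h3.2 ?_
      have : q = neg (q.1, ε q.1) := Prod.ext rfl (by simpa using Bool.eq_not_of_ne he)
      rw [← this]; exact hq
  obtain ⟨t, ht1, ht2, ht3⟩ := hz.covcycle (lift ε S) hτ fun s hs hs2 => by
    obtain ⟨h1, h2⟩ := hz.supp s hs
    exact hno s h1 (hz.card hs) fun v hv => mem_sdiff.mpr ⟨h2 hv, hnS s hs2 v hv⟩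
  refine ⟨t, ht1, ht2, fun r hr => ?_⟩
  obtain ⟨hav, x, hx, hxz⟩ := ht3 r hr
  obtain ⟨h1, h2⟩ := hz.supp _ hxz
  have hxr : x ∉ r := (hav x hx).1
  have hcard : r.card = k + 1 := by
    have := hz.card hxz
    rw [card_insert_of_notMem hxr] at this
    omega
  exact ⟨h1.subset (subset_insert _ _), hcard, fun v hv =>
    mem_sdiff.mpr ⟨h2 (image_subset_image (subset_insert _ _) hv), hnS r hav v hv⟩, x, hx, h1⟩

/-- a cycle pairs with `E = altc true + δ ψ` like with `altc true` -/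
theorem sum_mul_of_bd_eq_zero {t : Ch V} (ht : bd t = 0) (ψ : Ch V) :
    ∑ r, t r * ∑ x ∈ r, ψ (r.erase x) = 0 := by
  rw [← sum_bd_mul, ht]
  simp

/-- **Relaxed covering lemma.** For every signed cochain `ψ`, some signed coherent `(k+1)`-set `r` of
`U \ S` with `(altc true + δ ψ) r = 1` is covered by `S`. -/
theorem P.covered {a : V → V → Bool} {k : ℕ} {U S : Finset V}
    {ε : V → Bool} (h : P a (k + 1) U) (hS : IsSgn a ε S)
    (hno : ∀ s, CohS a s → s.card = k + 2 → pr s ⊆ U \ S → ¬ altp true s ∧ ¬ altp false s)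
    (ψ : Ch V) :
    ∃ r, CohS a r ∧ r.card = k + 1 ∧ pr r ⊆ U \ S ∧
      (∃ x ∈ lift ε S, CohS a (insert x r)) ∧
      altc true r + ∑ x ∈ r, ψ (r.erase x) = 1 := by
  classical
  obtain ⟨t, ht1, ht2, ht3⟩ := h.covcycle hS hno
  have h1 : ∑ r, t r * (altc true r + ∑ x ∈ r, ψ (r.erase x)) = 1 := by
    simp only [mul_add, sum_add_distrib]
    rw [ht2, sum_mul_of_bd_eq_zero ht1, add_zero]
  obtain ⟨r, _, hr⟩ := exists_ne_zero_of_sum_ne_zero (by rw [h1]; exact one_ne_zero)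
  have htr : t r ≠ 0 := fun h' => hr (by rw [h', zero_mul])
  have hE : altc true r + ∑ x ∈ r, ψ (r.erase x) ≠ 0 := fun h' => hr (by rw [h', mul_zero])
  obtain ⟨h2, h3, h4, h5⟩ := ht3 r htr
  refine ⟨r, h2, h3, h4, h5, ?_⟩
  revert hE
  generalize altc true r + ∑ x ∈ r, ψ (r.erase x) = e
  revert e
  decide

end Pool.Agent.RP5
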