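import Pool.Agent.RP5S.Base

/-!
# The covering search

There are `T` new vertices (rows).  A row is coded by a number `R` with `W = M + 2 n` bits: bit
`b < M` says that the row does not cover the literal `b`, bit `M + x` says that the row does not
have the code `x` (that is, its sign at the vertex `x / 2` is not `x % 2`).

A state is a pair `(m, S)`: there are `m` special rows, the code of the special row number `i` is
the field of `S` which begins at the bit `64 + (i + 1) W`, and the code of all other (fresh) rows
is the field which begins at the bit `64`.  The first 64 bits of `S` have no meaning (they make the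
numbers different modulo `2 ^ 64`, which is necessary for the speed of the kernel).
The stack is a list of states, all of them have to be refuted (or the goal has to be proved for
them).
-/

set_option autoImplicit false

noncomputable section

namespace Pool.Agent.RP5S

/-- stack of states -/
inductive Stk : Type
  | nil : Stk
  | cons (m S : ℕ) (st : Stk) : Stk

/-- a base with the data for the search -/
structure SBase extends Base where
  /-- number of literals used in the search, these are the literals `0, …, M - 1` -/
  M : ℕ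
  /-- number of rows -/
  T : ℕ
  /-- number of clauses -/
  nc : ℕ
  /-- clauses: field `e` of width `M` is the set of literals of the clause number `e` -/
  CT : ℕ

/-- `2 ^ w - 1` -/
def ones (w : ℕ) : ℕ := Nat.sub (Nat.pow 2 w) 1

/-- field number `i` of width `w` of `T`, `K = ones w` -/
def fl (T w K i : ℕ) : ℕ := Nat.land (Nat.shiftRight T (Nat.mul i w)) K

/-- table with `i` fields of width `w`, with values `f 0, f 1, …`, `K = ones w` -/
def mkTab (w K : ℕ) (f : ℕ → ℕ) : ℕ → ℕ → ℕ
  | 0, A => A
  | i + 1, A => sq (Nat.lor A (Nat.shiftLeft (Nat.land (f i) K) (Nat.mul i w)))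
      fun A' => mkTab w K f i A'

/-- the parameters of the search -/
structure Par where
  /-- width of the code of a row -/
  W : ℕ
  /-- `2 ^ W - 1` -/
  K : ℕ
  /-- number of literals -/
  M : ℕ
  /-- `2 ^ M - 1` -/
  KM : ℕ
  /-- number of rows -/
  T : ℕ
  /-- number of clauses -/
  nc : ℕ
  /-- clauses: fields of width `M` -/
  CT : ℕ
  /-- field `j` of width `W`: what is excluded for a row which covers the literal `j` -/
  CV : ℕ
  /-- field `y` of width `W`: what is excluded for a row which does not have the code `y` -/
  HD : ℕ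
  /-- field `m` of width `WR`: the sum of `2 ^ (64 + i W)` for the fields `i` of a state `(m, S)`
  which are in use -/
  RP : ℕ
  /-- width -/
  WR : ℕ
  /-- `2 ^ WR - 1` -/
  KR : ℕ

/-- position of the code of the special row number `i` -/
def ps (W i : ℕ) : ℕ := Nat.add 64 (Nat.mul (Nat.succ i) W)

/-- fields in use for a state `(m, S)`: special rows -/
def repA (W : ℕ) : ℕ → ℕ
  | 0 => 0
  | m + 1 => Nat.lor (repA W m) (Nat.pow 2 (ps W m))

/-- fields in use for a state `(m, S)` -/
def rep (W T m : ℕ) : ℕ :=
  Nat.lor (bif Nat.blt m T then Nat.pow 2 64 else 0) (repA W m)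

namespace Par

/-- children of a state: the literal `j` is covered by a special row if the bit `pos` is in the
field of this row (`pos - j` is the position of the field), or by a fresh row -/
def child (P : Par) (m Z pos j : ℕ) (k : ℕ → ℕ → Bool) : Bool :=
  @Bool.rec (fun _ => Bool)
    (sq (Nat.lor Z (Nat.shiftLeft (fl P.CV P.W P.K j) (Nat.sub pos j))) fun S1 => k m S1)
    (sq (Nat.lor Z (Nat.shiftLeft
        (Nat.lor (Nat.land (Nat.shiftRight Z 64) P.K) (fl P.CV P.W P.K j)) (ps P.W m))) fun S1 =>
      k (Nat.succ m) S1)
    (Nat.blt pos (Nat.add 64 P.W))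

/-- one of the bits of `X` (beginning with the bit 64) is covered; the children are pushed on the
stack; the positions of the bits are read from the stream `str`, beginning with the bit `o` -/
def hits (P : Par) (str m : ℕ) (k : ℕ → Stk → Bool) (fuel : ℕ) : ℕ → ℕ → ℕ → Stk → Bool :=
  @Nat.rec (fun _ => ℕ → ℕ → ℕ → Stk → Bool) (fun _ _ _ _ => false) (fun _ ih X Z o st =>
    @Bool.rec (fun _ => Bool)
      (sq (Nat.land (Nat.shiftRight str o) 4095) fun pos =>
        @Bool.rec (fun _ => Bool) false
          (sq (Nat.mod (Nat.sub pos 64) P.W) fun j =>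
            child P m Z pos j fun m1 S1 =>
            sq (Nat.xor X (Nat.pow 2 pos)) fun X' =>
            sq (Nat.lor Z (Nat.pow 2 pos)) fun Z' =>
            sq (Nat.add o 12) fun o' =>
            ih X' Z' o' (Stk.cons m1 S1 st))
          (Nat.ble 64 pos && Nat.beq (Nat.land (Nat.shiftRight X pos) 1) 1))
      (k o st) (Nat.beq (Nat.shiftRight X 64) 0)) fuel

/-- the clause number `t`, repeated in all fields in use -/
def cl (P : Par) (t m : ℕ) : ℕ := Nat.mul (fl P.CT P.M P.KM t) (fl P.RP P.WR P.KR m)

/-- the clause number `t` -/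
def clause (P : Par) (str t m Z : ℕ) (k : ℕ → Stk → Bool) (o : ℕ) (st : Stk) : Bool :=
  sq (Nat.lor (Nat.xor (cl P t m) (Nat.land (cl P t m) Z)) (Nat.land Z (ones 64))) fun X =>
    hits P str m k (Nat.succ P.WR) X Z o st

/-- the literal `j` is excluded for the row number `i`, and all its codes, except for `x`, are
known, hence the row does not have the code `x` -/
def force (P : Par) (m Z i x j : ℕ) (k : Stk → Bool) (st : Stk) : Bool :=
  @Bool.rec (fun _ => Bool) false
    (sq (Nat.lor Z (Nat.shiftLeft (fl P.HD P.W P.K x) (ps P.W i))) fun S' =>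
      k (Stk.cons m S' st))
    (Nat.blt i m && (Nat.blt j P.M &&
      (Nat.beq (Nat.land (Nat.shiftRight Z (Nat.add (ps P.W i) j)) 1) 1 &&
        Nat.beq (Nat.land (Nat.lor (Nat.shiftRight Z (Nat.add (ps P.W i) P.M))
            (Nat.pow 2 (Nat.xor x 1))) (Nat.shiftRight (fl P.CV P.W P.K j) P.M))
          (Nat.shiftRight (fl P.CV P.W P.K j) P.M))))

/-- the row number `i` has the code `x` or the opposite code -/
def split (P : Par) (m Z i x : ℕ) (k : Stk → Bool) (st : Stk) : Bool :=
  @Bool.rec (fun _ => Bool) false
    (sq (Nat.lor Z (Nat.shiftLeft (fl P.HD P.W P.K x) (ps P.W i))) fun S' =>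
      sq (Nat.lor Z (Nat.shiftLeft (fl P.HD P.W P.K (Nat.xor x 1)) (ps P.W i))) fun S'' =>
        k (Stk.cons m S'' (Stk.cons m S' st)))
    (Nat.blt i m)

/-- the first fresh row becomes a special row -/
def fresh (P : Par) (m Z : ℕ) (k : Stk → Bool) (st : Stk) : Bool :=
  @Bool.rec (fun _ => Bool) false
    (sq (Nat.lor Z (Nat.shiftLeft (Nat.land (Nat.shiftRight Z 64) P.K) (ps P.W m))) fun S' =>
      k (Stk.cons (Nat.succ m) S' st))
    (Nat.blt m P.T)

/-- the state is the first one of the list `D` -/
def defer (m S : ℕ) (k : Stk → Bool) (D : Stk) : Bool :=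
  @Stk.rec (fun _ => Bool) false
    (fun m' S' D' _ => @Bool.rec (fun _ => Bool) false (k D')
      (Nat.beq m m' && Nat.beq (Nat.shiftRight S 64) (Nat.shiftRight S' 64))) D

/-- a number depending on `o` which makes the states different modulo `2 ^ 64` -/
def salt (o : ℕ) : ℕ := Nat.mul o 11400714819323198485

/-- the search: `str` is the stream of instructions, the next instruction begins at the bit `o`,
`D` is the list of the states which are treated elsewhere, `st` is the stack -/
def run (P : Par) (str : ℕ) (lf : ℕ → ℕ → ℕ → Bool) (fuel : ℕ) : ℕ → Stk → Stk → Bool :=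
  @Nat.rec (fun _ => ℕ → Stk → Stk → Bool) (fun _ _ _ => false) (fun _ ih o D st =>
    @Stk.rec (fun _ => Bool) true
      (fun m S st' _ =>
        sq (Nat.land (Nat.shiftRight str o) 4095) fun t =>
        sq (Nat.xor S (Nat.land (salt o) (ones 64))) fun Z =>
        @Bool.rec (fun _ => Bool)
          (@Bool.rec (fun _ => Bool)
            (@Bool.rec (fun _ => Bool)
              (@Bool.rec (fun _ => Bool)
                (@Bool.rec (fun _ => Bool)
                  (@Bool.rec (fun _ => Bool)
                    false
                    (sq (Nat.add o 12) fun o1 => fresh P m Z (fun q => ih o1 D q) st')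
                    (Nat.beq t 4091))
                  (sq (Nat.add o 12) fun o1 => defer m S (fun D' => ih o1 D' st') D)
                  (Nat.beq t 4092))
                (sq (Nat.land (Nat.shiftRight str (Nat.add o 12)) 4095) fun a =>
                  sq (Nat.add o 24) fun o1 =>
                  split P m Z (Nat.div a 64) (Nat.mod a 64) (fun q => ih o1 D q) st')
                (Nat.beq t 4093))
              (sq (Nat.land (Nat.shiftRight str (Nat.add o 12)) 4095) fun a =>
                sq (Nat.land (Nat.shiftRight str (Nat.add o 24)) 4095) fun j =>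
                sq (Nat.add o 36) fun o1 =>
                force P m Z (Nat.div a 64) (Nat.mod a 64) j (fun q => ih o1 D q) st')
              (Nat.beq t 4094))
            (@Bool.rec (fun _ => Bool) false
              (sq (Nat.add o 228) fun o1 => ih o1 D st')
              (lf (Nat.land (Nat.shiftRight str (Nat.add o 12)) (ones 216)) m Z))
            (Nat.beq t 4095))
          (sq (Nat.add o 12) fun o1 => clause P str t m Z (fun o2 q => ih o2 D q) o1 st')
          (Nat.blt t P.nc)) st) fuel

end Par

namespace SBase

variable (B : SBase)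

/-- the used literals which contain the code `x` -/
def lm (x : ℕ) : ℕ := fl B.I B.L (ones B.M) x

/-- what is excluded for a row which does not have the code `y` -/
def hold (y : ℕ) : ℕ := Nat.lor (B.lm y) (Nat.pow 2 (Nat.add B.M y))

/-- what is excluded for a row which covers the literal with mask `J`: auxiliary function, the
codes below `x` are still to be done -/
def covA (J : ℕ) : ℕ → ℕ → ℕ
  | 0, A => A
  | x + 1, A => bif Nat.beq (Nat.land (B.lm x) J) 0 then covA J x A
      else sq (Nat.lor A (B.hold (Nat.xor x 1))) fun A' => covA J x A'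

/-- what is excluded for a row which covers the literal `j` -/
def cov (j : ℕ) : ℕ := B.covA (Nat.pow 2 j) (Nat.mul 2 B.n) 0

/-- width of the code of a row -/
def W : ℕ := Nat.add B.M (Nat.mul 2 B.n)

/-- width of a state -/
def WR : ℕ := Nat.add 64 (Nat.mul B.W (Nat.succ (Nat.succ B.T)))

/-- the parameters -/
def par : Par where
  W := B.W
  K := ones B.W
  M := B.M
  KM := ones B.M
  T := B.T
  nc := B.nc
  CT := B.CT
  CV := mkTab B.W (ones B.W) B.cov B.M 0
  HD := mkTab B.W (ones B.W) B.hold (Nat.mul 2 B.n) 0
  RP := mkTab B.WR (ones B.WR) (rep B.W B.T) (Nat.succ B.T) 0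
  WR := B.WR
  KR := ones B.WR

/-- the search, all parameters are evaluated first -/
def go (lf : ℕ → ℕ → ℕ → Bool) (fuel str : ℕ) (D st : Stk) : Bool :=
  sq B.W fun W => sq (ones W) fun K => sq B.WR fun WR => sq (ones WR) fun KR =>
  sq (mkTab W K B.cov B.M 0) fun CV =>
  sq (mkTab W K B.hold (Nat.mul 2 B.n) 0) fun HD =>
  sq B.M fun M => sq (ones M) fun KM => sq B.T fun T => sq B.nc fun nc => sq B.CT fun CT =>
  sq (mkTab WR KR (rep W T) (Nat.succ T) 0) fun RP =>
  sq str fun str =>
  Par.run ⟨W, K, M, KM, T, nc, CT, CV, HD, RP, WR, KR⟩ str lf fuel 0 D st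

theorem go_eq (lf : ℕ → ℕ → ℕ → Bool) (fuel str : ℕ) (D st : Stk) :
    B.go lf fuel str D st = Par.run B.par str lf fuel 0 D st := by
  simp only [go, sq_eq]
  rfl

/-- something is excluded for a row -/
def Excl (r : ℕ → Bool) (b : ℕ) : Prop :=
  (b < B.M ∧ ¬ B.Covers r b) ∨ (B.M ≤ b ∧ r ((b - B.M) / 2) ≠ decide ((b - B.M) % 2 = 1))

/-- the row `r` fits to the code `R` -/
def Fit (r : ℕ → Bool) (R : ℕ) : Prop :=
  ∀ b, b < B.M + 2 * B.n → R.testBit b = true → B.Excl r b

/-- the rows `ρ` fit to the state `(m, S)`, after a permutation -/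
def Sat (ρ : Fin B.T → ℕ → Bool) (m S : ℕ) : Prop :=
  m ≤ B.T ∧ S < 2 ^ (64 + (m + 1) * (B.M + 2 * B.n)) ∧ ∃ σ : Equiv.Perm (Fin B.T),
    (∀ i : Fin B.T, i.1 < m → B.Fit (ρ (σ i)) (S >>> (64 + (i.1 + 1) * (B.M + 2 * B.n)))) ∧
      ∀ i : Fin B.T, m ≤ i.1 → B.Fit (ρ (σ i)) (S >>> 64)

/-- the goal is proved for all states of a stack -/
def Done (G : Prop) (ρ : Fin B.T → ℕ → Bool) : Stk → Prop
  | Stk.nil => True
  | Stk.cons m S st => (B.Sat ρ m S → G) ∧ Done G ρ st

end SBase

end Pool.Agent.RP5S
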