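import Pool.Agent.RP5S.Base

/-!
# The clause theorem: semantics of the base tables
-/

set_option autoImplicit false
set_option linter.unusedSectionVars false

namespace Pool.Agent.RP5S

open Finset Pool.Agent.RP5

/-! ### the loop -/

theorem loop_spec {f : ℕ → ℕ → Bool} : ∀ (fuel c : ℕ), Base.loop f fuel c = true →
    ∀ x, c.testBit x = true → f (c % 2 ^ (x + 1)) x = true := by
  intro fuel
  induction fuel with
  | zero =>
    intro c h x hx
    have : c = 0 := Nat.eq_of_beq_eq_true h
    subst this
    simp at hx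
  | succ fuel ih =>
    intro c h x hx
    by_cases hc : c = 0
    · subst hc; simp at hx
    have hb : Nat.beq c 0 = false := by
      rcases hh : Nat.beq c 0 with _ | _
      · rfl
      · exact absurd (Nat.eq_of_beq_eq_true hh) hc
    simp only [Base.loop, hb, cond_false, sq_eq] at h
    rcases hf : f c (Nat.log2 c) with _ | _
    · rw [hf] at h; exact absurd h (by simp)
    rw [hf, cond_true] at h
    have hlt : c < 2 ^ (Nat.log2 c + 1) := Nat.lt_log2_self
    by_cases hxe : x = Nat.log2 c
    · rw [hxe, Nat.mod_eq_of_lt hlt]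
      exact hf
    · have hxlt : x < Nat.log2 c := by
        rcases Nat.lt_or_ge x (Nat.log2 c) with h1 | h1
        · exact h1
        · exfalso
          have h2 : Nat.log2 c + 1 ≤ x := by omega
          have h3 : c < 2 ^ x := lt_of_lt_of_le hlt (Nat.pow_le_pow_right (by norm_num) h2)
          rw [Nat.testBit_lt_two_pow h3] at hx
          exact absurd hx (by simp)
      have h1 := ih _ h x (by
        change (c ^^^ 2 ^ Nat.log2 c).testBit x = true
        rw [Nat.testBit_xor, Nat.testBit_two_pow, hx, decide_eq_false (by omega)]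
        rfl)
      have h2 : (Nat.xor c (Nat.pow 2 (Nat.log2 c))) % 2 ^ (x + 1) = c % 2 ^ (x + 1) := by
        change (c ^^^ 2 ^ Nat.log2 c) % 2 ^ (x + 1) = c % 2 ^ (x + 1)
        apply Nat.eq_of_testBit_eq
        intro i
        rw [Nat.testBit_mod_two_pow, Nat.testBit_mod_two_pow, Nat.testBit_xor,
          Nat.testBit_two_pow]
        by_cases hi : i < x + 1
        · rw [decide_eq_false (by omega : ¬ Nat.log2 c = i)]
          simp
        · simp [hi]
      rw [h2] at h1
      exact h1

/-! ### codes -/

variable {N : ℕ}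

/-- the code of a signed vertex -/
def code (p : Fin N × Bool) : ℕ := 2 * p.1.1 + p.2.toNat

theorem code_inj : Function.Injective (code : Fin N × Bool → ℕ) := by
  rintro ⟨u, s⟩ ⟨v, t⟩ h
  simp only [code] at h
  have hs : s.toNat < 2 := by cases s <;> simp
  have ht : t.toNat < 2 := by cases t <;> simp
  have h1 : u.1 = v.1 := by omega
  have h2 : s.toNat = t.toNat := by omega
  have h3 : s = t := by revert h2; cases s <;> cases t <;> simp
  rw [Prod.mk.injEq]
  exact ⟨Fin.ext h1, h3⟩

theorem code_lt {p q : Fin N × Bool} (h : p.1 < q.1) : code p < code q := by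
  have hs : p.2.toNat < 2 := by cases p.2 <;> simp
  have h' : p.1.1 < q.1.1 := h
  simp only [code]; omega

theorem code_lt_two_mul {p : Fin N × Bool} {n : ℕ} (h : p.1.1 < n) : code p < 2 * n := by
  have hs : p.2.toNat < 2 := by cases p.2 <;> simp
  simp only [code]; omega

/-- in a nonempty coherent set there is a largest element -/
theorem exists_top {a : Fin N → Fin N → Bool} {s : Finset (Fin N × Bool)} (h : CohS a s)
    (hne : s.Nonempty) : ∃ p ∈ s, ∀ q ∈ s.erase p, q.1 < p.1 := by
  obtain ⟨p, hp, hmax⟩ := s.exists_max_image (fun p => p.1) hne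
  refine ⟨p, hp, fun q hq => ?_⟩
  obtain ⟨hqp, hqs⟩ := mem_erase.mp hq
  refine lt_of_le_of_ne (hmax q hqs) fun he => hqp ((h q hqs p hp).1 he)

variable (B : Base)

theorem Base.agree_bit {B : Base} {a : Fin N → Fin N → Bool} (hag : B.Agree a)
    {s : Finset (Fin N × Bool)} (h : CohS a s) {p q : Fin N × Bool} (hp : p ∈ s) (hq : q ∈ s)
    (hlt : q.1 < p.1) (hn : p.1.1 < B.n) : (B.nb (code p)).testBit (code q) = true :=
  hag p.1 q.1 hn hlt p.2 q.2 ((h p hp q hq).2 (ne_of_gt hlt))

theorem Base.enum_spec {B : Base} {a : Fin N → Fin N → Bool} (hag : B.Agree a) :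
    ∀ (m c X : ℕ), B.enum m c X = true → ∀ s : Finset (Fin N × Bool), CohS a s → s.card = m →
      (∀ p ∈ s, p.1.1 < B.n) → (∀ p ∈ s, c.testBit (code p) = true) →
      ∃ j, X.testBit j = true ∧ ∀ p ∈ s, (B.li (code p)).testBit j = true := by
  intro m
  induction m with
  | zero =>
    intro c X h s _ hs _ _
    rw [card_eq_zero] at hs
    subst hs
    have hX : 0 < X := by
      have : Nat.blt 0 X = true := h
      simp only [Nat.blt, Nat.ble_eq] at this
      omega
    obtain ⟨j, hj⟩ := Nat.exists_testBit_of_ne_zero (by omega : X ≠ 0)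
    exact ⟨j, hj, by simp⟩
  | succ m ih =>
    intro c X h s hs hcard hn hc
    obtain ⟨p, hp, htop⟩ := exists_top hs (card_pos.mp (by omega))
    have h1 := loop_spec _ _ h (code p) (hc p hp)
    simp only [sq_eq] at h1
    obtain ⟨j, hj, hj2⟩ := ih _ _ h1 (s.erase p) (hs.subset (erase_subset _ _))
      (by rw [card_erase_of_mem hp]; omega) (fun q hq => hn q (mem_of_mem_erase hq))
      (fun q hq => by
        have hq' := mem_of_mem_erase hq
        change ((c % 2 ^ (code p + 1)) &&& B.nb (code p)).testBit (code q) = true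
        rw [Nat.testBit_and, Nat.testBit_mod_two_pow, hc q hq',
          B.agree_bit hag hs hp hq' (htop q hq) (hn p hp),
          decide_eq_true (by have := code_lt (htop q hq); omega)]
        rfl)
    have hj' : (X &&& B.li (code p)).testBit j = true := hj
    rw [Nat.testBit_and, Bool.and_eq_true] at hj'
    refine ⟨j, hj'.1, fun q hq => ?_⟩
    by_cases hqp : q = p
    · rw [hqp]; exact hj'.2
    · exact hj2 q (mem_erase.mpr ⟨hqp, hq⟩)

/-! ### alternating sets -/

theorem third_testBit : ∀ (n w : ℕ) (t : Bool),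
    ((4 ^ n - 1) / 3).testBit (2 * w + t.toNat) = (decide (w < n) && !t) := by
  intro n
  induction n with
  | zero => intro w t; simp
  | succ n ih =>
    intro w t
    have h1 : (4 ^ (n + 1) - 1) / 3 = 4 * ((4 ^ n - 1) / 3) + 1 := by
      have h2 : 4 ^ n % 3 = 1 := by rw [Nat.pow_mod]; simp
      have h3 : 4 ^ (n + 1) = 4 * 4 ^ n := by ring
      have h4 : 0 < 4 ^ n := by positivity
      omega
    rw [h1]
    cases w with
    | zero =>
      cases t
      · simp [Nat.testBit_zero]; omega
      · have : (4 * ((4 ^ n - 1) / 3) + 1) / 2 = 2 * ((4 ^ n - 1) / 3) := by omega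
        simp only [Bool.toNat_true, Nat.mul_zero, Nat.zero_add, Bool.not_true, Bool.and_false]
        rw [Nat.testBit_succ, this, Nat.testBit_zero]
        simp
    | succ w =>
      have h2 : 2 * (w + 1) + t.toNat = (2 * w + t.toNat) + 1 + 1 := by ring
      rw [h2, Nat.testBit_succ, Nat.testBit_succ]
      have h3 : (4 * ((4 ^ n - 1) / 3) + 1) / 2 / 2 = (4 ^ n - 1) / 3 := by omega
      rw [h3, ih]
      simp

theorem Base.smask_testBit (s : Bool) (w : ℕ) (t : Bool) (hw : w < B.n) (hst : t = s) :
    (B.smask s).testBit (2 * w + t.toNat) = true := by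
  subst hst
  have h := third_testBit B.n w false
  simp only [Bool.toNat_false, Nat.add_zero, decide_eq_true hw, Bool.not_false,
    Bool.and_true] at h
  cases t
  · change (1 * ((4 ^ B.n - 1) / 3)).testBit (2 * w + 0) = true
    rw [Nat.one_mul]; exact h
  · change (2 * ((4 ^ B.n - 1) / 3)).testBit (2 * w + 1) = true
    rw [Nat.testBit_succ, Nat.mul_div_cancel_left _ (by norm_num : 0 < 2)]; exact h

theorem Base.noalt_spec {B : Base} {a : Fin N → Fin N → Bool} (hag : B.Agree a) :
    ∀ (m : ℕ) (b : Bool) (c : ℕ), B.noalt m b c = true → ∀ s : Finset (Fin N × Bool), CohS a s →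
      s.card = m → (∀ p ∈ s, p.1.1 < B.n) → (∀ p ∈ s, c.testBit (code p) = true) →
      ∀ b0 : Bool, (m = 0 ∨ b = xor b0 (decide (Odd (m - 1)))) → ¬ altp b0 s := by
  intro m
  induction m with
  | zero =>
    intro b c h
    exact absurd h (by simp [Base.noalt])
  | succ m ih =>
    intro b c h s hs hcard hn hc b0 hb halt
    obtain ⟨p, hp, htop⟩ := exists_top hs (card_pos.mp (by omega))
    have hins : insert p (s.erase p) = s := insert_erase hp
    rw [← hins, altp_insert htop, card_erase_of_mem hp, hcard, Nat.add_sub_cancel] at halt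
    obtain ⟨halt1, halt2⟩ := halt
    have hb' : b = xor b0 (decide (Odd m)) := by
      rcases hb with hb | hb
      · omega
      · simpa using hb
    have hpb : p.2 = b := by rw [halt2, hb']
    simp only [Base.noalt, sq_eq] at h
    have h1 := loop_spec _ _ h (code p) (by
      change (c &&& B.smask b).testBit (code p) = true
      rw [Nat.testBit_and, hc p hp, Bool.true_and]
      exact B.smask_testBit b p.1.1 p.2 (hn p hp) hpb)
    refine ih _ _ h1 (s.erase p) (hs.subset (erase_subset _ _))
      (by rw [card_erase_of_mem hp]; omega) (fun q hq => hn q (mem_of_mem_erase hq))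
      (fun q hq => ?_) b0 ?_ halt1
    · have hq' := mem_of_mem_erase hq
      change (c &&& B.nb (code p)).testBit (code q) = true
      rw [Nat.testBit_and, hc q hq', B.agree_bit hag hs hp hq' (htop q hq) (hn p hp)]
      rfl
    · rcases Nat.eq_zero_or_pos m with hm | hm
      · exact Or.inl hm
      · right
        obtain ⟨m', rfl⟩ : ∃ m', m = m' + 1 := ⟨m - 1, by omega⟩
        rw [hb', Nat.add_sub_cancel]
        rcases Nat.even_or_odd m' with h2 | h2
        · have h3 : Odd (m' + 1) := h2.add_one
          have h4 : ¬ Odd m' := Nat.not_odd_iff_even.mpr h2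
          simp [h3, h4]
        · have h3 : ¬ Odd (m' + 1) := Nat.not_odd_iff_even.mpr h2.add_one
          simp [h3, h2]

/-! ### the sizes of the literals -/

theorem length_upd (m : ℕ) : ∀ (l : List ℕ) (p : ℕ), (Base.upd m p l).length = l.length
  | [], _ => rfl
  | g :: gs, p => by simp [Base.upd, length_upd m gs g]

theorem upd_getD (m : ℕ) : ∀ (l : List ℕ) (p i : ℕ), i < l.length →
    (Base.upd m p l).getD i 1 = l.getD i 1 ||| ((if i = 0 then p else l.getD (i - 1) 1) &&& m)
  | [], _, i, h => absurd h (by simp)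
  | g :: gs, p, 0, _ => by
    simp only [Base.upd, List.getD_cons_zero, if_true]
    rfl
  | g :: gs, p, i + 1, h => by
    simp only [Base.upd, List.getD_cons_succ]
    rw [upd_getD m gs g i (by simpa using h)]
    cases i with
    | zero => simp
    | succ i => simp

/-- number of codes `< X` in literal `j` -/
def Base.num (j X : ℕ) : ℕ := ((range X).filter fun x => (B.li x).testBit j = true).card

theorem Base.num_succ (j X : ℕ) :
    B.num j (X + 1) = B.num j X + if (B.li X).testBit j = true then 1 else 0 := by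
  unfold Base.num
  rw [range_add_one, filter_insert]
  split_ifs with h
  · rw [card_insert_of_notMem (by simp)]
  · rfl

theorem Base.length_cnt : ∀ X, (B.cnt X).length = B.k + 2
  | 0 => by simp [Base.cnt]
  | X + 1 => by simp [Base.cnt, length_upd, Base.length_cnt X]

theorem Base.cnt_spec {j : ℕ} (hj : j < B.L) : ∀ (X i : ℕ), i < B.k + 2 →
    ((B.cnt X).getD i 1).testBit j = decide (i < B.num j X) := by
  intro X
  induction X with
  | zero =>
    intro i hi
    have : (B.cnt 0).getD i 1 = 0 := by
      simp [Base.cnt, List.getD_eq_getElem?_getD, hi]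
    rw [this]
    simp [Base.num]
  | succ X ih =>
    intro i hi
    rw [Base.cnt, upd_getD _ _ _ _ (by rw [B.length_cnt]; exact hi), Nat.testBit_or,
      Nat.testBit_and, ih i hi, B.num_succ]
    have hm : (Nat.pow 2 B.L - 1).testBit j = true := by
      change (2 ^ B.L - 1).testBit j = true
      rw [Nat.testBit_two_pow_sub_one]
      exact decide_eq_true hj
    by_cases hi0 : i = 0
    · subst hi0
      rw [if_pos rfl, hm]
      cases h : (B.li X).testBit j
      · simp
      · simp
    · rw [if_neg hi0, ih (i - 1) (by omega)]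
      cases h : (B.li X).testBit j
      · simp
      · simp only [Bool.and_true, if_true]
        by_cases h2 : i < B.num j X
        · rw [decide_eq_true h2, decide_eq_true (by omega : i < B.num j X + 1)]
          rfl
        · rw [decide_eq_false h2, Bool.false_or]
          congr 1
          apply propext
          omega

theorem Base.num_le {B : Base} (h : B.sizeOk = true) {j : ℕ} (hj : j < B.L) :
    B.num j (2 * B.n) ≤ B.k + 1 := by
  have h1 : (B.cnt (2 * B.n)).getD (B.k + 1) 1 = 0 := Nat.eq_of_beq_eq_true h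
  have h2 := B.cnt_spec hj (2 * B.n) (B.k + 1) (by omega)
  rw [h1] at h2
  simp only [Nat.zero_testBit] at h2
  have h3 := of_decide_eq_false h2.symm
  omega

/-! ### literals and signed sets -/

/-- the literal `j` is the signed set `r` -/
structure Base.Lit (j : ℕ) (r : Finset (Fin N × Bool)) : Prop where
  lt : j < B.L
  card : r.card = B.k + 1
  low : ∀ p ∈ r, p.1.1 < B.n
  bit : ∀ x < 2 * B.n, (B.li x).testBit j = true ↔ x ∈ r.image code

theorem Base.lit_of {B : Base} (h : B.sizeOk = true) {j : ℕ} (hj : j < B.L)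
    {r : Finset (Fin N × Bool)} (hr : r.card = B.k + 1) (hlow : ∀ p ∈ r, p.1.1 < B.n)
    (hbit : ∀ p ∈ r, (B.li (code p)).testBit j = true) : B.Lit j r := by
  refine ⟨hj, hr, hlow, ?_⟩
  have h1 : r.image code ⊆ (range (2 * B.n)).filter fun x => (B.li x).testBit j = true := by
    intro x hx
    obtain ⟨p, hp, rfl⟩ := mem_image.mp hx
    exact mem_filter.mpr ⟨mem_range.mpr (code_lt_two_mul (hlow p hp)), hbit p hp⟩
  have h2 : r.image code = (range (2 * B.n)).filter fun x => (B.li x).testBit j = true := by
    refine eq_of_subset_of_card_le h1 ?_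
    rw [card_image_of_injective _ code_inj, hr]
    exact B.num_le h hj
  intro x hx
  rw [h2, mem_filter, mem_range]
  exact ⟨fun h => ⟨hx, h⟩, fun h => h.2⟩

theorem Base.Lit.bit' {B : Base} {j : ℕ} {r : Finset (Fin N × Bool)} (h : B.Lit j r)
    {u : Fin N} (hu : u.1 < B.n) (s : Bool) :
    (B.li (2 * u.1 + s.toNat)).testBit j = true ↔ (u, s) ∈ r := by
  have h1 := h.bit (code (u, s)) (code_lt_two_mul hu)
  change (B.li (code (u, s))).testBit j = true ↔ _
  rw [h1]
  simp only [mem_image]
  constructor
  · rintro ⟨p, hp, he⟩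
    rw [← code_inj he]; exact hp
  · intro h2
    exact ⟨_, h2, rfl⟩

/-! ### ridges -/

theorem Base.ridgeAux_spec : ∀ (m b c : ℕ), (∀ X, B.ridgeAux m b c X = 0) ∨
    ∃ D : Finset ℕ, D.card = m ∧ (∀ x ∈ D, x < b) ∧ ∀ X j, (B.ridgeAux m b c X).testBit j = true ↔
      X.testBit j = true ∧ ∀ x ∈ D, (B.li x).testBit j = true := by
  intro m
  induction m with
  | zero =>
    intro b c
    right
    exact ⟨∅, rfl, by simp, fun X j => by simp [Base.ridgeAux]⟩
  | succ m ih =>
    intro b c
    have hx0 : ∀ X, B.ridgeAux (m + 1) b c X = bif Nat.blt (c % 64) b then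
        B.ridgeAux m (c % 64) (c / 64) (X &&& B.li (c % 64)) else 0 := by
      intro X
      simp only [Base.ridgeAux, sq_eq]
      rfl
    rcases hb : Nat.blt (c % 64) b with _ | _
    · left
      intro X
      rw [hx0, hb, cond_false]
    · have hlt : c % 64 < b := by
        simp only [Nat.blt, Nat.ble_eq] at hb
        omega
      rcases ih (c % 64) (c / 64) with h | ⟨D, hD, hDb, h⟩
      · left
        intro X
        rw [hx0, hb, cond_true, h]
      · right
        have hn : c % 64 ∉ D := fun h' => absurd (hDb _ h') (lt_irrefl _)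
        refine ⟨insert (c % 64) D, by rw [card_insert_of_notMem hn, hD], ?_, ?_⟩
        · intro x hx
          rcases mem_insert.mp hx with rfl | hx
          · exact hlt
          · exact (hDb x hx).trans hlt
        · intro X j
          rw [hx0, hb, cond_true, h, Nat.testBit_and, Bool.and_eq_true]
          constructor
          · rintro ⟨⟨h1, h2⟩, h3⟩
            refine ⟨h1, fun x hx => ?_⟩
            rcases mem_insert.mp hx with rfl | hx
            · exact h2
            · exact h3 x hx
          · rintro ⟨h1, h2⟩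
            exact ⟨⟨h1, h2 _ (mem_insert_self _ _)⟩, fun x hx => h2 x (mem_insert_of_mem hx)⟩

/-- the contribution of a ridge -/
theorem Base.ridge_spec (c : ℕ) : ∃ χ : Finset (Fin N × Bool) → ZMod 2,
    ∀ (j : ℕ) (r : Finset (Fin N × Bool)), B.Lit j r →
      ∑ x ∈ r, χ (r.erase x) = if (B.ridge c).testBit j = true then 1 else 0 := by
  rcases B.ridgeAux_spec B.k (2 * B.n) c with h | ⟨D, hD, hDb, h⟩
  · refine ⟨0, fun j r _ => ?_⟩
    have : B.ridge c = 0 := h _
    rw [this]
    simp
  · refine ⟨fun s => if s.image code = D then 1 else 0, fun j r hr => ?_⟩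
    have hX : (Nat.pow 2 B.L - 1).testBit j = true := by
      change (2 ^ B.L - 1).testBit j = true
      rw [Nat.testBit_two_pow_sub_one]
      exact decide_eq_true hr.lt
    have h1 : (B.ridge c).testBit j = true ↔ D ⊆ r.image code := by
      unfold Base.ridge
      rw [h]
      constructor
      · rintro ⟨_, h2⟩ x hx
        exact (hr.bit x (hDb x hx)).mp (h2 x hx)
      · intro h2
        exact ⟨hX, fun x hx => (hr.bit x (hDb x hx)).mpr (h2 hx)⟩
    have himg : ∀ x ∈ r, (r.erase x).image code = (r.image code).erase (code x) := by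
      intro x _
      exact image_erase code_inj r x
    by_cases hsub : D ⊆ r.image code
    · rw [if_pos (h1.mpr hsub)]
      have hcard : ((r.image code) \ D).card = 1 := by
        rw [card_sdiff_of_subset hsub, card_image_of_injective _ code_inj, hr.card, hD]
        omega
      obtain ⟨y, hy⟩ := card_eq_one.mp hcard
      have hy' : y ∈ r.image code := (mem_sdiff.mp (hy ▸ mem_singleton_self y)).1
      have hyD : y ∉ D := (mem_sdiff.mp (hy ▸ mem_singleton_self y)).2
      obtain ⟨p, hp, rfl⟩ := mem_image.mp hy'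
      have hDe : D = (r.image code).erase (code p) := by
        refine eq_of_subset_of_card_le (fun x hx => mem_erase.mpr
          ⟨fun he => hyD (he ▸ hx), hsub hx⟩) ?_
        rw [card_erase_of_mem hy', card_image_of_injective _ code_inj, hr.card, hD]
        omega
      rw [sum_eq_single_of_mem p hp]
      · change (if (r.erase p).image code = D then (1 : ZMod 2) else 0) = 1
        exact if_pos (by rw [himg p hp, ← hDe])
      · intro q hq hqp
        change (if (r.erase q).image code = D then (1 : ZMod 2) else 0) = 0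
        refine if_neg ?_
        rw [himg q hq, hDe]
        intro he
        have h2 : code p ∈ (r.image code).erase (code q) :=
          mem_erase.mpr ⟨fun h => hqp (code_inj h).symm, hy'⟩
        rw [he] at h2
        exact absurd h2 (by simp)
    · rw [if_neg fun h' => hsub (h1.mp h')]
      refine sum_eq_zero fun x hx => ?_
      change (if (r.erase x).image code = D then (1 : ZMod 2) else 0) = 0
      refine if_neg fun he => hsub ?_
      rw [← he]
      exact image_subset_image (erase_subset _ _)

/-! ### alternating literals -/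

theorem Base.altAux_spec {B : Base} {a : Fin N → Fin N → Bool} {j : ℕ}
    {r : Finset (Fin N × Bool)} (hr : B.Lit j r) (hc : CohS a r) (hN : B.n ≤ N) :
    ∀ w ≤ B.n, ((B.altAux w).1.testBit j = true ↔
        altp true (r.filter fun p => p.1.1 < w) ∧ Even (r.filter fun p => p.1.1 < w).card) ∧
      ((B.altAux w).2.testBit j = true ↔
        altp true (r.filter fun p => p.1.1 < w) ∧ Odd (r.filter fun p => p.1.1 < w).card) := by
  have hX : (2 ^ B.L - 1).testBit j = true := by
    rw [Nat.testBit_two_pow_sub_one]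
    exact decide_eq_true hr.lt
  intro w
  induction w with
  | zero =>
    intro _
    have h0 : (r.filter fun p => p.1.1 < 0) = ∅ := by simp
    rw [h0]
    constructor
    · refine ⟨fun _ => ⟨by simp [altp], by simp⟩, fun _ => hX⟩
    · simp [Base.altAux]
  | succ w ih =>
    intro hw
    obtain ⟨ih1, ih2⟩ := ih (by omega)
    have hwN : w < N := by omega
    have hf := hr.bit' (u := ⟨w, hwN⟩) (by simpa using (by omega : w < B.n)) false
    have ht := hr.bit' (u := ⟨w, hwN⟩) (by simpa using (by omega : w < B.n)) true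
    simp only [Bool.toNat_false, Bool.toNat_true, Nat.add_zero] at hf ht
    have e1 : (B.altAux (w + 1)).1.testBit j = true ↔
        ((B.altAux w).1.testBit j = true ∧ ¬ ((⟨w, hwN⟩, false) ∈ r) ∧ ¬ ((⟨w, hwN⟩, true) ∈ r)) ∨
        ((B.altAux w).2.testBit j = true ∧ ((⟨w, hwN⟩, false) ∈ r)) := by
      rw [← hf, ← ht]
      change (((B.altAux w).1 &&& ((2 ^ B.L - 1) ^^^ (B.li (2 * w) ||| B.li (2 * w + 1)))) |||
        ((B.altAux w).2 &&& B.li (2 * w))).testBit j = true ↔ _
      rw [Nat.testBit_or, Nat.testBit_and, Nat.testBit_and, Nat.testBit_xor, Nat.testBit_or, hX]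
      cases (B.altAux w).1.testBit j <;> cases (B.altAux w).2.testBit j <;>
        cases (B.li (2 * w)).testBit j <;> cases (B.li (2 * w + 1)).testBit j <;> simp
    have e2 : (B.altAux (w + 1)).2.testBit j = true ↔
        ((B.altAux w).2.testBit j = true ∧ ¬ ((⟨w, hwN⟩, false) ∈ r) ∧ ¬ ((⟨w, hwN⟩, true) ∈ r)) ∨
        ((B.altAux w).1.testBit j = true ∧ ((⟨w, hwN⟩, true) ∈ r)) := by
      rw [← hf, ← ht]
      change (((B.altAux w).2 &&& ((2 ^ B.L - 1) ^^^ (B.li (2 * w) ||| B.li (2 * w + 1)))) |||
        ((B.altAux w).1 &&& B.li (2 * w + 1))).testBit j = true ↔ _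
      rw [Nat.testBit_or, Nat.testBit_and, Nat.testBit_and, Nat.testBit_xor, Nat.testBit_or, hX]
      cases (B.altAux w).1.testBit j <;> cases (B.altAux w).2.testBit j <;>
        cases (B.li (2 * w)).testBit j <;> cases (B.li (2 * w + 1)).testBit j <;> simp
    -- adding an element
    have hadd : ∀ s : Bool, ((⟨w, hwN⟩, s) ∈ r) →
        (r.filter fun p => p.1.1 < w + 1) =
          insert (⟨w, hwN⟩, s) (r.filter fun p => p.1.1 < w) := by
      intro s hs
      ext q
      simp only [mem_filter, mem_insert]
      constructor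
      · rintro ⟨h1, h2⟩
        by_cases h3 : q.1.1 < w
        · exact Or.inr ⟨h1, h3⟩
        · left
          refine (hc q h1 _ hs).1 (Fin.ext ?_)
          change q.1.1 = w
          omega
      · rintro (rfl | ⟨h1, h2⟩)
        · exact ⟨hs, by simp⟩
        · exact ⟨h1, by omega⟩
    have hnone : ¬ ((⟨w, hwN⟩, false) ∈ r) → ¬ ((⟨w, hwN⟩, true) ∈ r) →
        (r.filter fun p => p.1.1 < w + 1) = r.filter fun p => p.1.1 < w := by
      intro h1 h2
      ext q
      simp only [mem_filter, and_congr_right_iff]
      intro hq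
      constructor
      · intro h3
        by_contra h4
        have h5 : q.1 = ⟨w, hwN⟩ := Fin.ext (by change q.1.1 = w; omega)
        rcases q with ⟨u, _ | _⟩
        · simp only at h5; subst h5; exact h1 hq
        · simp only at h5; subst h5; exact h2 hq
      · intro h3; omega
    have halt : ∀ s : Bool, altp true (insert (⟨w, hwN⟩, s) (r.filter fun p => p.1.1 < w)) ↔
        altp true (r.filter fun p => p.1.1 < w) ∧
          s = xor true (decide (Odd (r.filter fun p => p.1.1 < w).card)) := by
      intro s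
      refine altp_insert fun q hq => ?_
      simp only [mem_filter] at hq
      exact hq.2
    have hcard : ∀ s : Bool, (insert ((⟨w, hwN⟩, s) : Fin N × Bool)
        (r.filter fun p => p.1.1 < w)).card = (r.filter fun p => p.1.1 < w).card + 1 := by
      intro s
      rw [card_insert_of_notMem]
      simp
    by_cases h1 : ((⟨w, hwN⟩, false) ∈ r)
    · have h2 : ¬ ((⟨w, hwN⟩, true) ∈ r) := by
        intro h2
        have := (hc _ h1 _ h2).1 rfl
        simp at this
      rw [e1, e2, hadd false h1, halt, hcard, ih1, ih2]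
      rw [Nat.even_add_one, Nat.odd_add_one, Nat.not_even_iff_odd, Nat.not_odd_iff_even]
      rcases Nat.even_or_odd (r.filter fun p => p.1.1 < w).card with h3 | h3
      · have h4 := Nat.not_odd_iff_even.mpr h3
        simp [h1, h2, h3, h4]
      · have h4 := Nat.not_even_iff_odd.mpr h3
        simp [h1, h2, h3, h4]
    · by_cases h2 : ((⟨w, hwN⟩, true) ∈ r)
      · rw [e1, e2, hadd true h2, halt, hcard, ih1, ih2]
        rw [Nat.even_add_one, Nat.odd_add_one, Nat.not_even_iff_odd, Nat.not_odd_iff_even]
        rcases Nat.even_or_odd (r.filter fun p => p.1.1 < w).card with h3 | h3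
        · have h4 := Nat.not_odd_iff_even.mpr h3
          simp [h1, h2, h3, h4]
        · have h4 := Nat.not_even_iff_odd.mpr h3
          simp [h1, h2, h3, h4]
      · rw [e1, e2, hnone h1 h2, ih1, ih2]
        simp [h1, h2]

theorem Base.altMask_spec {B : Base} {a : Fin N → Fin N → Bool} {j : ℕ}
    {r : Finset (Fin N × Bool)} (hr : B.Lit j r) (hc : CohS a r) (hN : B.n ≤ N) :
    B.altMask.testBit j = true ↔ altp true r := by
  obtain ⟨h1, h2⟩ := B.altAux_spec hr hc hN B.n le_rfl
  have h3 : (r.filter fun p => p.1.1 < B.n) = r := filter_true_of_mem hr.low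
  rw [h3] at h1 h2
  change ((B.altAux B.n).1 ||| (B.altAux B.n).2).testBit j = true ↔ _
  rw [Nat.testBit_or, Bool.or_eq_true, h1, h2]
  constructor
  · rintro (h | h) <;> exact h.1
  · intro h
    rcases Nat.even_or_odd r.card with h4 | h4
    · exact Or.inl ⟨h, h4⟩
    · exact Or.inr ⟨h, h4⟩

/-- every valid clause comes from a cochain -/
theorem Base.Valid.exists_psi {B : Base} {a : Fin N → Fin N → Bool} (hN : B.n ≤ N) {e : ℕ}
    (he : B.Valid e) : ∃ ψ : Ch (Fin N), ∀ (j : ℕ) (r : Finset (Fin N × Bool)), B.Lit j r →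
      CohS a r → altc true r + ∑ x ∈ r, ψ (r.erase x) =
        if e.testBit j = true then 1 else 0 := by
  induction he with
  | alt =>
    refine ⟨0, fun j r hr hc => ?_⟩
    simp only [Pi.zero_apply, sum_const_zero, add_zero, altc, B.altMask_spec hr hc hN]
  | xor e c _ ih =>
    obtain ⟨ψ, hψ⟩ := ih
    obtain ⟨χ, hχ⟩ := B.ridge_spec (N := N) c
    refine ⟨ψ + χ, fun j r hr hc => ?_⟩
    simp only [Pi.add_apply, sum_add_distrib]
    rw [← add_assoc, hψ j r hr hc, hχ j r hr]
    change _ = if (e ^^^ B.ridge c).testBit j = true then 1 else 0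
    rw [Nat.testBit_xor]
    cases e.testBit j <;> cases (B.ridge c).testBit j <;> simp
    decide

theorem four_pow_testBit {n x : ℕ} (h : x < 2 * n) : (Nat.pow 4 n - 1).testBit x = true := by
  change (4 ^ n - 1).testBit x = true
  have : (4 : ℕ) ^ n = 2 ^ (2 * n) := by rw [pow_mul]; norm_num
  rw [this, Nat.testBit_two_pow_sub_one]
  exact decide_eq_true h

/-- **The clause theorem.** -/
theorem Base.clause (B : Base) (hB : B.ok = true) {N : ℕ} (hN : B.n ≤ N)
    (a : Fin N → Fin N → Bool) (ha : ∀ u v, a u v = a v u) (hag : B.Agree a)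
    (hS : ∀ u v : Fin N, B.n ≤ u.1 → B.n ≤ v.1 → u ≠ v → a u v = false)
    (hP : P a (B.k + 1) univ) {e : ℕ} (he : B.Valid e) :
    ∃ t : Fin N, B.n ≤ t.1 ∧ ∃ j, e.testBit j = true ∧
      B.Covers (fun w => if h : w < N then a t ⟨w, h⟩ else false) j := by
  classical
  simp only [Base.ok, Bool.and_eq_true] at hB
  obtain ⟨hsz, henum, hna1, hna2⟩ := hB
  set S : Finset (Fin N) := univ.filter fun u => B.n ≤ u.1 with hSdef
  have hmemS : ∀ u : Fin N, u ∈ S ↔ B.n ≤ u.1 := by intro u; simp [hSdef]
  have hlow : ∀ r : Finset (Fin N × Bool), pr r ⊆ univ \ S → ∀ p ∈ r, p.1.1 < B.n := by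
    intro r hr p hp
    have h1 := hr (mem_pr hp)
    rw [mem_sdiff, hmemS] at h1
    omega
  have hsgn : IsSgn a (fun _ => false) S := by
    intro u hu v hv huv
    rw [hS u v ((hmemS u).mp hu) ((hmemS v).mp hv) huv]
    rfl
  have hno : ∀ s, CohS a s → s.card = B.k + 2 → pr s ⊆ univ \ S →
      ¬ altp true s ∧ ¬ altp false s := by
    intro s hs hcard hpr
    have hl := hlow s hpr
    have hb : ∀ p ∈ s, (Nat.pow 4 B.n - 1).testBit (code p) = true := fun p hp =>
      four_pow_testBit (code_lt_two_mul (hl p hp))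
    have key : ∀ b : Bool, ¬ altp b s := by
      intro b
      rcases hh : xor b (decide (Odd (B.k + 2 - 1))) with _ | _
      · exact B.noalt_spec hag _ _ _ hna2 s hs hcard hl hb b (Or.inr hh.symm)
      · exact B.noalt_spec hag _ _ _ hna1 s hs hcard hl hb b (Or.inr hh.symm)
    exact ⟨key true, key false⟩
  obtain ⟨ψ, hψ⟩ := he.exists_psi (a := a) hN
  obtain ⟨r, hr1, hr2, hr3, ⟨x, hx, hxr⟩, hr5⟩ := hP.covered hsgn hno ψ
  have hl := hlow r hr3
  obtain ⟨j, hj, hjr⟩ := B.enum_spec hag _ _ _ henum r hr1 hr2 hl fun p hp =>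
    four_pow_testBit (code_lt_two_mul (hl p hp))
  have hjL : j < B.L := by
    have hj' : (2 ^ B.L - 1).testBit j = true := hj
    rw [Nat.testBit_two_pow_sub_one] at hj'
    exact of_decide_eq_true hj'
  have hlit := B.lit_of hsz hjL hr2 hl hjr
  have hej : e.testBit j = true := by
    have h1 := hψ j r hlit hr1
    rw [hr5] at h1
    by_contra h2
    rw [if_neg h2] at h1
    exact one_ne_zero h1
  rw [mem_lift] at hx
  refine ⟨x.1, (hmemS _).mp hx.1, j, hej, ?_⟩
  intro w hw s hs
  have hwN : w < N := by omega
  have h1 : ((⟨w, hwN⟩, s) : Fin N × Bool) ∈ r := (hlit.bit' (u := ⟨w, hwN⟩) hw s).mp hs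
  simp only [dif_pos hwN]
  have hne : x.1 ≠ (⟨w, hwN⟩ : Fin N) := by
    intro he
    have h2 := (hmemS _).mp hx.1
    rw [he] at h2
    change B.n ≤ w at h2
    omega
  have h2 := (hxr x (mem_insert_self _ _) _ (mem_insert_of_mem h1)).2 hne
  change a x.1 ⟨w, hwN⟩ = xor x.2 s at h2
  rw [h2, hx.2]
  cases s <;> rfl

end Pool.Agent.RP5S
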