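import Pool.Agent.RP5S.Fast
import Pool.Agent.RP5S.Sem

/-!
# Semantics of the fast checks
-/

set_option autoImplicit false

namespace Pool.Agent.RP5S

open Finset Pool.Agent.RP5

theorem fl_eq_fld (T w i : ℕ) : fl T w (ones w) i = fld T w i := by
  change (T >>> (i * w)) &&& (2 ^ w - 1) = (T >>> (i * w)) % (2 ^ w)
  exact Nat.and_two_pow_sub_one_eq_mod _ _

/-- isolation of the lowest bit -/
theorem low_bit {c : ℕ} (hc : c ≠ 0) : ∃ x, c.testBit x = true ∧
    Nat.xor c (Nat.land c (Nat.sub c 1)) = 2 ^ x := by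
  obtain ⟨x, q, hq, rfl⟩ := Nat.exists_eq_two_pow_mul_odd hc
  obtain ⟨r, rfl⟩ := hq
  have h0 : 0 < 2 ^ x := by positivity
  have e1 : 2 ^ x * (2 * r + 1) = 2 ^ x * (2 * r + 1) + 0 := rfl
  have e2 : 2 ^ x * (2 * r + 1) - 1 = 2 ^ x * (2 * r) + (2 ^ x - 1) := by
    have : 2 ^ x * (2 * r + 1) = 2 ^ x * (2 * r) + 2 ^ x := by ring
    omega
  have hlt : 2 ^ x - 1 < 2 ^ x := by omega
  refine ⟨x, ?_, ?_⟩
  · rw [e1, Nat.testBit_two_pow_mul_add _ h0, if_neg (lt_irrefl x), Nat.sub_self, Nat.testBit_zero]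
    exact decide_eq_true (by omega)
  · change (2 ^ x * (2 * r + 1)) ^^^ ((2 ^ x * (2 * r + 1)) &&& (2 ^ x * (2 * r + 1) - 1)) = 2 ^ x
    apply Nat.eq_of_testBit_eq
    intro i
    rw [Nat.testBit_xor, Nat.testBit_and, e2, e1, Nat.testBit_two_pow_mul_add _ h0,
      Nat.testBit_two_pow_mul_add _ hlt, Nat.testBit_two_pow]
    rcases lt_trichotomy i x with h | h | h
    · rw [if_pos h, decide_eq_false (by omega)]
      simp
    · subst h
      rw [if_neg (lt_irrefl i), if_neg (lt_irrefl i), Nat.sub_self, Nat.testBit_zero,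
        Nat.testBit_zero, decide_eq_true (by omega : (2 * r + 1) % 2 = 1),
        decide_eq_false (by omega : ¬ (2 * r) % 2 = 1), decide_eq_true rfl]
      rfl
    · rw [if_neg (by omega), if_neg (by omega), decide_eq_false (by omega)]
      obtain ⟨d, hd⟩ : ∃ d, i - x = d + 1 := ⟨i - x - 1, by omega⟩
      rw [hd, Nat.testBit_succ, Nat.testBit_succ]
      have e3 : (2 * r + 1) / 2 = r := by omega
      have e4 : 2 * r / 2 = r := by omega
      rw [e3, e4]
      cases r.testBit d <;> rfl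

theorem idx_pow : ∀ x < 36, idx (2 ^ x) = x := by decide

theorem loopF_spec {f : ℕ → Bool} : ∀ (fuel c : ℕ), c < 2 ^ 36 → loopF f fuel c = true →
    ∀ x, c.testBit x = true → f x = true := by
  intro fuel
  induction fuel with
  | zero => intro c _ h; exact absurd h Bool.false_ne_true
  | succ fuel ih =>
    intro c hlt h x hx
    have hc : c ≠ 0 := by
      rintro rfl
      simp at hx
    change @Bool.rec (fun _ => Bool)
      (sq (Nat.xor c (Nat.land c (Nat.sub c 1))) fun l =>
        @Bool.rec (fun _ => Bool) false (sq (Nat.xor c l) fun c' => loopF f fuel c')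
          (sq (idx l) f))
      true (Nat.beq c 0) = true at h
    have hb : Nat.beq c 0 = false := by
      rcases hh : Nat.beq c 0 with _ | _
      · rfl
      · exact absurd (Nat.eq_of_beq_eq_true hh) hc
    rw [hb] at h
    simp only [sq_eq] at h
    obtain ⟨y, hy1, hy2⟩ := low_bit hc
    rw [hy2] at h
    have hy3 : y < 36 := by
      have := Nat.ge_two_pow_of_testBit hy1
      exact (Nat.pow_lt_pow_iff_right (by norm_num : 1 < 2)).mp (lt_of_le_of_lt this hlt)
    rw [idx_pow y hy3] at h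
    rcases hf : f y with _ | _
    · rw [hf] at h; exact absurd h Bool.false_ne_true
    rw [hf] at h
    by_cases hxy : x = y
    · rw [hxy]; exact hf
    · refine ih _ ?_ h x ?_
      · exact Nat.xor_lt_two_pow hlt (Nat.pow_lt_pow_right (by norm_num) hy3)
      · change (c ^^^ 2 ^ y).testBit x = true
        rw [Nat.testBit_xor, Nat.testBit_two_pow, hx, decide_eq_false (Ne.symm hxy)]
        rfl

variable {N : ℕ}

theorem enumF_spec {B : Base} {NB LI : ℕ → ℕ} (hNB : ∀ x, NB x = B.nb x)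
    {a : Fin N → Fin N → Bool} (hag : B.Agree a) :
    ∀ (m c X : ℕ), c < 2 ^ 36 → enumF NB LI m c X = true →
      ∀ s : Finset (Fin N × Bool), CohS a s → s.card = m →
      (∀ p ∈ s, p.1.1 < B.n) → (∀ p ∈ s, c.testBit (code p) = true) →
      ∃ j, X.testBit j = true ∧ ∀ p ∈ s, (LI (code p)).testBit j = true := by
  intro m
  induction m with
  | zero =>
    intro c X _ h s _ hs _ _
    rw [card_eq_zero] at hs
    subst hs
    have hX : 0 < X := by
      have : Nat.blt 0 X = true := h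
      simp only [Nat.blt, Nat.ble_eq] at this
      omega
    obtain ⟨j, hj⟩ := Nat.exists_testBit_of_ne_zero (by omega : X ≠ 0)
    exact ⟨j, hj, by simp⟩
  | succ m ih =>
    intro c X hlt h s hs hcard hn hc
    obtain ⟨p, hp, htop⟩ := exists_top hs (card_pos.mp (by omega))
    change loopF (fun x => sq (Nat.land c (NB x)) fun c' =>
      enumF NB LI m c' (Nat.land X (LI x))) 37 c = true at h
    have h1 := loopF_spec _ _ hlt h (code p) (hc p hp)
    simp only [sq_eq] at h1
    obtain ⟨j, hj, hj2⟩ := ih _ _ (lt_of_le_of_lt Nat.and_le_left hlt) h1 (s.erase p)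
      (hs.subset (erase_subset _ _))
      (by rw [card_erase_of_mem hp]; omega) (fun q hq => hn q (mem_of_mem_erase hq))
      (fun q hq => by
        have hq' := mem_of_mem_erase hq
        change (c &&& NB (code p)).testBit (code q) = true
        rw [Nat.testBit_and, hc q hq', hNB,
          B.agree_bit hag hs hp hq' (htop q hq) (hn p hp)]
        rfl)
    have hj' : (X &&& LI (code p)).testBit j = true := hj
    rw [Nat.testBit_and, Bool.and_eq_true] at hj'
    refine ⟨j, hj'.1, fun q hq => ?_⟩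
    by_cases hqp : q = p
    · rw [hqp]; exact hj'.2
    · exact hj2 q (mem_erase.mpr ⟨hqp, hq⟩)

theorem noaltF_spec {B : Base} {NB : ℕ → ℕ} (hNB : ∀ x, NB x = B.nb x)
    {a : Fin N → Fin N → Bool} (hag : B.Agree a) :
    ∀ (m : ℕ) (b : Bool) (c : ℕ), c < 2 ^ 36 →
      noaltF NB m (B.smask b) (B.smask !b) c = true →
      ∀ s : Finset (Fin N × Bool), CohS a s →
      s.card = m → (∀ p ∈ s, p.1.1 < B.n) → (∀ p ∈ s, c.testBit (code p) = true) →
      ∀ b0 : Bool, (m = 0 ∨ b = xor b0 (decide (Odd (m - 1)))) → ¬ altp b0 s := by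
  intro m
  induction m with
  | zero =>
    intro b c _ h
    exact absurd h Bool.false_ne_true
  | succ m ih =>
    intro b c hlt h s hs hcard hn hc b0 hb halt
    obtain ⟨p, hp, htop⟩ := exists_top hs (card_pos.mp (by omega))
    have hins : insert p (s.erase p) = s := insert_erase hp
    rw [← hins, altp_insert htop, card_erase_of_mem hp, hcard, Nat.add_sub_cancel] at halt
    obtain ⟨halt1, halt2⟩ := halt
    have hb' : b = xor b0 (decide (Odd m)) := by
      rcases hb with hb | hb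
      · omega
      · simpa using hb
    have hpb : p.2 = b := by rw [halt2, hb']
    change loopF (fun x => sq (Nat.land c (NB x)) fun c' =>
      noaltF NB m (B.smask !b) (B.smask b) c') 37 (Nat.land c (B.smask b)) = true at h
    have h1 := loopF_spec _ _ (lt_of_le_of_lt Nat.and_le_left hlt) h (code p) (by
      rw [Nat.testBit_and, hc p hp, Bool.true_and]
      exact B.smask_testBit b p.1.1 p.2 (hn p hp) hpb)
    simp only [sq_eq] at h1
    have h2 : noaltF NB m (B.smask !b) (B.smask !!b) (Nat.land c (NB (code p))) = true := by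
      rw [Bool.not_not]; exact h1
    refine ih _ _ (lt_of_le_of_lt Nat.and_le_left hlt) h2 (s.erase p)
      (hs.subset (erase_subset _ _))
      (by rw [card_erase_of_mem hp]; omega) (fun q hq => hn q (mem_of_mem_erase hq))
      (fun q hq => ?_) b0 ?_ halt1
    · have hq' := mem_of_mem_erase hq
      change (c &&& NB (code p)).testBit (code q) = true
      rw [Nat.testBit_and, hc q hq', hNB, B.agree_bit hag hs hp hq' (htop q hq) (hn p hp)]
      rfl
    · rcases Nat.eq_zero_or_pos m with hm | hm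
      · exact Or.inl hm
      · right
        obtain ⟨m', rfl⟩ : ∃ m', m = m' + 1 := ⟨m - 1, by omega⟩
        rw [hb', Nat.add_sub_cancel]
        rcases Nat.even_or_odd m' with h2 | h2
        · have h3 : Odd (m' + 1) := h2.add_one
          have h4 : ¬ Odd m' := Nat.not_odd_iff_even.mpr h2
          simp [h3, h4]
        · have h3 : ¬ Odd (m' + 1) := Nat.not_odd_iff_even.mpr h2.add_one
          simp [h3, h2]

/-- the clause theorem with abstract hypotheses -/
theorem Base.clause_of (B : Base) (hsz : B.sizeOk = true) {N : ℕ} (hN : B.n ≤ N)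
    (a : Fin N → Fin N → Bool)
    (henum : ∀ s : Finset (Fin N × Bool), CohS a s → s.card = B.k + 1 →
      (∀ p ∈ s, p.1.1 < B.n) →
      ∃ j, j < B.L ∧ ∀ p ∈ s, (B.li (code p)).testBit j = true)
    (hnoalt : ∀ s : Finset (Fin N × Bool), CohS a s → s.card = B.k + 2 →
      (∀ p ∈ s, p.1.1 < B.n) → ∀ b : Bool, ¬ altp b s)
    (hS : ∀ u v : Fin N, B.n ≤ u.1 → B.n ≤ v.1 → u ≠ v → a u v = false)
    (hP : P a (B.k + 1) univ) {e : ℕ} (he : B.Valid e) :
    ∃ t : Fin N, B.n ≤ t.1 ∧ ∃ j, e.testBit j = true ∧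
      B.Covers (fun w => if h : w < N then a t ⟨w, h⟩ else false) j := by
  classical
  set S : Finset (Fin N) := univ.filter fun u => B.n ≤ u.1 with hSdef
  have hmemS : ∀ u : Fin N, u ∈ S ↔ B.n ≤ u.1 := by intro u; simp [hSdef]
  have hlow : ∀ r : Finset (Fin N × Bool), pr r ⊆ univ \ S → ∀ p ∈ r, p.1.1 < B.n := by
    intro r hr p hp
    have h1 := hr (mem_pr hp)
    rw [mem_sdiff, hmemS] at h1
    omega
  have hsgn : IsSgn a (fun _ => false) S := by
    intro u hu v hv huv
    rw [hS u v ((hmemS u).mp hu) ((hmemS v).mp hv) huv]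
    rfl
  have hno : ∀ s, CohS a s → s.card = B.k + 2 → pr s ⊆ univ \ S →
      ¬ altp true s ∧ ¬ altp false s := fun s hs hcard hpr =>
    ⟨hnoalt s hs hcard (hlow s hpr) true, hnoalt s hs hcard (hlow s hpr) false⟩
  obtain ⟨ψ, hψ⟩ := he.exists_psi (a := a) hN
  obtain ⟨r, hr1, hr2, hr3, ⟨x, hx, hxr⟩, hr5⟩ := hP.covered hsgn hno ψ
  have hl := hlow r hr3
  obtain ⟨j, hjL, hjr⟩ := henum r hr1 hr2 hl
  have hlit := B.lit_of hsz hjL hr2 hl hjr
  have hej : e.testBit j = true := by
    have h1 := hψ j r hlit hr1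
    rw [hr5] at h1
    by_contra h2
    rw [if_neg h2] at h1
    exact one_ne_zero h1
  rw [mem_lift] at hx
  refine ⟨x.1, (hmemS _).mp hx.1, j, hej, ?_⟩
  intro w hw s hs
  have hwN : w < N := by omega
  have h1 : ((⟨w, hwN⟩, s) : Fin N × Bool) ∈ r := (hlit.bit' (u := ⟨w, hwN⟩) hw s).mp hs
  simp only [dif_pos hwN]
  have hne : x.1 ≠ (⟨w, hwN⟩ : Fin N) := by
    intro he
    have h2 := (hmemS _).mp hx.1
    rw [he] at h2
    change B.n ≤ w at h2
    omega
  have h2 := (hxr x (mem_insert_self _ _) _ (mem_insert_of_mem h1)).2 hne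
  change a x.1 ⟨w, hwN⟩ = xor x.2 s at h2
  rw [h2, hx.2]
  cases s <;> rfl

/-- **The clause theorem** with the fast checks. -/
theorem Base.clauseF (B : Base) (hB : B.okF = true) {N : ℕ} (hN : B.n ≤ N)
    (a : Fin N → Fin N → Bool) (ha : ∀ u v, a u v = a v u) (hag : B.Agree a)
    (hS : ∀ u v : Fin N, B.n ≤ u.1 → B.n ≤ v.1 → u ≠ v → a u v = false)
    (hP : P a (B.k + 1) univ) {e : ℕ} (he : B.Valid e) :
    ∃ t : Fin N, B.n ≤ t.1 ∧ ∃ j, e.testBit j = true ∧
      B.Covers (fun w => if h : w < N then a t ⟨w, h⟩ else false) j := by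
  simp only [Base.okF, sq_eq, Bool.and_eq_true, Nat.ble_eq] at hB
  obtain ⟨hsz, hle, henum, hna1, hna0⟩ := hB
  have hle' : 2 * B.n ≤ 36 := hle
  have hones : ones (Nat.mul 2 B.n) = Nat.pow 4 B.n - 1 := by
    change 2 ^ (2 * B.n) - 1 = 4 ^ B.n - 1
    rw [pow_mul]
    norm_num
  have hlt : ones (Nat.mul 2 B.n) < 2 ^ 36 := by
    change 2 ^ (2 * B.n) - 1 < 2 ^ 36
    have h1 : 2 ^ (2 * B.n) ≤ 2 ^ 36 := Nat.pow_le_pow_right (by norm_num) hle'
    have h2 : 0 < 2 ^ (2 * B.n) := by positivity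
    omega
  have hm0 : Nat.div (ones (Nat.mul 2 B.n)) 3 = B.smask false := by
    rw [hones]
    change (4 ^ B.n - 1) / 3 = 1 * ((4 ^ B.n - 1) / 3)
    rw [one_mul]
  have hm1 : Nat.mul 2 (Nat.div (ones (Nat.mul 2 B.n)) 3) = B.smask true := by
    rw [hones]
    rfl
  have hNB : ∀ x, fl B.N (Nat.mul 2 B.n) (ones (Nat.mul 2 B.n)) x = B.nb x :=
    fun x => fl_eq_fld _ _ _
  have hLI : ∀ x, fl B.I B.L (ones B.L) x = B.li x := fun x => fl_eq_fld _ _ _
  have hb : ∀ s : Finset (Fin N × Bool), (∀ p ∈ s, p.1.1 < B.n) →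
      ∀ p ∈ s, (ones (Nat.mul 2 B.n)).testBit (code p) = true := by
    intro s hs p hp
    rw [hones]
    exact four_pow_testBit (code_lt_two_mul (hs p hp))
  rw [hm1, hm0] at hna1 hna0
  refine B.clause_of hsz hN a ?_ ?_ hS hP he
  · intro s hs hcard hn
    obtain ⟨j, hj, hjr⟩ := enumF_spec hNB hag _ _ _ hlt henum s hs hcard hn (hb s hn)
    refine ⟨j, ?_, fun p hp => ?_⟩
    · have hj' : (2 ^ B.L - 1).testBit j = true := hj
      rw [Nat.testBit_two_pow_sub_one] at hj'
      exact of_decide_eq_true hj'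
    · rw [← hLI]; exact hjr p hp
  · intro s hs hcard hn b
    rcases hh : xor b (decide (Odd (B.k + 2 - 1))) with _ | _
    · exact noaltF_spec hNB hag (B.k + 2) false _ hlt hna0 s hs hcard hn (hb s hn) b
        (Or.inr hh.symm)
    · exact noaltF_spec hNB hag (B.k + 2) true _ hlt hna1 s hs hcard hn (hb s hn) b
        (Or.inr hh.symm)

end Pool.Agent.RP5S
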