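import Pool.Agent.RP5S.Check
import Pool.Agent.RP5.Assemble

/-!
# Assembly of the two levels of the search
-/

set_option autoImplicit false

open Finset

namespace Pool.Agent.RP5S

open Pool.Agent.RP5

/-- a target is dead if it is dead with both values at a new pair -/
theorem Dead.split {NX : ℕ} (u v : Fin 17) (huv : v < u)
    (h0 : Dead (NX ||| 2 ^ (34 * u.1 + 2 * v.1))) (h1 : Dead (NX ||| 2 ^ (34 * u.1 + 2 * v.1 + 1))) :
    Dead NX := by
  intro a ha hr hS
  rcases hb : a ⟨u.1, by omega⟩ ⟨v.1, by omega⟩ with _ | _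
  · refine h1 a ha ?_ hS
    intro x y hx hy t ht
    rw [Nat.testBit_or, Bool.or_eq_true] at ht
    rcases ht with ht | ht
    · exact hr x y hx hy t ht
    · rw [Nat.testBit_two_pow] at ht
      have ht' := of_decide_eq_true ht
      have h2 : t.toNat < 2 := by cases t <;> decide
      have h3 := u.2
      have h4 := v.2
      have hxu : x.1 = u.1 := by omega
      have hyv : y.1 = v.1 := by omega
      have ht1 : t.toNat = 1 := by omega
      have e1 : x = ⟨u.1, by omega⟩ := Fin.ext hxu
      have e2 : y = ⟨v.1, by omega⟩ := Fin.ext hyv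
      rw [e1, e2, hb]
      cases t
      · exact absurd ht1 (by decide)
      · decide
  · refine h0 a ha ?_ hS
    intro x y hx hy t ht
    rw [Nat.testBit_or, Bool.or_eq_true] at ht
    rcases ht with ht | ht
    · exact hr x y hx hy t ht
    · rw [Nat.testBit_two_pow] at ht
      have ht' := of_decide_eq_true ht
      have h2 : t.toNat < 2 := by cases t <;> decide
      have h3 := u.2
      have h4 := v.2
      have hxu : x.1 = u.1 := by omega
      have hyv : y.1 = v.1 := by omega
      have ht1 : t.toNat = 0 := by omega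
      have e1 : x = ⟨u.1, by omega⟩ := Fin.ext hxu
      have e2 : y = ⟨v.1, by omega⟩ := Fin.ext hyv
      rw [e1, e2, hb]
      cases t
      · decide
      · exact absurd ht1 (by decide)

/-- the extension of a permutation of the first 17 points -/
def extPerm (π : Equiv.Perm (Fin 17)) : Equiv.Perm (Fin 23) where
  toFun u := if h : u.1 < 17 then (π ⟨u.1, h⟩).castLE (by omega) else u
  invFun u := if h : u.1 < 17 then (π.symm ⟨u.1, h⟩).castLE (by omega) else u
  left_inv u := by
    by_cases h : u.1 < 17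
    · have h2 : ((π ⟨u.1, h⟩).castLE (by omega : 17 ≤ 23)).1 < 17 := (π ⟨u.1, h⟩).2
      simp only [h, dif_pos, h2]
      ext
      simp
    · simp [h]
  right_inv u := by
    by_cases h : u.1 < 17
    · have h2 : ((π.symm ⟨u.1, h⟩).castLE (by omega : 17 ≤ 23)).1 < 17 := (π.symm ⟨u.1, h⟩).2
      simp only [h, dif_pos, h2]
      ext
      simp
    · simp [h]

theorem extPerm_lt (π : Equiv.Perm (Fin 17)) (u : Fin 23) (h : u.1 < 17) :
    extPerm π u = (π ⟨u.1, h⟩).castLE (by omega) := dif_pos h

theorem extPerm_ge (π : Equiv.Perm (Fin 17)) (u : Fin 23) (h : 17 ≤ u.1) :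
    extPerm π u = u := dif_neg (by omega)

/-- the assembly -/
theorem noNormal_of (nt TG : ℕ) (hB : ∀ j, LevelB nt TG j)
    (hD : ∀ t < nt, Dead (fl TG 578 (ones 578) t)) : NoNormal := by
  intro a ha j h1 h2 h3 hP
  let f : Fin 17 ↪ Fin 23 := ⟨Fin.castLE (by omega), Fin.castLE_injective _⟩
  let a17 : Fin 17 → Fin 17 → Bool := pullA f (fun _ => false) a
  have e17 : ∀ u v, a17 u v = a (u.castLE (by omega)) (v.castLE (by omega)) := fun u v => by
    simp [a17, pullA, f]
  have ha17 : ∀ u v, a17 u v = a17 v u := pullA_symm ha _ _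
  let S : Finset (Fin 23) := univ.filter fun u => 17 ≤ u.1
  have hmS : ∀ u, u ∈ S ↔ 17 ≤ u.1 := fun u => by simp [S]
  have hS : Coh a S := by
    intro u hu v hv w hw huv hvw huw
    rw [hmS] at hu hv hw
    rw [h3 u v hu hv huv, h3 v w hv hw hvw, h3 u w hu hw huw]
    decide
  have hP17 : P a17 4 univ := by
    have h4 : P a 4 (univ \ S) := hP.step ha hS
    refine P.pull h4 f _ fun v hv => ?_
    rw [mem_sdiff, hmS] at hv
    exact ⟨⟨v.1, by omega⟩, Fin.ext rfl⟩
  obtain ⟨t, ht, π, δ, hE⟩ := hB j a17 ha17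
    (fun u v huv => by
      rw [e17]
      exact h1 u v huv)
    (fun u v hu hv huv => by
      rw [e17]
      refine h2 _ _ hu u.2 hv v.2 fun h => huv ?_
      exact Fin.castLE_injective _ h) hP17
  let δ' : Fin 23 → Bool := fun u => if h : u.1 < 17 then δ ⟨u.1, h⟩ else false
  let b : Fin 23 → Fin 23 → Bool := pullA (extPerm π).toEmbedding δ' a
  have hb : ∀ u v, b u v = b v u := pullA_symm ha _ _
  have hPb : P b 5 univ := P.pull hP (extPerm π).toEmbedding δ' fun v _ =>
    ⟨(extPerm π).symm v, by simp⟩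
  refine hD t ht b hb ?_ ?_ hPb
  · intro u v hu hv s hs
    have hv17 : v.1 < 17 := by omega
    have h5 := hE ⟨u.1, hu⟩ ⟨v.1, hv17⟩ hv s hs
    have h6 : b u v = xor (a17 (π ⟨u.1, hu⟩) (π ⟨v.1, hv17⟩))
        (xor (δ ⟨u.1, hu⟩) (δ ⟨v.1, hv17⟩)) := by
      change xor (a (extPerm π u) (extPerm π v)) (xor (δ' u) (δ' v)) = _
      rw [extPerm_lt π u hu, extPerm_lt π v hv17, e17]
      simp only [δ', dif_pos hu, dif_pos hv17]
    rw [h6]
    exact h5
  · intro u v hu hv huv
    change xor (a (extPerm π u) (extPerm π v)) (xor (δ' u) (δ' v)) = _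
    rw [extPerm_ge π u hu, extPerm_ge π v hv, h3 u v hu hv huv]
    simp only [δ', dif_neg (by omega : ¬ u.1 < 17), dif_neg (by omega : ¬ v.1 < 17)]
    decide

end Pool.Agent.RP5S
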