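import Pool.Agent.RP5S.Check
import Pool.Agent.RP5S.FastSem

/-!
# Soundness of the checks: clauses and leaves
-/

set_option autoImplicit false

namespace Pool.Agent.RP5S

open Finset Pool.Agent.RP5

/-! ### the clauses -/

theorem Base.xorRidges_sound (B : Base) (k : ℕ → ℕ → Bool) : ∀ (r str acc : ℕ), B.Valid acc →
    B.xorRidges k r str acc = true → ∃ str' acc', B.Valid acc' ∧ k str' acc' = true := by
  intro r
  induction r with
  | zero => intro str acc hv h; exact ⟨str, acc, hv, h⟩
  | succ r ih =>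
    intro str acc hv h
    simp only [Base.xorRidges, sq_eq] at h
    exact ih _ _ (Base.Valid.xor _ _ hv) h

theorem cond_false_eq_true {c x : Bool} (h : (bif c then x else false) = true) :
    c = true ∧ x = true := by
  cases c <;> simp_all

theorem SBase.clausesAux_sound (B : SBase) : ∀ (r e str : ℕ),
    B.clausesAux B.altMask r e str = true →
    (∀ p < e, B.Valid (fl B.CT B.M (ones B.M) p)) →
    ∀ p < e + r, B.Valid (fl B.CT B.M (ones B.M) p) := by
  intro r
  induction r with
  | zero => intro e str _ h p hp; exact h p (by simpa using hp)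
  | succ r ih =>
    intro e str h hv p hp
    simp only [SBase.clausesAux, sq_eq] at h
    obtain ⟨h1, h2⟩ := cond_false_eq_true h
    have hacc : B.Valid (bif Nat.beq (Nat.land str 4095) 4095 then B.altMask
        else fl B.CT B.M (ones B.M) (Nat.land str 4095)) := by
      rcases hh : Nat.beq (Nat.land str 4095) 4095 with _ | _
      · rw [hh, Bool.false_or, Nat.blt_eq] at h1
        exact hv _ h1
      · exact Base.Valid.alt
    obtain ⟨str', acc', hv', hk⟩ := B.xorRidges_sound _ _ _ _ hacc h2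
    obtain ⟨h3, h4⟩ := cond_false_eq_true hk
    have h5 : acc' = fl B.CT B.M (ones B.M) e := Nat.eq_of_beq_eq_true h3
    refine ih (Nat.succ e) _ h4 (fun q hq => ?_) p (by omega)
    rcases Nat.lt_or_ge q e with h6 | h6
    · exact hv q h6
    · have : q = e := by omega
      rw [this, ← h5]
      exact hv'

/-- soundness of the clause check -/
theorem SBase.clauses_sound (B : SBase) {str : ℕ} (h : B.clauses str = true) :
    ∀ e < B.nc, B.Valid (fl B.CT B.M (ones B.M) e) := by
  simp only [SBase.clauses, sq_eq] at h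
  intro e he
  exact B.clausesAux_sound _ _ _ h (fun p hp => absurd hp (Nat.not_lt_zero p)) e (by omega)

/-! ### leaves -/

namespace Leaf

theorem rec_eq (x y b : Bool) : @Bool.rec (fun _ => Bool) x y b = bif b then y else x := by
  cases b <;> rfl

theorem bitN_eq (x i : ℕ) : bitN x i = x.testBit i := by
  change Nat.beq ((x >>> i) &&& 1) 1 = _
  rw [Nat.and_one_is_mod, Nat.testBit_eq_decide_div_mod_eq, Nat.shiftRight_eq_div_pow]
  rcases Nat.mod_two_eq_zero_or_one (x / 2 ^ i) with h | h <;> rw [h] <;> rfl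

theorem ones_testBit (w i : ℕ) : (ones w).testBit i = decide (i < w) := by
  change (2 ^ w - 1).testBit i = _
  exact Nat.testBit_two_pow_sub_one w i

theorem used_testBit (A : ℕ) : ∀ (r X b : ℕ),
    (used A r X).testBit b = true ↔ X.testBit b = true ∨ ∃ u < r, tok A u / 2 = b := by
  intro r
  induction r with
  | zero => intro X b; simp [used]
  | succ r ih =>
    intro X b
    simp only [used, sq_eq]
    rw [ih]
    have h1 : (Nat.lor X (Nat.pow 2 (Nat.div (tok A r) 2))).testBit b = true ↔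
        X.testBit b = true ∨ tok A r / 2 = b := by
      change (X ||| 2 ^ (tok A r / 2)).testBit b = true ↔ _
      rw [Nat.testBit_or, Bool.or_eq_true, Nat.testBit_two_pow, decide_eq_true_iff]
    rw [h1]
    constructor
    · rintro ((h | h) | ⟨u, hu, h⟩)
      · exact Or.inl h
      · exact Or.inr ⟨r, Nat.lt_succ_self r, h⟩
      · exact Or.inr ⟨u, Nat.lt_succ_of_lt hu, h⟩
    · rintro (h | ⟨u, hu, h⟩)
      · exact Or.inl (Or.inl h)
      · rcases Nat.lt_succ_iff_lt_or_eq.mp hu with h2 | h2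
        · exact Or.inr ⟨u, h2, h⟩
        · subst h2; exact Or.inl (Or.inr h)

/-- the code of the vertex `v` with the sign changed by `t` -/
def tokx (A v : ℕ) (t : Bool) : ℕ := Nat.xor (tok A v) t.toNat

theorem pairs_sound {n2 N W M m S A TG o p : ℕ} : ∀ r : ℕ,
    pairs n2 N W M m S A TG o p r = true → ∀ v < r, ∀ t : Bool,
      TG.testBit (o + 2 * v + t.toNat) = true →
        inc n2 N W M m S p (tokx A v t) = true := by
  intro r
  induction r with
  | zero => intro _ v hv; exact absurd hv (Nat.not_lt_zero v)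
  | succ r ih =>
    intro h v hv t ht
    change @Bool.rec (fun _ => Bool) false (pairs n2 N W M m S A TG o p r)
      (sq (Nat.land (Nat.shiftRight TG (Nat.add o (Nat.mul 2 r))) 3) fun e =>
        @Bool.rec (fun _ => Bool)
          (@Bool.rec (fun _ => Bool)
            (@Bool.rec (fun _ => Bool) false
              (sq (Nat.xor (tok A r) 1) fun q => inc n2 N W M m S p q)
              (Nat.beq e 2))
            (sq (tok A r) fun q => inc n2 N W M m S p q)
            (Nat.beq e 1))
          true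
          (Nat.beq e 0)) = true at h
    simp only [sq_eq, rec_eq] at h
    obtain ⟨h1, h2⟩ := cond_false_eq_true h
    rcases Nat.lt_succ_iff_lt_or_eq.mp hv with h3 | h3
    · exact ih h2 v h3 t ht
    · subst h3
      -- the field
      have he0 : ∀ i, (Nat.land (Nat.shiftRight TG (Nat.add o (Nat.mul 2 v))) 3).testBit i =
          (TG.testBit (o + 2 * v + i) && decide (i < 2)) := by
        intro i
        change ((TG >>> (o + 2 * v)) &&& (2 ^ 2 - 1)).testBit i = _
        rw [Nat.testBit_and, Nat.testBit_shiftRight, Nat.testBit_two_pow_sub_one]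
      generalize Nat.land (Nat.shiftRight TG (Nat.add o (Nat.mul 2 v))) 3 = e at h1 he0
      have hbeq : ∀ c : ℕ, Nat.beq e c = true → e = c := fun c hc => Nat.eq_of_beq_eq_true hc
      have het : e.testBit t.toNat = true := by
        rw [he0, ht]
        cases t <;> rfl
      rcases hb0 : Nat.beq e 0 with _ | _
      · rw [hb0, cond_false] at h1
        rcases hb1 : Nat.beq e 1 with _ | _
        · rw [hb1, cond_false] at h1
          obtain ⟨h4, h5⟩ := cond_false_eq_true h1
          have he := hbeq 2 h4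
          rw [he] at het
          cases t
          · exact absurd het (by decide)
          · exact h5
        · rw [hb1, cond_true] at h1
          have he := hbeq 1 hb1
          rw [he] at het
          cases t
          · have : tokx A v false = tok A v := Nat.xor_zero _
            rw [this]
            exact h1
          · exact absurd het (by decide)
      · have he := hbeq 0 hb0
        rw [he] at het
        exact absurd het (by simp)

theorem main_sound {n2 N W M m S A TG o : ℕ} : ∀ r : ℕ,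
    main n2 N W M m S A TG o r = true → ∀ u < r, ∀ v < u, ∀ t : Bool,
      TG.testBit (o + (34 * u + 2 * v + t.toNat)) = true →
        inc n2 N W M m S (tok A u) (tokx A v t) = true := by
  intro r
  induction r with
  | zero => intro _ u hu; exact absurd hu (Nat.not_lt_zero u)
  | succ r ih =>
    intro h u hu v hv t ht
    change @Bool.rec (fun _ => Bool) false (main n2 N W M m S A TG o r)
      (sq (tok A r) fun p => sq (Nat.add o (Nat.mul 34 r)) fun o' =>
        pairs n2 N W M m S A TG o' p r) = true at h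
    simp only [sq_eq, rec_eq] at h
    obtain ⟨h1, h2⟩ := cond_false_eq_true h
    rcases Nat.lt_succ_iff_lt_or_eq.mp hu with h3 | h3
    · exact ih h2 u h3 v hv t ht
    · subst h3
      refine pairs_sound _ h1 v hv t ?_
      have : Nat.add o (Nat.mul 34 u) + 2 * v + t.toNat = o + (34 * u + 2 * v + t.toNat) := by
        change o + 34 * u + 2 * v + t.toNat = _
        ring
      rw [this]
      exact ht

/-- the meaning of an incompatible pair of codes; `g` maps the vertices of the state to the real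
vertices -/
theorem inc_sound (B : SBase) {N : ℕ} (hN : B.n + B.T = N) (a : Fin N → Fin N → Bool)
    (ha : ∀ u v, a u v = a v u) (hag : B.Agree a)
    (hS : ∀ u v : Fin N, B.n ≤ u.1 → B.n ≤ v.1 → u ≠ v → a u v = false) {m S : ℕ}
    (σ : Equiv.Perm (Fin B.T))
    (h1 : ∀ i : Fin B.T, i.1 < m →
      B.Fit (fun w => if h : w < N then a ⟨B.n + (σ i).1, by omega⟩ ⟨w, h⟩ else false)
        (S >>> (64 + (i.1 + 1) * (B.M + 2 * B.n))))
    (h2 : ∀ i : Fin B.T, m ≤ i.1 →
      B.Fit (fun w => if h : w < N then a ⟨B.n + (σ i).1, by omega⟩ ⟨w, h⟩ else false) (S >>> 64))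
    (g : Fin N → Fin N) (hg : Function.Injective g)
    (hg1 : ∀ w : Fin N, w.1 < B.n → g w = w)
    (hg2 : ∀ i : Fin B.T, g ⟨B.n + i.1, by omega⟩ = ⟨B.n + (σ i).1, by omega⟩)
    {p q : ℕ} (hp : p / 2 < N) (hq : q / 2 < N) (hpq : p / 2 ≠ q / 2)
    (h : inc (2 * B.n) B.N (B.M + 2 * B.n) B.M m S p q = true) :
    a (g ⟨p / 2, hp⟩) (g ⟨q / 2, hq⟩) ≠ xor (decide (p % 2 = 1)) (decide (q % 2 = 1)) := by
  -- rows
  have hrow : ∀ (i x : ℕ) (hi : i < B.T) (hx : x / 2 < B.n),
      rowx (B.M + 2 * B.n) B.M m S i x = true →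
      a (g ⟨B.n + i, by omega⟩) (g ⟨x / 2, by omega⟩) ≠ decide (x % 2 = 1) := by
    intro i x hi hx hr
    have hfit : ∀ R, R.testBit (B.M + x) = true →
        B.Fit (fun w => if h : w < N then a ⟨B.n + (σ ⟨i, hi⟩).1, by omega⟩ ⟨w, h⟩ else false) R →
        a (g ⟨B.n + i, by omega⟩) (g ⟨x / 2, by omega⟩) ≠ decide (x % 2 = 1) := by
      intro R hR hF
      rcases hF _ (by omega) hR with h3 | h3
      · exact absurd h3.1 (by omega)
      · have h4 := h3.2
        have e1 : B.M + x - B.M = x := by omega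
        rw [e1] at h4
        change (if h : x / 2 < N then a ⟨B.n + (σ ⟨i, hi⟩).1, by omega⟩ ⟨x / 2, h⟩ else false) ≠
          decide (x % 2 = 1) at h4
        rw [dif_pos (by omega : x / 2 < N)] at h4
        rw [hg2 ⟨i, hi⟩, hg1 ⟨x / 2, by omega⟩ hx]
        exact h4
    unfold rowx at hr
    rw [rec_eq, bitN_eq, bitN_eq] at hr
    rcases hm : Nat.blt i m with _ | _
    · rw [hm, cond_false] at hr
      have hmi : m ≤ i := by
        by_contra h5
        rw [Nat.blt_eq.mpr (by omega)] at hm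
        exact absurd hm (by simp)
      refine hfit (S >>> 64) ?_ (h2 ⟨i, hi⟩ hmi)
      rw [Nat.testBit_shiftRight]
      exact hr
    · rw [hm, cond_true] at hr
      rw [Nat.blt_eq] at hm
      refine hfit _ ?_ (h1 ⟨i, hi⟩ hm)
      rw [Nat.testBit_shiftRight]
      exact hr
  -- base pairs
  have hbase : ∀ (p q : ℕ) (hp : p / 2 < B.n) (hq : q / 2 < p / 2),
      @Bool.rec (fun _ => Bool) true false (bitN B.N (Nat.add (Nat.mul p (2 * B.n)) q)) = true →
      a ⟨p / 2, by omega⟩ ⟨q / 2, by omega⟩ ≠ xor (decide (p % 2 = 1)) (decide (q % 2 = 1)) := by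
    intro p q hp hq hf he
    have h3 := hag ⟨p / 2, by omega⟩ ⟨q / 2, by omega⟩ hp hq _ _ he
    have e1 : ∀ x : ℕ, 2 * (x / 2) + (decide (x % 2 = 1)).toNat = x := by
      intro x
      rcases Nat.mod_two_eq_zero_or_one x with h4 | h4
      · rw [h4]; simp; omega
      · rw [h4]; simp; omega
    simp only [e1] at h3
    change ((B.N >>> (p * (2 * B.n))) % 2 ^ (2 * B.n)).testBit q = true at h3
    rw [Nat.testBit_mod_two_pow, Nat.testBit_shiftRight, Bool.and_eq_true] at h3
    have h5 : bitN B.N (Nat.add (Nat.mul p (2 * B.n)) q) = true := by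
      rw [bitN_eq]
      exact h3.2
    rw [h5] at hf
    exact Bool.false_ne_true hf
  have hxor2 : ∀ x y : ℕ, Nat.xor x (y % 2) / 2 = x / 2 := by
    intro x y
    change (x ^^^ (y % 2)) / 2 = x / 2
    rw [Nat.xor_div_two]
    have : y % 2 / 2 = 0 := by omega
    rw [this, Nat.xor_zero]
  have hxorm : ∀ x y : ℕ, decide (Nat.xor x (y % 2) % 2 = 1) =
      xor (decide (x % 2 = 1)) (decide (y % 2 = 1)) := by
    intro x y
    have h3 : (x ^^^ (y % 2)) % 2 = 1 ↔ ¬(x % 2 = 1 ↔ y % 2 % 2 = 1) := Nat.xor_mod_two_eq_one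
    change decide ((x ^^^ (y % 2)) % 2 = 1) = _
    rw [Nat.mod_mod] at h3
    rw [Bool.eq_iff_iff, decide_eq_true_iff, h3]
    by_cases h4 : x % 2 = 1 <;> by_cases h5 : y % 2 = 1 <;> simp [h4, h5]
  have blt_f : ∀ x y : ℕ, Nat.blt x y = false → y ≤ x := by
    intro x y hxy
    by_contra h5
    rw [Nat.blt_eq.mpr (by omega)] at hxy
    exact absurd hxy (by simp)
  unfold inc at h
  rcases hp2 : Nat.blt p (2 * B.n) with _ | _
  · have hp3 := blt_f _ _ hp2
    rw [hp2] at h
    rcases hq2 : Nat.blt q (2 * B.n) with _ | _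
    · have hq3 := blt_f _ _ hq2
      rw [hq2] at h
      change bitN (Nat.xor p q) 0 = true at h
      rw [bitN_eq] at h
      change (p ^^^ q).testBit 0 = true at h
      rw [Nat.testBit_xor, Nat.testBit_zero, Nat.testBit_zero] at h
      change xor (decide (p % 2 = 1)) (decide (q % 2 = 1)) = true at h
      rw [h]
      have e1 : g ⟨p / 2, hp⟩ = ⟨B.n + (σ ⟨p / 2 - B.n, by omega⟩).1, by omega⟩ := by
        rw [← hg2]
        congr 1
        refine Fin.ext ?_
        change p / 2 = B.n + (p / 2 - B.n)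
        omega
      have e2 : g ⟨q / 2, hq⟩ = ⟨B.n + (σ ⟨q / 2 - B.n, by omega⟩).1, by omega⟩ := by
        rw [← hg2]
        congr 1
        refine Fin.ext ?_
        change q / 2 = B.n + (q / 2 - B.n)
        omega
      rw [hS _ _ (by rw [e1]; exact Nat.le_add_right _ _) (by rw [e2]; exact Nat.le_add_right _ _)]
      · exact Bool.false_ne_true
      · intro he
        have := hg he
        rw [Fin.mk.injEq] at this
        exact hpq this
    · rw [hq2] at h
      rw [Nat.blt_eq] at hq2
      have h3 := hrow ((p - 2 * B.n) / 2) (Nat.xor q (p % 2)) (by omega)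
        (by rw [hxor2]; omega) h
      rw [hxorm] at h3
      simp only [hxor2] at h3
      have e1 : (⟨B.n + (p - 2 * B.n) / 2, by omega⟩ : Fin N) = ⟨p / 2, hp⟩ :=
        Fin.ext (by change B.n + (p - 2 * B.n) / 2 = p / 2; omega)
      rw [e1] at h3
      rw [Bool.xor_comm]
      exact h3
  · rw [hp2] at h
    rw [Nat.blt_eq] at hp2
    rcases hq2 : Nat.blt q (2 * B.n) with _ | _
    · have hq3 := blt_f _ _ hq2
      rw [hq2] at h
      have h3 := hrow ((q - 2 * B.n) / 2) (Nat.xor p (q % 2)) (by omega)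
        (by rw [hxor2]; omega) h
      rw [hxorm] at h3
      simp only [hxor2] at h3
      have e1 : (⟨B.n + (q - 2 * B.n) / 2, by omega⟩ : Fin N) = ⟨q / 2, hq⟩ :=
        Fin.ext (by change B.n + (q - 2 * B.n) / 2 = q / 2; omega)
      rw [e1] at h3
      rw [ha]
      exact h3
    · rw [hq2] at h
      rw [Nat.blt_eq] at hq2
      rw [hg1 ⟨p / 2, hp⟩ (by change p / 2 < B.n; omega),
        hg1 ⟨q / 2, hq⟩ (by change q / 2 < B.n; omega)]
      rcases hqp : Nat.blt q p with _ | _
      · have hqp3 := blt_f _ _ hqp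
        rw [hqp] at h
        rw [ha, Bool.xor_comm]
        exact hbase q p (by omega) (by omega) h
      · rw [hqp] at h
        rw [Nat.blt_eq] at hqp
        exact hbase p q (by omega) (by omega) h

/-- the extension of a permutation of the rows to all vertices -/
def ext {n T N : ℕ} (hN : n + T = N) (σ : Equiv.Perm (Fin T)) (w : Fin N) : Fin N :=
  if hw : w.1 < n then w else ⟨n + (σ ⟨w.1 - n, by omega⟩).1, by omega⟩

theorem ext_low {n T N : ℕ} (hN : n + T = N) (σ : Equiv.Perm (Fin T)) (w : Fin N)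
    (hw : w.1 < n) : ext hN σ w = w := dif_pos hw

theorem ext_high {n T N : ℕ} (hN : n + T = N) (σ : Equiv.Perm (Fin T)) (i : Fin T) :
    ext hN σ ⟨n + i.1, by omega⟩ = ⟨n + (σ i).1, by omega⟩ := by
  unfold ext
  rw [dif_neg (by simp)]
  refine Fin.ext ?_
  change n + (σ ⟨n + i.1 - n, _⟩).1 = n + (σ i).1
  congr 3
  refine Fin.ext ?_
  change n + i.1 - n = i.1
  omega

theorem ext_injective {n T N : ℕ} (hN : n + T = N) (σ : Equiv.Perm (Fin T)) :
    Function.Injective (ext hN σ) := by
  intro w w' hww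
  unfold ext at hww
  by_cases hw : w.1 < n
  · by_cases hw' : w'.1 < n
    · rwa [dif_pos hw, dif_pos hw'] at hww
    · exfalso
      rw [dif_pos hw, dif_neg hw'] at hww
      rw [hww] at hw
      simp at hw
  · by_cases hw' : w'.1 < n
    · exfalso
      rw [dif_neg hw, dif_pos hw'] at hww
      rw [← hww] at hw'
      simp at hw'
    · rw [dif_neg hw, dif_neg hw', Fin.mk.injEq] at hww
      have h6 := σ.injective (Fin.ext (Nat.add_left_cancel hww))
      rw [Fin.mk.injEq] at h6
      exact Fin.ext (by omega)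

/-- leaf soundness, general form -/
theorem core (B : SBase) {N : ℕ} (hN : B.n + B.T = N)
    (a : Fin N → Fin N → Bool)
    (ha : ∀ u v, a u v = a v u) (hag : B.Agree a)
    (hS : ∀ u v : Fin N, B.n ≤ u.1 → B.n ≤ v.1 → u ≠ v → a u v = false)
    (A m S TG o : ℕ) (hused : used A N 0 = ones N)
    (h4 : main (2 * B.n) B.N (B.M + 2 * B.n) B.M m S A TG o N = true)
    (hs : B.Sat (fun i w => if h : w < N ∧ B.n + i.1 < N then
      a ⟨B.n + i.1, h.2⟩ ⟨w, h.1⟩ else false) m S) :
    ∃ π : Equiv.Perm (Fin N), ∃ δ : Fin N → Bool, ∀ u v : Fin N, v < u → ∀ t : Bool,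
      TG.testBit (o + (34 * u.1 + 2 * v.1 + t.toNat)) = true →
        xor (a (π u) (π v)) (xor (δ u) (δ v)) ≠ t := by
  have hlt : ∀ u : Fin N, tok A u.1 / 2 < N := by
    intro u
    have h5 := (used_testBit A N 0 (tok A u.1 / 2)).mpr (Or.inr ⟨u.1, u.2, rfl⟩)
    rw [hused, ones_testBit] at h5
    exact of_decide_eq_true h5
  have hsurj : Function.Surjective (fun u : Fin N => (⟨tok A u.1 / 2, hlt u⟩ : Fin N)) := by
    intro b
    have h5 : (used A N 0).testBit b.1 = true := by
      rw [hused, ones_testBit]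
      exact decide_eq_true b.2
    rw [used_testBit] at h5
    rcases h5 with h5 | ⟨u, hu, h5⟩
    · simp at h5
    · exact ⟨⟨u, hu⟩, Fin.ext h5⟩
  have hbij := Finite.surjective_iff_bijective.mp hsurj
  obtain ⟨_, _, σ, hσ1, hσ2⟩ := hs
  have hgi := ext_injective hN σ
  have hrw : ∀ (i : Fin B.T) (R : ℕ),
      B.Fit ((fun (i : Fin B.T) (w : ℕ) => if h : w < N ∧ B.n + i.1 < N then
        a ⟨B.n + i.1, h.2⟩ ⟨w, h.1⟩ else false) i) R →
      B.Fit (fun w => if h : w < N then a ⟨B.n + i.1, by omega⟩ ⟨w, h⟩ else false) R := by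
    intro i R h
    have e : (fun w => if h : w < N then a ⟨B.n + i.1, by omega⟩ ⟨w, h⟩ else false) =
        (fun (i : Fin B.T) (w : ℕ) => if h : w < N ∧ B.n + i.1 < N then
          a ⟨B.n + i.1, h.2⟩ ⟨w, h.1⟩ else false) i := by
      funext w
      by_cases hw : w < N
      · have h7 : w < N ∧ B.n + i.1 < N := ⟨hw, by omega⟩
        simp only [dif_pos hw, dif_pos h7]
      · have h7 : ¬ (w < N ∧ B.n + i.1 < N) := fun h => hw h.1
        simp only [dif_neg hw, dif_neg h7]
    rw [e]
    exact h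
  have hinc := fun (p q : ℕ) (hp : p / 2 < N) (hq : q / 2 < N) (hpq : p / 2 ≠ q / 2) h =>
    inc_sound B hN a ha hag hS σ (fun i hi => hrw (σ i) _ (hσ1 i hi))
      (fun i hi => hrw (σ i) _ (hσ2 i hi)) (ext hN σ) hgi (ext_low hN σ)
      (ext_high hN σ) (p := p) (q := q) hp hq hpq h
  refine ⟨(Equiv.ofBijective _ hbij).trans
    (Equiv.ofBijective _ (Finite.injective_iff_bijective.mp hgi)),
    fun u => decide (tok A u.1 % 2 = 1), ?_⟩
  intro u v hvu t ht
  have h5 := main_sound N h4 u.1 u.2 v.1 hvu t ht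
  have htn := Bool.toNat_le t
  have e3 : tokx A v.1 t / 2 = tok A v.1 / 2 := by
    change (tok A v.1 ^^^ t.toNat) / 2 = _
    rw [Nat.xor_div_two]
    have : t.toNat / 2 = 0 := by omega
    rw [this, Nat.xor_zero]
  have hne : tok A u.1 / 2 ≠ tokx A v.1 t / 2 := by
    rw [e3]
    intro he
    have := hbij.1 (a₁ := u) (a₂ := v) (Fin.ext he)
    rw [this] at hvu
    exact lt_irrefl _ hvu
  have h6 := hinc _ _ (hlt u) (by rw [e3]; exact hlt v) hne h5
  simp only [e3] at h6
  change xor (a (ext hN σ ⟨tok A u.1 / 2, hlt u⟩)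
    (ext hN σ ⟨tok A v.1 / 2, hlt v⟩))
    (xor (decide (tok A u.1 % 2 = 1)) (decide (tok A v.1 % 2 = 1))) ≠ t
  have e4 : decide (tokx A v.1 t % 2 = 1) = xor (decide (tok A v.1 % 2 = 1)) t := by
    have h3 : (tok A v.1 ^^^ t.toNat) % 2 = 1 ↔
        ¬(tok A v.1 % 2 = 1 ↔ t.toNat % 2 = 1) := Nat.xor_mod_two_eq_one
    change decide ((tok A v.1 ^^^ t.toNat) % 2 = 1) = _
    rw [Bool.eq_iff_iff, decide_eq_true_iff, h3]
    by_cases h4 : tok A v.1 % 2 = 1 <;> cases t <;> simp [h4]
  rw [e4] at h6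
  have key : ∀ x y z t : Bool, x ≠ xor y (xor z t) → xor x (xor y z) ≠ t := by decide
  exact key _ _ _ _ h6

/-- leaf soundness -/
theorem leaf_sound (B : SBase) (hN : B.n + B.T = 17) (a : Fin 17 → Fin 17 → Bool)
    (ha : ∀ u v, a u v = a v u) (hag : B.Agree a)
    (hS : ∀ u v : Fin 17, B.n ≤ u.1 → B.n ≤ v.1 → u ≠ v → a u v = false)
    (nt TG A m S : ℕ) (h : Leaf.leaf B nt TG A m S = true)
    (hs : B.Sat (fun i w => if h : w < 17 ∧ B.n + i.1 < 17 then
      a ⟨B.n + i.1, h.2⟩ ⟨w, h.1⟩ else false) m S) :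
    ∃ t < nt, Emb17 (fl TG 578 (ones 578) t) a := by
  unfold Leaf.leaf at h
  simp only [sq_eq, Leaf.rec_eq] at h
  generalize Nat.lor (Nat.shiftLeft A 64) (Nat.land S (ones 64)) = A' at h
  generalize Nat.land (Nat.shiftRight A' 64) 4095 = j at h
  obtain ⟨h1, h2⟩ := cond_false_eq_true h
  obtain ⟨h3, h4⟩ := cond_false_eq_true h2
  rw [Nat.blt_eq] at h1
  obtain ⟨π, δ, hπ⟩ := Leaf.core B hN a ha hag hS A' m S TG _ (Nat.eq_of_beq_eq_true h3) h4 hs
  refine ⟨_, h1, π, δ, fun u v hvu t ht => hπ u v hvu t ?_⟩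
  have h5 : ((TG >>> (j * 578)) &&& ones 578).testBit
      (34 * u.1 + 2 * v.1 + t.toNat) = true := ht
  rw [Nat.testBit_and, Nat.testBit_shiftRight, Bool.and_eq_true] at h5
  have h6 : Nat.mul 578 j = j * 578 := Nat.mul_comm _ _
  rw [h6]
  exact h5.1

end Leaf

end Pool.Agent.RP5S
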