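import Pool.Agent.RP5S.Engine

/-!
# Leaves of the search: embeddings of partial structures

A target is a partial signed graph with 17 vertices, coded by a number `NX`: the bit
`34 u + 2 v + t` (for `v < u`) says that the value at the pair `u, v` must not be `t`.
-/

set_option autoImplicit false

noncomputable section

namespace Pool.Agent.RP5S

/-- the signed graph `a` contains the target `NX`, up to isomorphism and switching -/
def Emb17 (NX : ℕ) (a : Fin 17 → Fin 17 → Bool) : Prop :=
  ∃ π : Equiv.Perm (Fin 17), ∃ δ : Fin 17 → Bool, ∀ u v : Fin 17, v < u → ∀ t : Bool,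
    NX.testBit (34 * u.1 + 2 * v.1 + t.toNat) = true →
      xor (a (π u) (π v)) (xor (δ u) (δ v)) ≠ t

namespace Leaf

/-- bit number `i` of `x` -/
def bitN (x i : ℕ) : Bool := Nat.beq (Nat.land (Nat.shiftRight x i) 1) 1

/-- the row number `i` does not have the code `q` -/
def rowx (W M m S i q : ℕ) : Bool :=
  @Bool.rec (fun _ => Bool) (bitN S (Nat.add 64 (Nat.add M q)))
    (bitN S (Nat.add (ps W i) (Nat.add M q))) (Nat.blt i m)

/-- the codes `p` and `q` are not compatible; `n2` is twice the number of vertices of the base, the
code `n2 + 2 i + s` is the row number `i` with sign `s` -/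
def inc (n2 N W M m S p q : ℕ) : Bool :=
  @Bool.rec (fun _ => Bool)
    (@Bool.rec (fun _ => Bool)
      (bitN (Nat.xor p q) 0)
      (rowx W M m S (Nat.div (Nat.sub p n2) 2) (Nat.xor q (Nat.mod p 2)))
      (Nat.blt q n2))
    (@Bool.rec (fun _ => Bool)
      (rowx W M m S (Nat.div (Nat.sub q n2) 2) (Nat.xor p (Nat.mod q 2)))
      (@Bool.rec (fun _ => Bool)
        (@Bool.rec (fun _ => Bool) true false (bitN N (Nat.add (Nat.mul q n2) p)))
        (@Bool.rec (fun _ => Bool) true false (bitN N (Nat.add (Nat.mul p n2) q)))
        (Nat.blt q p))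
      (Nat.blt q n2))
    (Nat.blt p n2)

/-- the code assigned to the vertex `u` of the target; the first 64 bits of `A` have no meaning -/
def tok (A u : ℕ) : ℕ :=
  Nat.land (Nat.shiftRight A (Nat.add 64 (Nat.mul 12 (Nat.succ u)))) 4095

/-- the set of the vertices which are used -/
def used (A : ℕ) : ℕ → ℕ → ℕ
  | 0, X => X
  | u + 1, X => sq (Nat.lor X (Nat.pow 2 (Nat.div (tok A u) 2))) fun X' => used A u X'

/-- check the pairs `u, v` for `v < r`, where `p` is the code assigned to `u`, and the field of `u`
in the table `TG` begins at the bit `o` -/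
def pairs (n2 N W M m S A TG o p : ℕ) (r : ℕ) : Bool :=
  @Nat.rec (fun _ => Bool) true (fun v ih =>
    @Bool.rec (fun _ => Bool) false ih
      (sq (Nat.land (Nat.shiftRight TG (Nat.add o (Nat.mul 2 v))) 3) fun e =>
        @Bool.rec (fun _ => Bool)
          (@Bool.rec (fun _ => Bool)
            (@Bool.rec (fun _ => Bool) false
              (sq (Nat.xor (tok A v) 1) fun q => inc n2 N W M m S p q)
              (Nat.beq e 2))
            (sq (tok A v) fun q => inc n2 N W M m S p q)
            (Nat.beq e 1))
          true
          (Nat.beq e 0))) r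

/-- check the vertices `0, …, r - 1` of the target; its field in the table `TG` begins at the bit
`o` -/
def main (n2 N W M m S A TG o : ℕ) (r : ℕ) : Bool :=
  @Nat.rec (fun _ => Bool) true (fun u ih =>
    @Bool.rec (fun _ => Bool) false ih
      (sq (tok A u) fun p => sq (Nat.add o (Nat.mul 34 u)) fun o' =>
        pairs n2 N W M m S A TG o' p u)) r

/-- the state `(m, S)` contains the target whose number is the last field of `A`, the other
fields of `A` describe the embedding; `TG` is the table of the targets (fields of width 578) -/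
def leaf (B : SBase) (nt TG A m S : ℕ) : Bool :=
  sq (Nat.lor (Nat.shiftLeft A 64) (Nat.land S (ones 64))) fun A =>
  sq (Nat.land (Nat.shiftRight A 64) 4095) fun t =>
  @Bool.rec (fun _ => Bool) false
    (@Bool.rec (fun _ => Bool) false
      (sq (Nat.mul 2 B.n) fun n2 => sq B.N fun N => sq B.M fun M =>
        sq (Nat.add M n2) fun W => sq TG fun TG =>
        sq (Nat.mul 578 t) fun o => main n2 N W M m S A TG o 17)
      (Nat.beq (used A 17 0) (ones 17)))
    (Nat.blt t nt)

end Leaf

end Pool.Agent.RP5S
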