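import Pool.Agent.RP5S.Engine

/-!
# Soundness of the covering search
-/

set_option autoImplicit false

namespace Pool.Agent.RP5S

/-! ### bits of tables -/

theorem testBit_ones (w b : ℕ) : (ones w).testBit b = decide (b < w) := by
  show (2 ^ w - 1).testBit b = _
  rw [Nat.testBit_two_pow_sub_one]

theorem ones_lt (w : ℕ) : ones w < 2 ^ w := by
  show 2 ^ w - 1 < 2 ^ w
  have := Nat.two_pow_pos w
  omega

theorem fl_testBit' (T w m i b : ℕ) :
    (fl T w (ones m) i).testBit b = (T.testBit (i * w + b) && decide (b < m)) := by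
  show ((T >>> (i * w)) &&& ones m).testBit b = _
  rw [Nat.testBit_and, Nat.testBit_shiftRight, testBit_ones]

theorem fl_testBit (T w i b : ℕ) :
    (fl T w (ones w) i).testBit b = (T.testBit (i * w + b) && decide (b < w)) :=
  fl_testBit' T w w i b

theorem mkTab_testBit (w : ℕ) (f : ℕ → ℕ) : ∀ (n A j b : ℕ), b < w →
    (mkTab w (ones w) f n A).testBit (j * w + b) =
      (A.testBit (j * w + b) || (decide (j < n) && (f j).testBit b)) := by
  intro n
  induction n with
  | zero => intro A j b hb; simp [mkTab]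
  | succ n ih =>
    intro A j b hb
    simp only [mkTab, sq_eq]
    rw [ih _ j b hb]
    show ((A ||| ((f n &&& ones w) <<< (n * w))).testBit (j * w + b) || _) = _
    rw [Nat.testBit_or, Nat.testBit_shiftLeft, Nat.testBit_and, testBit_ones]
    rcases Nat.lt_trichotomy j n with h | h | h
    · have h1 : j * w + b < n * w := by
        have : (j + 1) * w ≤ n * w := Nat.mul_le_mul_right w h
        rw [Nat.add_mul] at this
        omega
      rw [decide_eq_false (by omega : ¬ j * w + b ≥ n * w), decide_eq_true h,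
        decide_eq_true (by omega : j < n + 1)]
      simp
    · subst h
      have h2 : j * w + b - j * w = b := by omega
      rw [decide_eq_true (by omega : j * w + b ≥ j * w), h2, decide_eq_true hb,
        decide_eq_false (by omega : ¬ j < j), decide_eq_true (by omega : j < j + 1)]
      simp
    · have h1 : n * w + w ≤ j * w := by
        have : (n + 1) * w ≤ j * w := Nat.mul_le_mul_right w h
        rw [Nat.add_mul] at this
        omega
      rw [decide_eq_false (by omega : ¬ j * w + b - n * w < w),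
        decide_eq_false (by omega : ¬ j < n), decide_eq_false (by omega : ¬ j < n + 1)]
      simp

theorem fl_mkTab (w : ℕ) (f : ℕ → ℕ) (n i b : ℕ) :
    (fl (mkTab w (ones w) f n 0) w (ones w) i).testBit b =
      (decide (b < w) && (decide (i < n) && (f i).testBit b)) := by
  rw [fl_testBit]
  by_cases hb : b < w
  · rw [mkTab_testBit w f n 0 i b hb]
    simp [hb]
  · simp [hb]

namespace SBase

variable (B : SBase)

theorem lm_testBit (x b : ℕ) :
    (B.lm x).testBit b = (B.I.testBit (x * B.L + b) && decide (b < B.M)) := by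
  unfold lm
  rw [fl_testBit']

theorem li_testBit (x b : ℕ) :
    (B.li x).testBit b = (decide (b < B.L) && B.I.testBit (x * B.L + b)) := by
  show ((B.I >>> (x * B.L)) % 2 ^ B.L).testBit b = _
  rw [Nat.testBit_mod_two_pow, Nat.testBit_shiftRight]

theorem lm_li (hM : B.M ≤ B.L) {x b : ℕ} (h : (B.lm x).testBit b = true) :
    (B.li x).testBit b = true ∧ b < B.M := by
  rw [lm_testBit, Bool.and_eq_true, decide_eq_true_eq] at h
  rw [li_testBit, h.1, decide_eq_true (by omega : b < B.L)]
  exact ⟨rfl, h.2⟩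

theorem li_lm {x b : ℕ} (h : (B.li x).testBit b = true) (hb : b < B.M) :
    (B.lm x).testBit b = true := by
  rw [li_testBit, Bool.and_eq_true, decide_eq_true_eq] at h
  rw [lm_testBit, h.2, decide_eq_true hb]
  rfl

theorem bit_code (x : ℕ) : 2 * (x / 2) + (decide (x % 2 = 1)).toNat = x := by
  rcases Nat.mod_two_eq_zero_or_one x with h | h
  · rw [decide_eq_false (by omega)]; simp; omega
  · rw [decide_eq_true h]; simp; omega

theorem one_testBit_succ (i : ℕ) : (1 : ℕ).testBit (i + 1) = false := by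
  rw [Nat.testBit_succ]; simp

theorem xor_one_div (x : ℕ) : (x ^^^ 1) / 2 = x / 2 := by
  have h : (x ^^^ 1) >>> 1 = x >>> 1 := by
    apply Nat.eq_of_testBit_eq
    intro i
    rw [Nat.testBit_shiftRight, Nat.testBit_shiftRight, Nat.testBit_xor, Nat.add_comm 1 i,
      one_testBit_succ, Bool.xor_false]
  simpa [Nat.shiftRight_one] using h

theorem xor_one_mod (x : ℕ) : (x ^^^ 1) % 2 = 1 - x % 2 := by
  have h := @Nat.xor_mod_two_eq x 1
  rcases Nat.mod_two_eq_zero_or_one x with h1 | h1 <;> omega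

theorem xor_one_xor_one (x : ℕ) : (x ^^^ 1) ^^^ 1 = x := by
  rw [Nat.xor_assoc, Nat.xor_self, Nat.xor_zero]

theorem xor_one_decide (x : ℕ) : decide ((x ^^^ 1) % 2 = 1) = !decide (x % 2 = 1) := by
  rw [xor_one_mod]
  rcases Nat.mod_two_eq_zero_or_one x with h | h <;> simp [h]

/-! ### what is excluded -/

theorem hold_spec (hM : B.M ≤ B.L) {r : ℕ → Bool} {y b : ℕ} (hy : y < 2 * B.n)
    (hr : r (y / 2) ≠ decide (y % 2 = 1)) (h : (B.hold y).testBit b = true) : B.Excl r b := by
  have h' : ((B.lm y) ||| 2 ^ (B.M + y)).testBit b = true := h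
  rw [Nat.testBit_or, Bool.or_eq_true, Nat.testBit_two_pow, decide_eq_true_eq] at h'
  rcases h' with h' | h'
  · obtain ⟨h1, h2⟩ := B.lm_li hM h'
    left
    refine ⟨h2, fun hc => hr ?_⟩
    exact hc (y / 2) (by omega) (decide (y % 2 = 1)) (by rw [bit_code]; exact h1)
  · right
    subst h'
    refine ⟨by omega, ?_⟩
    have : B.M + y - B.M = y := by omega
    rw [this]
    exact hr

theorem and_two_pow_eq (a j : ℕ) : Nat.beq (Nat.land a (Nat.pow 2 j)) 0 = !a.testBit j := by
  have h : (a &&& 2 ^ j) = (a.testBit j).toNat * 2 ^ j := by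
    apply Nat.eq_of_testBit_eq
    intro i
    rw [Nat.testBit_and, Nat.testBit_two_pow]
    by_cases hi : j = i
    · subst hi
      rcases h1 : a.testBit j with _ | _ <;> simp
    · rcases h1 : a.testBit j with _ | _
      · simp [hi]
      · simp only [hi, decide_false, Bool.and_false, Bool.toNat_true, Nat.one_mul]
        rw [Nat.testBit_two_pow, decide_eq_false hi]
  show Nat.beq (a &&& 2 ^ j) 0 = _
  rw [h]
  rcases h1 : a.testBit j with _ | _
  · simp
  · have h2 := Nat.two_pow_pos j
    rw [Bool.toNat_true, Nat.one_mul]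
    rcases hh : Nat.beq (2 ^ j) 0 with _ | _
    · rfl
    · have := Nat.eq_of_beq_eq_true hh
      omega

theorem covA_testBit (j : ℕ) : ∀ (x A b : ℕ), (B.covA (Nat.pow 2 j) x A).testBit b = true ↔
    (A.testBit b = true ∨ ∃ y < x, (B.lm y).testBit j = true ∧
      (B.hold (y ^^^ 1)).testBit b = true) := by
  intro x
  induction x with
  | zero => intro A b; simp [covA]
  | succ x ih =>
    intro A b
    simp only [covA, sq_eq]
    rw [and_two_pow_eq]
    rcases h : (B.lm x).testBit j with _ | _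
    · rw [Bool.not_false, cond_true, ih]
      constructor
      · rintro (h1 | ⟨y, hy, h1, h2⟩)
        · exact Or.inl h1
        · exact Or.inr ⟨y, by omega, h1, h2⟩
      · rintro (h1 | ⟨y, hy, h1, h2⟩)
        · exact Or.inl h1
        · refine Or.inr ⟨y, ?_, h1, h2⟩
          rcases Nat.lt_or_ge y x with h3 | h3
          · exact h3
          · have : y = x := by omega
            subst this
            rw [h] at h1
            exact absurd h1 (by simp)
    · rw [Bool.not_true, cond_false, ih]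
      have e : (A.lor (B.hold (x.xor 1))).testBit b
          = (A.testBit b || (B.hold (x ^^^ 1)).testBit b) := by
        show (A ||| (B.hold (x ^^^ 1))).testBit b = _
        rw [Nat.testBit_or]
      rw [e, Bool.or_eq_true]
      constructor
      · rintro ((h1 | h1) | ⟨y, hy, h1, h2⟩)
        · exact Or.inl h1
        · exact Or.inr ⟨x, by omega, h, h1⟩
        · exact Or.inr ⟨y, by omega, h1, h2⟩
      · rintro (h1 | ⟨y, hy, h1, h2⟩)
        · exact Or.inl (Or.inl h1)
        · rcases Nat.lt_or_ge y x with h3 | h3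
          · exact Or.inr ⟨y, h3, h1, h2⟩
          · have : y = x := by omega
            subst this
            exact Or.inl (Or.inr h2)

theorem cov_testBit (j b : ℕ) : (B.cov j).testBit b = true ↔
    ∃ y < 2 * B.n, (B.lm y).testBit j = true ∧ (B.hold (y ^^^ 1)).testBit b = true := by
  have h := B.covA_testBit j (Nat.mul 2 B.n) 0 b
  show (B.covA (Nat.pow 2 j) (Nat.mul 2 B.n) 0).testBit b = true ↔ _
  rw [h]
  simp

theorem cov_spec (hM : B.M ≤ B.L) {r : ℕ → Bool} {j b : ℕ} (hc : B.Covers r j)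
    (h : (B.cov j).testBit b = true) : B.Excl r b := by
  obtain ⟨y, hy, h1, h2⟩ := (B.cov_testBit j b).1 h
  have h3 : r (y / 2) = decide (y % 2 = 1) :=
    hc (y / 2) (by omega) _ (by rw [bit_code]; exact (B.lm_li hM h1).1)
  refine B.hold_spec hM ?_ ?_ h2
  · have := xor_one_div y
    omega
  · rw [xor_one_div, xor_one_decide, h3]
    cases decide (y % 2 = 1) <;> simp

theorem cov_code {j y : ℕ} (hy : y < 2 * B.n) (h : (B.lm y).testBit j = true) :
    (B.cov j).testBit (B.M + (y ^^^ 1)) = true := by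
  refine (B.cov_testBit j _).2 ⟨y, hy, h, ?_⟩
  show ((B.lm (y ^^^ 1)) ||| 2 ^ (B.M + (y ^^^ 1))).testBit _ = true
  rw [Nat.testBit_or, Nat.testBit_two_pow]
  simp

/-! ### states -/

/-- the bits which begin at `c` -/
def Bits (r : ℕ → Bool) (S c : ℕ) : Prop :=
  ∀ b, b < B.M + 2 * B.n → S.testBit (c + b) = true → B.Excl r b

theorem fit_iff (r : ℕ → Bool) (S c : ℕ) : B.Fit r (S >>> c) ↔ B.Bits r S c := by
  simp only [Fit, Bits, Nat.testBit_shiftRight]

/-- the rows `ρ ∘ σ` fit to the state `(m, S)` -/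
def Fits (ρ : Fin B.T → ℕ → Bool) (σ : Equiv.Perm (Fin B.T)) (m S : ℕ) : Prop :=
  (∀ i : Fin B.T, i.1 < m → B.Bits (ρ (σ i)) S (64 + (i.1 + 1) * (B.M + 2 * B.n))) ∧
    ∀ i : Fin B.T, m ≤ i.1 → B.Bits (ρ (σ i)) S 64

theorem sat_iff (ρ : Fin B.T → ℕ → Bool) (m S : ℕ) : B.Sat ρ m S ↔
    (m ≤ B.T ∧ S < 2 ^ (64 + (m + 1) * (B.M + 2 * B.n)) ∧ ∃ σ, B.Fits ρ σ m S) := by
  simp only [Sat, Fits, fit_iff]

theorem Bits.mono {B : SBase} {r : ℕ → Bool} {S S' c : ℕ} (h : B.Bits r S c)
    (hS : ∀ b, b < B.M + 2 * B.n → S'.testBit (c + b) = true → S.testBit (c + b) = true ∨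
      B.Excl r b) : B.Bits r S' c := by
  intro b hb hb'
  rcases hS b hb hb' with h1 | h1
  · exact h b hb h1
  · exact h1

theorem Fits.mono {B : SBase} {ρ : Fin B.T → ℕ → Bool} {σ : Equiv.Perm (Fin B.T)} {m S S' : ℕ}
    (h : B.Fits ρ σ m S)
    (hS : ∀ b, 64 ≤ b → S'.testBit b = true → S.testBit b = true) : B.Fits ρ σ m S' :=
  ⟨fun i hi => (h.1 i hi).mono fun b _ hb => Or.inl (hS _ (by omega) hb),
    fun i hi => (h.2 i hi).mono fun b _ hb => Or.inl (hS _ (by omega) hb)⟩

theorem testBit_salt {S str b : ℕ} (hb : 64 ≤ b) :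
    (Nat.xor S (Nat.land str (ones 64))).testBit b = S.testBit b := by
  show (S ^^^ (str &&& ones 64)).testBit b = _
  rw [Nat.testBit_xor, Nat.testBit_and, testBit_ones, decide_eq_false (by omega)]
  simp

theorem sat_salt {ρ : Fin B.T → ℕ → Bool} {m S : ℕ} (str : ℕ) (h : B.Sat ρ m S) :
    B.Sat ρ m (Nat.xor S (Nat.land str (ones 64))) := by
  rw [sat_iff] at h ⊢
  obtain ⟨h1, h2, σ, h3⟩ := h
  refine ⟨h1, ?_, σ, h3.mono fun b hb h4 => by rwa [testBit_salt hb] at h4⟩
  show S ^^^ (str &&& ones 64) < _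
  refine Nat.xor_lt_two_pow h2 ?_
  refine lt_of_le_of_lt Nat.and_le_right ?_
  refine lt_of_lt_of_le (ones_lt 64) (Nat.pow_le_pow_right (by norm_num) (by omega))

theorem lt_two_pow_of_testBit' {x n : ℕ} (h : ∀ i, x.testBit i = true → i < n) : x < 2 ^ n := by
  apply Nat.lt_pow_two_of_testBit
  intro i hi
  rcases hh : x.testBit i with _ | _
  · rfl
  · have := h i hh
    omega

theorem lt_of_testBit_lt {x n i : ℕ} (h : x < 2 ^ n) (hi : x.testBit i = true) : i < n := by
  rcases Nat.lt_or_ge i n with h1 | h1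
  · exact h1
  · rw [Nat.testBit_lt_two_pow (lt_of_lt_of_le h (Nat.pow_le_pow_right (by norm_num) h1))] at hi
    exact absurd hi (by simp)

/-! ### a special row gets new information -/

/-- new bits for the special row number `i` -/
theorem sat_special {ρ : Fin B.T → ℕ → Bool} {σ : Equiv.Perm (Fin B.T)} {m Z i C : ℕ}
    (hT : m ≤ B.T) (hZ : Z < 2 ^ (64 + (m + 1) * (B.M + 2 * B.n))) (hf : B.Fits ρ σ m Z)
    (him : i < m) (hiT : i < B.T)
    (hC : ∀ b, C.testBit b = true → b < B.M + 2 * B.n ∧ B.Excl (ρ (σ ⟨i, hiT⟩)) b) :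
    B.Sat ρ m (Z ||| (C <<< (64 + (i + 1) * (B.M + 2 * B.n)))) := by
  rw [sat_iff]
  have key : ∀ b, (Z ||| (C <<< (64 + (i + 1) * (B.M + 2 * B.n)))).testBit b = true →
      Z.testBit b = true ∨ ∃ c, c < B.M + 2 * B.n ∧ b = 64 + (i + 1) * (B.M + 2 * B.n) + c ∧
        B.Excl (ρ (σ ⟨i, hiT⟩)) c := by
    intro b hb
    rw [Nat.testBit_or, Bool.or_eq_true, Nat.testBit_shiftLeft, Bool.and_eq_true,
      decide_eq_true_eq] at hb
    rcases hb with hb | ⟨h1, h2⟩
    · exact Or.inl hb
    · obtain ⟨h3, h4⟩ := hC _ h2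
      exact Or.inr ⟨_, h3, by omega, h4⟩
  refine ⟨hT, ?_, σ, ?_, ?_⟩
  · apply lt_two_pow_of_testBit'
    intro b hb
    rcases key b hb with h1 | ⟨c, h1, h2, _⟩
    · exact lt_of_testBit_lt hZ h1
    · have h3 : (i + 1 + 1) * (B.M + 2 * B.n) ≤ (m + 1) * (B.M + 2 * B.n) :=
        Nat.mul_le_mul_right _ (by omega)
      rw [Nat.add_mul (i + 1) 1] at h3
      omega
  · intro i' hi'
    refine (hf.1 i' hi').mono fun b hb hb' => ?_
    rcases key _ hb' with h1 | ⟨c, h1, h2, h3⟩
    · exact Or.inl h1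
    · right
      have h4 : i'.1 = i := by
        rcases Nat.lt_trichotomy i'.1 i with h5 | h5 | h5
        · have h6 : (i'.1 + 1 + 1) * (B.M + 2 * B.n) ≤ (i + 1) * (B.M + 2 * B.n) :=
            Nat.mul_le_mul_right _ (by omega)
          rw [Nat.add_mul (i'.1 + 1) 1] at h6
          omega
        · exact h5
        · have h6 : (i + 1 + 1) * (B.M + 2 * B.n) ≤ (i'.1 + 1) * (B.M + 2 * B.n) :=
            Nat.mul_le_mul_right _ (by omega)
          rw [Nat.add_mul (i + 1) 1] at h6
          omega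
      have h5 : i' = ⟨i, hiT⟩ := Fin.ext h4
      rw [h4] at h2
      have h6 : b = c := by omega
      rw [h5, h6]
      exact h3
  · intro i' hi'
    refine (hf.2 i' hi').mono fun b hb hb' => ?_
    rcases key _ hb' with h1 | ⟨c, h1, h2, h3⟩
    · exact Or.inl h1
    · exfalso
      have h6 : 1 * (B.M + 2 * B.n) ≤ (i + 1) * (B.M + 2 * B.n) :=
        Nat.mul_le_mul_right _ (by omega)
      omega

/-- the fresh row number `i` becomes the special row number `m` -/
theorem sat_fresh {ρ : Fin B.T → ℕ → Bool} {σ : Equiv.Perm (Fin B.T)} {m Z C : ℕ}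
    (hZ : Z < 2 ^ (64 + (m + 1) * (B.M + 2 * B.n))) (hf : B.Fits ρ σ m Z)
    (i : Fin B.T) (him : m ≤ i.1)
    (hC : ∀ b, C.testBit b = true → b < B.M + 2 * B.n ∧ B.Excl (ρ (σ i)) b) :
    B.Sat ρ (m + 1) (Z ||| (C <<< (64 + (m + 1) * (B.M + 2 * B.n)))) := by
  rw [sat_iff]
  have key : ∀ b, (Z ||| (C <<< (64 + (m + 1) * (B.M + 2 * B.n)))).testBit b = true →
      (Z.testBit b = true ∧ b < 64 + (m + 1) * (B.M + 2 * B.n)) ∨
      ∃ c, c < B.M + 2 * B.n ∧ b = 64 + (m + 1) * (B.M + 2 * B.n) + c ∧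
        B.Excl (ρ (σ i)) c := by
    intro b hb
    rw [Nat.testBit_or, Bool.or_eq_true, Nat.testBit_shiftLeft, Bool.and_eq_true,
      decide_eq_true_eq] at hb
    rcases hb with hb | ⟨h1, h2⟩
    · exact Or.inl ⟨hb, lt_of_testBit_lt hZ hb⟩
    · obtain ⟨h3, h4⟩ := hC _ h2
      exact Or.inr ⟨_, h3, by omega, h4⟩
  have hmT : m < B.T := lt_of_le_of_lt him i.2
  refine ⟨by omega, ?_, σ * Equiv.swap ⟨m, hmT⟩ i, ?_, ?_⟩
  · apply lt_two_pow_of_testBit'
    intro b hb
    rw [Nat.add_mul (m + 1) 1]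
    rcases key b hb with h1 | ⟨c, h1, h2, _⟩ <;> omega
  · intro i' hi'
    rcases Nat.lt_or_ge i'.1 m with h1 | h1
    · have e : (σ * Equiv.swap ⟨m, hmT⟩ i) i' = σ i' := by
        rw [Equiv.Perm.mul_apply, Equiv.swap_apply_of_ne_of_ne]
        · intro h; rw [h] at h1; exact absurd h1 (by simp)
        · intro h; rw [h] at h1; omega
      rw [e]
      refine (hf.1 i' h1).mono fun b hb hb' => ?_
      rcases key _ hb' with h2 | ⟨c, h2, h3, _⟩
      · exact Or.inl h2.1
      · exfalso
        have h6 : (i'.1 + 1 + 1) * (B.M + 2 * B.n) ≤ (m + 1) * (B.M + 2 * B.n) :=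
          Nat.mul_le_mul_right _ (by omega)
        rw [Nat.add_mul (i'.1 + 1) 1] at h6
        omega
    · have h2 : i' = ⟨m, hmT⟩ := Fin.ext (by show i'.1 = m; omega)
      have e : (σ * Equiv.swap ⟨m, hmT⟩ i) i' = σ i := by
        rw [h2, Equiv.Perm.mul_apply, Equiv.swap_apply_left]
      rw [e]
      intro b hb hb'
      have h3 : i'.1 = m := by rw [h2]
      rw [h3] at hb'
      rcases key _ hb' with h4 | ⟨c, h4, h5, h6⟩
      · omega
      · have : b = c := by omega
        rw [this]
        exact h6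
  · intro i' hi'
    have hlt : ∀ b, b < B.M + 2 * B.n →
        (Z ||| (C <<< (64 + (m + 1) * (B.M + 2 * B.n)))).testBit (64 + b) = true →
        Z.testBit (64 + b) = true := by
      intro b hb hb'
      have h6 : 1 * (B.M + 2 * B.n) ≤ (m + 1) * (B.M + 2 * B.n) :=
        Nat.mul_le_mul_right _ (by omega)
      rcases key _ hb' with h4 | ⟨c, h4, h5, _⟩
      · exact h4.1
      · omega
    by_cases h1 : i' = i
    · have e : (σ * Equiv.swap ⟨m, hmT⟩ i) i' = σ ⟨m, hmT⟩ := by
        rw [h1, Equiv.Perm.mul_apply, Equiv.swap_apply_right]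
      rw [e]
      exact (hf.2 ⟨m, hmT⟩ (le_refl _)).mono fun b hb hb' => Or.inl (hlt b hb hb')
    · have e : (σ * Equiv.swap ⟨m, hmT⟩ i) i' = σ i' := by
        rw [Equiv.Perm.mul_apply, Equiv.swap_apply_of_ne_of_ne]
        · intro h; rw [h] at hi'; simp at hi'
        · exact h1
      rw [e]
      exact (hf.2 i' (by omega)).mono fun b hb hb' => Or.inl (hlt b hb hb')

/-! ### the product with `rep` -/

theorem blt_iff {a b : ℕ} : Nat.blt a b = true ↔ a < b := by
  unfold Nat.blt
  rw [Nat.ble_eq]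
  exact Iff.rfl

theorem rep_aux {W E c0 : ℕ} (hE : E < 2 ^ W) (hW : 0 < W) (hc0 : c0 < 2 ^ (64 + W))
    (hE0 : E * c0 < 2 ^ (64 + W)) : ∀ m : ℕ,
    (c0 ||| repA W m) < 2 ^ (64 + (m + 1) * W) ∧ E * (c0 ||| repA W m) < 2 ^ (64 + (m + 1) * W) ∧
      ∀ b, (E * (c0 ||| repA W m)).testBit b = true ↔ ((E * c0).testBit b = true ∨
        ∃ i < m, 64 + (i + 1) * W ≤ b ∧ E.testBit (b - (64 + (i + 1) * W)) = true) := by
  intro m
  induction m with
  | zero => simp [repA, hc0, hE0]
  | succ m ih =>
    obtain ⟨ih1, ih2, ih3⟩ := ih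
    have e1 : (c0 ||| repA W (m + 1)) = (c0 ||| repA W m) + 2 ^ (64 + (m + 1) * W) := by
      have : repA W (m + 1) = (repA W m ||| 2 ^ (64 + (m + 1) * W)) := rfl
      rw [this, ← Nat.or_assoc]
      have h := Nat.two_pow_add_eq_or_of_lt ih1 1
      rw [Nat.mul_one] at h
      rw [Nat.or_comm, ← h, Nat.add_comm]
    have e2 : E * (c0 ||| repA W (m + 1)) =
        ((E <<< (64 + (m + 1) * W)) ||| (E * (c0 ||| repA W m))) := by
      rw [e1, Nat.mul_add, Nat.shiftLeft_eq, Nat.mul_comm E (2 ^ (64 + (m + 1) * W)),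
        ← Nat.two_pow_add_eq_or_of_lt ih2, Nat.add_comm]
    have e3 : 64 + (m + 1 + 1) * W = W + (64 + (m + 1) * W) := by ring
    refine ⟨?_, ?_, ?_⟩
    · rw [e1, e3, Nat.pow_add 2 W (64 + (m + 1) * W)]
      have h2 : 2 ^ 1 ≤ 2 ^ W := Nat.pow_le_pow_right (by norm_num) hW
      calc (c0 ||| repA W m) + 2 ^ (64 + (m + 1) * W)
          < 2 ^ (64 + (m + 1) * W) + 2 ^ (64 + (m + 1) * W) := by omega
        _ = 2 ^ 1 * 2 ^ (64 + (m + 1) * W) := by ring
        _ ≤ 2 ^ W * 2 ^ (64 + (m + 1) * W) := Nat.mul_le_mul_right _ h2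
    · rw [e1, Nat.mul_add, e3, Nat.pow_add 2 W (64 + (m + 1) * W)]
      calc E * (c0 ||| repA W m) + E * 2 ^ (64 + (m + 1) * W)
          < 2 ^ (64 + (m + 1) * W) + E * 2 ^ (64 + (m + 1) * W) := by omega
        _ = (E + 1) * 2 ^ (64 + (m + 1) * W) := by ring
        _ ≤ 2 ^ W * 2 ^ (64 + (m + 1) * W) := Nat.mul_le_mul_right _ hE
    · intro b
      rw [e2, Nat.testBit_or, Bool.or_eq_true, ih3, Nat.testBit_shiftLeft, Bool.and_eq_true,
        decide_eq_true_eq]
      constructor
      · rintro (⟨h1, h2⟩ | h1 | ⟨i, hi, h1⟩)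
        · exact Or.inr ⟨m, by omega, h1, h2⟩
        · exact Or.inl h1
        · exact Or.inr ⟨i, by omega, h1⟩
      · rintro (h1 | ⟨i, hi, h1, h2⟩)
        · exact Or.inr (Or.inl h1)
        · rcases Nat.lt_or_ge i m with h3 | h3
          · exact Or.inr (Or.inr ⟨i, h3, h1, h2⟩)
          · have : i = m := by omega
            subst this
            exact Or.inl ⟨h1, h2⟩

theorem rep_lt {W : ℕ} (hW : 0 < W) (T m : ℕ) : rep W T m < 2 ^ (64 + (m + 1) * W) := by
  have h1 : (1 : ℕ) < 2 ^ W := Nat.one_lt_two_pow (by omega)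
  have h64 : (2 : ℕ) ^ 64 < 2 ^ (64 + W) := Nat.pow_lt_pow_right (by norm_num) (by omega)
  show (bif Nat.blt m T then Nat.pow 2 64 else 0) ||| repA W m < _
  rcases Nat.blt m T with _ | _
  · exact (rep_aux (E := 1) (c0 := 0) h1 hW (Nat.two_pow_pos _) (by simp) m).1
  · exact (rep_aux (E := 1) (c0 := 2 ^ 64) h1 hW h64 (by rwa [Nat.one_mul]) m).1

theorem mul_rep_testBit {W E : ℕ} (hE : E < 2 ^ W) (hW : 0 < W) (T m b : ℕ) :
    (E * rep W T m).testBit b = true ↔ ((m < T ∧ 64 ≤ b ∧ E.testBit (b - 64) = true) ∨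
        ∃ i < m, 64 + (i + 1) * W ≤ b ∧ E.testBit (b - (64 + (i + 1) * W)) = true) := by
  have h64 : (2 : ℕ) ^ 64 < 2 ^ (64 + W) := Nat.pow_lt_pow_right (by norm_num) (by omega)
  have hE64 : E * 2 ^ 64 < 2 ^ (64 + W) := by
    rw [Nat.pow_add, Nat.mul_comm]
    exact Nat.mul_lt_mul_of_pos_left hE (Nat.two_pow_pos 64)
  show (E * ((bif Nat.blt m T then Nat.pow 2 64 else 0) ||| repA W m)).testBit b = true ↔ _
  rcases h : Nat.blt m T with _ | _
  · have hm : ¬ m < T := by
      intro h'
      rw [blt_iff.2 h'] at h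
      exact absurd h (by simp)
    rw [cond_false, (rep_aux hE hW (Nat.two_pow_pos _) (by simp) m).2.2 b]
    simp [hm]
  · have hm : m < T := blt_iff.1 h
    have := (rep_aux hE hW h64 hE64 m).2.2 b
    show (E * (2 ^ 64 ||| repA W m)).testBit b = true ↔ _
    rw [this, ← Nat.shiftLeft_eq, Nat.testBit_shiftLeft, Bool.and_eq_true, decide_eq_true_eq]
    simp [hm]

/-! ### the tables -/

theorem cv_testBit (j b : ℕ) : (fl B.par.CV B.par.W B.par.K j).testBit b =
    (decide (b < B.W) && (decide (j < B.M) && (B.cov j).testBit b)) :=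
  fl_mkTab B.W B.cov B.M j b

theorem hd_testBit (x b : ℕ) : (fl B.par.HD B.par.W B.par.K x).testBit b =
    (decide (b < B.W) && (decide (x < 2 * B.n) && (B.hold x).testBit b)) :=
  fl_mkTab B.W B.hold (Nat.mul 2 B.n) x b

theorem rp_eq (hW : 0 < B.W) {m : ℕ} (hm : m ≤ B.T) :
    fl B.par.RP B.par.WR B.par.KR m = rep B.W B.T m := by
  apply Nat.eq_of_testBit_eq
  intro b
  have h := fl_mkTab B.WR (rep B.W B.T) (Nat.succ B.T) m b
  show (fl (mkTab B.WR (ones B.WR) (rep B.W B.T) (Nat.succ B.T) 0) B.WR (ones B.WR) m).testBit b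
    = _
  rw [h, decide_eq_true (show m < Nat.succ B.T by omega), Bool.true_and]
  rcases h1 : (rep B.W B.T m).testBit b with _ | _
  · simp
  · have h2 := lt_of_testBit_lt (rep_lt hW B.T m) h1
    have h3 : B.WR = 64 + B.W * (B.T + 1 + 1) := rfl
    have h4 : (m + 1) * B.W ≤ (B.T + 1 + 1) * B.W := Nat.mul_le_mul_right _ (by omega)
    rw [Nat.mul_comm B.W] at h3
    rw [decide_eq_true (by omega : b < B.WR)]
    rfl

/-! ### a clause -/

theorem rec_bool {α : Type} (a b : α) (c : Bool) : @Bool.rec (fun _ => α) a b c = cond c b a := by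
  cases c <;> rfl

/-- the bit `b` belongs to a literal which is covered by the row with the corresponding field -/
def HitAt (ρ : Fin B.T → ℕ → Bool) (σ : Equiv.Perm (Fin B.T)) (m b : ℕ) : Prop :=
  ∃ i : Fin B.T, ((b - 64) / B.W = 0 → m ≤ i.1) ∧ ((b - 64) / B.W ≠ 0 → i.1 + 1 = (b - 64) / B.W) ∧
    B.Covers (ρ (σ i)) ((b - 64) % B.W)

theorem shiftRight_land_one (X p : ℕ) :
    Nat.beq (Nat.land (Nat.shiftRight X p) 1) 1 = X.testBit p := by
  show Nat.beq ((X >>> p) &&& 1) 1 = _
  rw [Nat.testBit, Nat.and_comm 1]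
  have h : (X >>> p) &&& 1 = (X >>> p) % 2 := by
    exact Nat.and_two_pow_sub_one_eq_mod (X >>> p) 1
  rw [h]
  rcases Nat.mod_two_eq_zero_or_one (X >>> p) with h1 | h1 <;> rw [h1] <;> rfl

theorem shiftRight_eq_zero {X p b : ℕ} (h : Nat.beq (Nat.shiftRight X p) 0 = true) (hb : p ≤ b) :
    X.testBit b = false := by
  have h1 : X >>> p = 0 := Nat.eq_of_beq_eq_true h
  have h2 : (X >>> p).testBit (b - p) = false := by rw [h1]; simp
  rw [Nat.testBit_shiftRight] at h2
  rwa [show p + (b - p) = b by omega] at h2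

theorem child_sound (hM : B.M ≤ B.L) {ρ : Fin B.T → ℕ → Bool} {G : Prop}
    {σ : Equiv.Perm (Fin B.T)} {m Z pos : ℕ} (hT : m ≤ B.T)
    (hZ : Z < 2 ^ (64 + (m + 1) * (B.M + 2 * B.n))) (hf : B.Fits ρ σ m Z)
    (hp : 64 ≤ pos) (hpm : (pos - 64) / B.W ≤ m) (hpW : 0 < B.W)
    (hhit : B.HitAt ρ σ m pos) {k : ℕ → ℕ → Bool}
    (hk : ∀ m1 S1, k m1 S1 = true → B.Sat ρ m1 S1 → G)
    (h : Par.child B.par m Z pos (Nat.mod (Nat.sub pos 64) B.par.W) k = true) : G := by
  obtain ⟨i, hi1, hi2, hi3⟩ := hhit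
  have hW : B.par.W = B.M + 2 * B.n := rfl
  have hW' : B.W = B.M + 2 * B.n := rfl
  have hj : Nat.mod (Nat.sub pos 64) B.par.W = (pos - 64) % B.W := rfl
  have hdm := Nat.div_add_mod (pos - 64) B.W
  have hml := Nat.mod_lt (pos - 64) hpW
  unfold Par.child at h
  rw [rec_bool, hj] at h
  simp only [sq_eq] at h
  have hcv : ∀ b, (fl B.par.CV B.par.W B.par.K ((pos - 64) % B.W)).testBit b = true →
      b < B.M + 2 * B.n ∧ B.Excl (ρ (σ i)) b := by
    intro b hb
    rw [cv_testBit, Bool.and_eq_true, Bool.and_eq_true, decide_eq_true_eq] at hb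
    exact ⟨hb.1, B.cov_spec hM hi3 hb.2.2⟩
  rcases hlt : Nat.blt pos (Nat.add 64 B.par.W) with _ | _
  · rw [hlt, cond_false] at h
    have h1 : ¬ pos < 64 + B.W := by
      intro h1
      have : Nat.blt pos (Nat.add 64 B.par.W) = true := blt_iff.2 h1
      rw [this] at hlt
      exact absurd hlt (by simp)
    have h2 : (pos - 64) / B.W ≠ 0 := by
      intro h2
      rw [h2] at hdm
      omega
    have h3 := hi2 h2
    have h4 : pos - (pos - 64) % B.W = 64 + (i.1 + 1) * (B.M + 2 * B.n) := by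
      rw [h3, ← hW', Nat.mul_comm]
      omega
    have h5 : Nat.sub pos ((pos - 64) % B.W) = 64 + (i.1 + 1) * (B.M + 2 * B.n) := h4
    rw [h5] at h
    exact hk _ _ h (B.sat_special hT hZ hf (by omega) i.2 hcv)
  · rw [hlt, cond_true] at h
    have h1 : pos < 64 + B.W := blt_iff.1 hlt
    have h2 : (pos - 64) / B.W = 0 := Nat.div_eq_of_lt (by omega)
    have h3 := hi1 h2
    refine hk _ _ h ?_
    refine B.sat_fresh (C := Nat.lor (Nat.land (Nat.shiftRight Z 64) B.par.K)
      (fl B.par.CV B.par.W B.par.K ((pos - 64) % B.W))) hZ hf i h3 ?_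
    intro b hb
    have hb' : (((Z >>> 64) &&& ones B.W) |||
      (fl B.par.CV B.par.W B.par.K ((pos - 64) % B.W))).testBit b = true := hb
    rw [Nat.testBit_or, Bool.or_eq_true, Nat.testBit_and, testBit_ones, Nat.testBit_shiftRight,
      Bool.and_eq_true, decide_eq_true_eq] at hb'
    rcases hb' with hb' | hb'
    · exact ⟨hb'.2, hf.2 i h3 b hb'.2 hb'.1⟩
    · exact hcv b hb'

theorem hits_sound (hM : B.M ≤ B.L) {ρ : Fin B.T → ℕ → Bool} {G : Prop} {m : ℕ}
    (hT : m ≤ B.T) {k : ℕ → Stk → Bool} (hk : ∀ str st, k str st = true → B.Done G ρ st)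
    (ST : ℕ) : ∀ (fuel X Z str : ℕ) (st : Stk),
      (∀ b, 64 ≤ b → X.testBit b = true → (b - 64) % B.W < B.M ∧ (b - 64) / B.W ≤ m) →
      Z < 2 ^ (64 + (m + 1) * (B.M + 2 * B.n)) →
      Par.hits B.par ST m k fuel X Z str st = true →
      B.Done G ρ st ∧ ∀ σ, B.Fits ρ σ m Z →
        (∃ b, 64 ≤ b ∧ X.testBit b = true ∧ B.HitAt ρ σ m b) → G := by
  intro fuel
  induction fuel with
  | zero => intro X Z str st _ _ h; exact absurd h (by simp [Par.hits])
  | succ fuel ih =>
    intro X Z str st hX hZ h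
    change @Bool.rec (fun _ => Bool)
      (sq (Nat.land (Nat.shiftRight ST str) 4095) fun pos =>
        @Bool.rec (fun _ => Bool) false
          (sq (Nat.mod (Nat.sub pos 64) B.par.W) fun j =>
            Par.child B.par m Z pos j fun m1 S1 =>
            sq (Nat.xor X (Nat.pow 2 pos)) fun X' =>
            sq (Nat.lor Z (Nat.pow 2 pos)) fun Z' =>
            sq (Nat.add str 12) fun str' =>
            Par.hits B.par ST m k fuel X' Z' str' (Stk.cons m1 S1 st))
          (Nat.ble 64 pos && Nat.beq (Nat.land (Nat.shiftRight X pos) 1) 1))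
      (k str st) (Nat.beq (Nat.shiftRight X 64) 0) = true at h
    rw [rec_bool] at h
    rcases h0 : Nat.beq (Nat.shiftRight X 64) 0 with _ | _
    · rw [h0, cond_false] at h
      simp only [sq_eq] at h
      rw [rec_bool, shiftRight_land_one] at h
      generalize hpos : Nat.land (Nat.shiftRight ST str) 4095 = pos at h
      rcases hc : (Nat.ble 64 pos && X.testBit pos) with _ | _
      · rw [hc, cond_false] at h
        exact absurd h (by simp)
      rw [hc, cond_true] at h
      rw [Bool.and_eq_true, Nat.ble_eq] at hc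
      obtain ⟨hp, hXp⟩ := hc
      obtain ⟨hpM, hpm⟩ := hX pos hp hXp
      have hpW : 0 < B.W := by
        have : B.W = B.M + 2 * B.n := rfl
        omega
      have hW' : B.W = B.M + 2 * B.n := rfl
      have hdm := Nat.div_add_mod (pos - 64) B.W
      have hml := Nat.mod_lt (pos - 64) hpW
      -- the new numbers
      have hX' : ∀ b, (Nat.xor X (Nat.pow 2 pos)).testBit b = true ↔
          (X.testBit b = true ∧ b ≠ pos) := by
        intro b
        show (X ^^^ 2 ^ pos).testBit b = true ↔ _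
        rw [Nat.testBit_xor, Nat.testBit_two_pow]
        by_cases hb : pos = b
        · subst hb; simp [hXp]
        · have hb' : b ≠ pos := fun h => hb h.symm
          simp [hb, hb']
      have hX'i : ∀ b, 64 ≤ b → (Nat.xor X (Nat.pow 2 pos)).testBit b = true →
          (b - 64) % B.W < B.M ∧ (b - 64) / B.W ≤ m := fun b hb hb' => hX b hb ((hX' b).1 hb').1
      have hposlt : pos < 64 + (m + 1) * (B.M + 2 * B.n) := by
        have h1 : B.W * ((pos - 64) / B.W) ≤ B.W * m := Nat.mul_le_mul_left _ hpm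
        rw [← hW', Nat.add_mul, Nat.mul_comm m]
        omega
      have hZ'i : Nat.lor Z (Nat.pow 2 pos) < 2 ^ (64 + (m + 1) * (B.M + 2 * B.n)) :=
        Nat.or_lt_two_pow hZ (Nat.pow_lt_pow_right (by norm_num) hposlt)
      have IH : ∀ m1 S1, Par.hits B.par ST m k fuel (Nat.xor X (Nat.pow 2 pos))
          (Nat.lor Z (Nat.pow 2 pos)) (Nat.add str 12) (Stk.cons m1 S1 st) = true →
          ((B.Sat ρ m1 S1 → G) ∧ B.Done G ρ st) ∧
            ∀ σ, B.Fits ρ σ m (Nat.lor Z (Nat.pow 2 pos)) →
              (∃ b, 64 ≤ b ∧ (Nat.xor X (Nat.pow 2 pos)).testBit b = true ∧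
                B.HitAt ρ σ m b) → G :=
        fun m1 S1 h1 => ih _ _ _ _ hX'i hZ'i h1
      -- the child
      have hex : ∃ m1 S1, Par.hits B.par ST m k fuel (Nat.xor X (Nat.pow 2 pos))
          (Nat.lor Z (Nat.pow 2 pos)) (Nat.add str 12) (Stk.cons m1 S1 st) = true := by
        unfold Par.child at h
        rw [rec_bool] at h
        simp only [sq_eq] at h
        rcases hlt : Nat.blt pos (Nat.add 64 B.par.W) with _ | _
        · rw [hlt, cond_false] at h; exact ⟨_, _, h⟩
        · rw [hlt, cond_true] at h; exact ⟨_, _, h⟩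
      obtain ⟨m1, S1, hex⟩ := hex
      refine ⟨(IH m1 S1 hex).1.2, fun σ hσ ⟨b, hb, hXb, hhit⟩ => ?_⟩
      by_cases hhp : B.HitAt ρ σ m pos
      · exact B.child_sound hM hT hZ hσ hp hpm hpW hhp (fun m1 S1 h1 => (IH m1 S1 h1).1.1) h
      · have hbp : b ≠ pos := by
          rintro rfl
          exact hhp hhit
        refine (IH m1 S1 hex).2 σ ⟨fun i hi => (hσ.1 i hi).mono fun c hc hc' => ?_,
          fun i hi => (hσ.2 i hi).mono fun c hc hc' => ?_⟩ ⟨b, hb, (hX' b).2 ⟨hXb, hbp⟩, hhit⟩
        · have hc'' : (Z ||| 2 ^ pos).testBit (64 + (i.1 + 1) * (B.M + 2 * B.n) + c) = true := hc'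
          rw [Nat.testBit_or, Bool.or_eq_true, Nat.testBit_two_pow, decide_eq_true_eq] at hc''
          rcases hc'' with h1 | h1
          · exact Or.inl h1
          · right
            have h2 : pos - 64 = c + B.W * (i.1 + 1) := by rw [Nat.mul_comm, hW']; omega
            have h3 : (pos - 64) / B.W = i.1 + 1 := by
              rw [h2, Nat.add_mul_div_left _ _ hpW, Nat.div_eq_of_lt (by omega)]
              omega
            have h4 : (pos - 64) % B.W = c := by
              rw [h2, Nat.add_mul_mod_self_left, Nat.mod_eq_of_lt (by omega)]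
            left
            refine ⟨by omega, fun hcov => hhp ⟨i, ?_, ?_, ?_⟩⟩
            · intro h5; omega
            · intro _; omega
            · rw [h4]; exact hcov
        · have hc'' : (Z ||| 2 ^ pos).testBit (64 + c) = true := hc'
          rw [Nat.testBit_or, Bool.or_eq_true, Nat.testBit_two_pow, decide_eq_true_eq] at hc''
          rcases hc'' with h1 | h1
          · exact Or.inl h1
          · right
            have h2 : pos - 64 = c := by omega
            have h3 : (pos - 64) / B.W = 0 := by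
              rw [h2, Nat.div_eq_of_lt (by omega)]
            have h4 : (pos - 64) % B.W = c := by
              rw [h2, Nat.mod_eq_of_lt (by omega)]
            left
            refine ⟨by omega, fun hcov => hhp ⟨i, ?_, ?_, ?_⟩⟩
            · intro _; exact hi
            · intro h5; omega
            · rw [h4]; exact hcov
    · rw [h0, cond_true] at h
      refine ⟨hk _ _ h, fun σ _ ⟨b, hb, hXb, _⟩ => ?_⟩
      rw [shiftRight_eq_zero h0 hb] at hXb
      exact absurd hXb (by simp)

theorem clause_sound (hM : B.M ≤ B.L) {ρ : Fin B.T → ℕ → Bool} {G : Prop}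
    (hcl : ∀ e < B.nc, ∃ t, ∃ j, (fl B.CT B.M (ones B.M) e).testBit j = true ∧ B.Covers (ρ t) j)
    {m : ℕ} {k : ℕ → Stk → Bool} (hk : ∀ str st, k str st = true → B.Done G ρ st)
    {ST t Z str : ℕ} {st : Stk} (ht : t < B.nc)
    (h : Par.clause B.par ST t m Z k str st = true) (hZ : B.Sat ρ m Z) : G := by
  rw [sat_iff] at hZ
  obtain ⟨hT, hZ, σ, hσ⟩ := hZ
  obtain ⟨t0, j, hj, hcov⟩ := hcl t ht
  have hW' : B.W = B.M + 2 * B.n := rfl
  have hE : fl B.CT B.M (ones B.M) t < 2 ^ B.M :=
    lt_of_le_of_lt Nat.and_le_right (ones_lt B.M)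
  have hjM : j < B.M := lt_of_testBit_lt hE hj
  have hpW : 0 < B.W := by omega
  have hE' : fl B.CT B.M (ones B.M) t < 2 ^ B.W :=
    lt_of_lt_of_le hE (Nat.pow_le_pow_right (by norm_num) (by omega))
  have hcle : Par.cl B.par t m = fl B.CT B.M (ones B.M) t * rep B.W B.T m := by
    unfold Par.cl
    rw [B.rp_eq hpW hT]
    rfl
  have hclb : ∀ b, (Par.cl B.par t m).testBit b = true ↔
      ((m < B.T ∧ 64 ≤ b ∧ (fl B.CT B.M (ones B.M) t).testBit (b - 64) = true) ∨
        ∃ i < m, 64 + (i + 1) * B.W ≤ b ∧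
          (fl B.CT B.M (ones B.M) t).testBit (b - (64 + (i + 1) * B.W)) = true) := by
    intro b
    rw [hcle]
    exact mul_rep_testBit hE' hpW B.T m b
  unfold Par.clause at h
  simp only [sq_eq] at h
  have hXb : ∀ b, 64 ≤ b → ((Nat.lor (Nat.xor (Par.cl B.par t m) (Nat.land (Par.cl B.par t m) Z))
      (Nat.land Z (ones 64))).testBit b = true ↔
      ((Par.cl B.par t m).testBit b = true ∧ Z.testBit b = false)) := by
    intro b hb
    show (((Par.cl B.par t m) ^^^ ((Par.cl B.par t m) &&& Z)) ||| (Z &&& ones 64)).testBit b = true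
      ↔ _
    rw [Nat.testBit_or, Nat.testBit_xor, Nat.testBit_and, Nat.testBit_and, testBit_ones,
      decide_eq_false (by omega : ¬ b < 64)]
    cases (Par.cl B.par t m).testBit b <;> cases Z.testBit b <;> simp
  have H := B.hits_sound hM hT hk ST (Nat.succ B.WR) _ Z str st ?_ hZ h
  · refine H.2 σ hσ ?_
    have hσi : σ (σ⁻¹ t0) = t0 := by simp
    rcases Nat.lt_or_ge (σ⁻¹ t0).1 m with h1 | h1
    · have hdiv : (64 + ((σ⁻¹ t0).1 + 1) * B.W + j - 64) = j + B.W * ((σ⁻¹ t0).1 + 1) := by
        rw [Nat.mul_comm]; omega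
      have h3 : (64 + ((σ⁻¹ t0).1 + 1) * B.W + j - 64) / B.W = (σ⁻¹ t0).1 + 1 := by
        rw [hdiv, Nat.add_mul_div_left _ _ hpW, Nat.div_eq_of_lt (by omega)]
        omega
      have h4 : (64 + ((σ⁻¹ t0).1 + 1) * B.W + j - 64) % B.W = j := by
        rw [hdiv, Nat.add_mul_mod_self_left, Nat.mod_eq_of_lt (by omega)]
      refine ⟨64 + ((σ⁻¹ t0).1 + 1) * B.W + j, by omega, (hXb _ (by omega)).2 ⟨?_, ?_⟩,
        σ⁻¹ t0, ?_, ?_, ?_⟩
      · refine (hclb _).2 (Or.inr ⟨(σ⁻¹ t0).1, h1, by omega, ?_⟩)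
        rwa [show 64 + ((σ⁻¹ t0).1 + 1) * B.W + j - (64 + ((σ⁻¹ t0).1 + 1) * B.W) = j by omega]
      · rcases h5 : Z.testBit (64 + ((σ⁻¹ t0).1 + 1) * B.W + j) with _ | _
        · rfl
        · exfalso
          rcases hσ.1 _ h1 j (by omega) h5 with h6 | h6
          · rw [hσi] at h6
            exact h6.2 hcov
          · omega
      · intro h5; omega
      · intro _; omega
      · rw [h4, hσi]; exact hcov
    · have h3 : (64 + j - 64) / B.W = 0 := by
        rw [show 64 + j - 64 = j by omega, Nat.div_eq_of_lt (by omega)]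
      have h4 : (64 + j - 64) % B.W = j := by
        rw [show 64 + j - 64 = j by omega, Nat.mod_eq_of_lt (by omega)]
      refine ⟨64 + j, by omega, (hXb _ (by omega)).2 ⟨?_, ?_⟩, σ⁻¹ t0, ?_, ?_, ?_⟩
      · refine (hclb _).2 (Or.inl ⟨lt_of_le_of_lt h1 (σ⁻¹ t0).2, by omega, ?_⟩)
        rwa [show 64 + j - 64 = j by omega]
      · rcases h5 : Z.testBit (64 + j) with _ | _
        · rfl
        · exfalso
          rcases hσ.2 _ h1 j (by omega) h5 with h6 | h6
          · rw [hσi] at h6
            exact h6.2 hcov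
          · omega
      · intro _; exact h1
      · intro h5; omega
      · rw [h4, hσi]; exact hcov
  · intro b hb hb'
    have h1 := ((hXb b hb).1 hb').1
    rcases (hclb b).1 h1 with ⟨_, h2, h3⟩ | ⟨i, hi, h2, h3⟩
    · have h4 := lt_of_testBit_lt hE h3
      rw [Nat.div_eq_of_lt (by omega), Nat.mod_eq_of_lt (by omega)]
      omega
    · have h4 := lt_of_testBit_lt hE h3
      have h5 : b - 64 = (b - (64 + (i + 1) * B.W)) + B.W * (i + 1) := by
        rw [Nat.mul_comm B.W]; omega
      rw [h5, Nat.add_mul_div_left _ _ hpW, Nat.div_eq_of_lt (by omega),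
        Nat.add_mul_mod_self_left, Nat.mod_eq_of_lt (by omega)]
      omega

/-- the rest of the stack is treated in a clause -/
theorem clause_rest {ρ : Fin B.T → ℕ → Bool} {G : Prop}
    {m : ℕ} {k : ℕ → Stk → Bool} (hk : ∀ str st, k str st = true → B.Done G ρ st) (ST : ℕ) :
    ∀ (fuel X Z str : ℕ) (st : Stk), Par.hits B.par ST m k fuel X Z str st = true →
      B.Done G ρ st := by
  intro fuel
  induction fuel with
  | zero => intro X Z str st h; exact absurd h (by simp [Par.hits])
  | succ fuel ih =>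
    intro X Z str st h
    change @Bool.rec (fun _ => Bool)
      (sq (Nat.land (Nat.shiftRight ST str) 4095) fun pos =>
        @Bool.rec (fun _ => Bool) false
          (sq (Nat.mod (Nat.sub pos 64) B.par.W) fun j =>
            Par.child B.par m Z pos j fun m1 S1 =>
            sq (Nat.xor X (Nat.pow 2 pos)) fun X' =>
            sq (Nat.lor Z (Nat.pow 2 pos)) fun Z' =>
            sq (Nat.add str 12) fun str' =>
            Par.hits B.par ST m k fuel X' Z' str' (Stk.cons m1 S1 st))
          (Nat.ble 64 pos && Nat.beq (Nat.land (Nat.shiftRight X pos) 1) 1))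
      (k str st) (Nat.beq (Nat.shiftRight X 64) 0) = true at h
    rw [rec_bool] at h
    rcases h0 : Nat.beq (Nat.shiftRight X 64) 0 with _ | _
    · rw [h0, cond_false] at h
      simp only [sq_eq] at h
      rw [rec_bool] at h
      generalize hpos : Nat.land (Nat.shiftRight ST str) 4095 = pos at h
      rcases hc : (Nat.ble 64 pos && Nat.beq (Nat.land (Nat.shiftRight X pos) 1) 1) with _ | _
      · rw [hc, cond_false] at h
        exact absurd h (by simp)
      rw [hc, cond_true] at h
      unfold Par.child at h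
      rw [rec_bool] at h
      simp only [sq_eq] at h
      rcases hlt : Nat.blt pos (Nat.add 64 B.par.W) with _ | _
      · rw [hlt, cond_false] at h; exact (ih _ _ _ _ h).2
      · rw [hlt, cond_true] at h; exact (ih _ _ _ _ h).2
    · rw [h0, cond_true] at h
      exact hk _ _ h

/-! ### the other instructions -/

theorem hd_excl (hM : B.M ≤ B.L) {r : ℕ → Bool} {x b : ℕ}
    (hr : r (x / 2) ≠ decide (x % 2 = 1))
    (h : (fl B.par.HD B.par.W B.par.K x).testBit b = true) :
    b < B.M + 2 * B.n ∧ B.Excl r b := by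
  rw [hd_testBit, Bool.and_eq_true, Bool.and_eq_true, decide_eq_true_eq, decide_eq_true_eq] at h
  exact ⟨h.1, B.hold_spec hM h.2.1 hr h.2.2⟩

theorem force_sound (hM : B.M ≤ B.L) {ρ : Fin B.T → ℕ → Bool} {G : Prop} {m Z i x j : ℕ}
    {k : Stk → Bool} (hk : ∀ st, k st = true → B.Done G ρ st) {st : Stk}
    (h : Par.force B.par m Z i x j k st = true) : (B.Sat ρ m Z → G) ∧ B.Done G ρ st := by
  unfold Par.force at h
  rw [rec_bool, shiftRight_land_one] at h
  simp only [sq_eq] at h
  rcases hc : (Nat.blt i m && (Nat.blt j B.par.M &&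
      (Z.testBit (Nat.add (ps B.par.W i) j) &&
        Nat.beq (Nat.land (Nat.lor (Nat.shiftRight Z (Nat.add (ps B.par.W i) B.par.M))
            (Nat.pow 2 (Nat.xor x 1))) (Nat.shiftRight (fl B.par.CV B.par.W B.par.K j) B.par.M))
          (Nat.shiftRight (fl B.par.CV B.par.W B.par.K j) B.par.M)))) with _ | _
  · rw [hc, cond_false] at h
    exact absurd h (by simp)
  rw [hc, cond_true] at h
  have h1 := hk _ h
  refine ⟨fun hZ => h1.1 ?_, h1.2⟩
  rw [sat_iff] at hZ
  obtain ⟨hT, hZ, σ, hσ⟩ := hZ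
  simp only [Bool.and_eq_true, blt_iff] at hc
  obtain ⟨him, hjM, hb1, hb2⟩ := hc
  have hjM' : j < B.M := hjM
  have hW' : B.W = B.M + 2 * B.n := rfl
  have hiT : i < B.T := by omega
  have hb1' : Z.testBit (64 + (i + 1) * (B.M + 2 * B.n) + j) = true := hb1
  have hex := hσ.1 ⟨i, hiT⟩ him j (by omega) hb1'
  have hnc : ¬ B.Covers (ρ (σ ⟨i, hiT⟩)) j := by
    rcases hex with h2 | h2
    · exact h2.2
    · omega
  have hand := Nat.eq_of_beq_eq_true hb2
  refine B.sat_special (C := fl B.par.HD B.par.W B.par.K x) hT hZ hσ him hiT fun b hb => ?_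
  refine B.hd_excl hM ?_ hb
  -- the row does not have the code `x`
  intro hrx
  apply hnc
  intro w hw s hs
  by_contra hne
  have hy : 2 * w + s.toNat < 2 * B.n := by
    have : s.toNat < 2 := by cases s <;> simp
    omega
  have hcode := B.cov_code hy (B.li_lm hs hjM')
  generalize hyy : 2 * w + s.toNat = y at hy hs hcode
  have hyw : y / 2 = w := by
    have : s.toNat < 2 := by cases s <;> simp
    omega
  have hys : decide (y % 2 = 1) = s := by
    rw [← hyy]
    cases s <;> simp
  have hbit := congrArg (fun z => Nat.testBit z (y ^^^ 1)) hand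
  have hcvb : (Nat.shiftRight (fl B.par.CV B.par.W B.par.K j) B.par.M).testBit (y ^^^ 1) = true := by
    show ((fl B.par.CV B.par.W B.par.K j) >>> B.M).testBit (y ^^^ 1) = true
    have h2 : y ^^^ 1 < 2 * B.n := by
      have := xor_one_div y
      omega
    rw [Nat.testBit_shiftRight, cv_testBit, hcode, decide_eq_true hjM',
      decide_eq_true (by omega : B.M + (y ^^^ 1) < B.W)]
    rfl
  have hbit' : (((Z >>> (64 + (i + 1) * (B.M + 2 * B.n) + B.M)) ||| 2 ^ (x ^^^ 1)) &&&
      (Nat.shiftRight (fl B.par.CV B.par.W B.par.K j) B.par.M)).testBit (y ^^^ 1) =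
      (Nat.shiftRight (fl B.par.CV B.par.W B.par.K j) B.par.M).testBit (y ^^^ 1) := hbit
  rw [Nat.testBit_and, hcvb, Bool.and_true, Nat.testBit_or, Bool.or_eq_true,
    Nat.testBit_shiftRight, Nat.testBit_two_pow, decide_eq_true_eq] at hbit'
  rcases hbit' with h2 | h2
  · have h3 : y ^^^ 1 < 2 * B.n := by
      have := xor_one_div y
      omega
    have h4 := hσ.1 ⟨i, hiT⟩ him (B.M + (y ^^^ 1)) (by omega) (by rwa [← Nat.add_assoc])
    rcases h4 with h4 | h4
    · omega
    · have h5 := h4.2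
      rw [show B.M + (y ^^^ 1) - B.M = y ^^^ 1 by omega, xor_one_div, xor_one_decide, hyw, hys] at h5
      revert h5 hne
      cases ρ (σ ⟨i, hiT⟩) w <;> cases s <;> simp
  · have h3 : x = y := by
      rw [← xor_one_xor_one x, h2, xor_one_xor_one]
    rw [h3, hyw, hys] at hrx
    exact hne hrx

theorem split_sound (hM : B.M ≤ B.L) {ρ : Fin B.T → ℕ → Bool} {G : Prop} {m Z i x : ℕ}
    {k : Stk → Bool} (hk : ∀ st, k st = true → B.Done G ρ st) {st : Stk}
    (h : Par.split B.par m Z i x k st = true) : (B.Sat ρ m Z → G) ∧ B.Done G ρ st := by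
  unfold Par.split at h
  rw [rec_bool] at h
  simp only [sq_eq] at h
  rcases hc : Nat.blt i m with _ | _
  · rw [hc, cond_false] at h
    exact absurd h (by simp)
  rw [hc, cond_true] at h
  have h1 := hk _ h
  refine ⟨fun hZ => ?_, h1.2.2⟩
  rw [sat_iff] at hZ
  obtain ⟨hT, hZ, σ, hσ⟩ := hZ
  have him := blt_iff.1 hc
  have hiT : i < B.T := by omega
  by_cases hr : ρ (σ ⟨i, hiT⟩) (x / 2) = decide (x % 2 = 1)
  · refine h1.1 (B.sat_special (C := fl B.par.HD B.par.W B.par.K (Nat.xor x 1)) hT hZ hσ him hiT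
      fun b hb => B.hd_excl hM ?_ hb)
    show ρ (σ ⟨i, hiT⟩) ((x ^^^ 1) / 2) ≠ decide ((x ^^^ 1) % 2 = 1)
    rw [xor_one_div, xor_one_decide, hr]
    cases decide (x % 2 = 1) <;> simp
  · exact h1.2.1 (B.sat_special (C := fl B.par.HD B.par.W B.par.K x) hT hZ hσ him hiT
      fun b hb => B.hd_excl hM hr hb)

theorem fresh_sound {ρ : Fin B.T → ℕ → Bool} {G : Prop} {m Z : ℕ}
    {k : Stk → Bool} (hk : ∀ st, k st = true → B.Done G ρ st) {st : Stk}
    (h : Par.fresh B.par m Z k st = true) : (B.Sat ρ m Z → G) ∧ B.Done G ρ st := by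
  unfold Par.fresh at h
  rw [rec_bool] at h
  simp only [sq_eq] at h
  rcases hc : Nat.blt m B.par.T with _ | _
  · rw [hc, cond_false] at h
    exact absurd h (by simp)
  rw [hc, cond_true] at h
  have h1 := hk _ h
  refine ⟨fun hZ => h1.1 ?_, h1.2⟩
  rw [sat_iff] at hZ
  obtain ⟨hT, hZ, σ, hσ⟩ := hZ
  have hmT : m < B.T := blt_iff.1 hc
  refine B.sat_fresh (C := Nat.land (Nat.shiftRight Z 64) B.par.K) hZ hσ ⟨m, hmT⟩ (le_refl _)
    fun b hb => ?_
  have hb' : ((Z >>> 64) &&& ones B.W).testBit b = true := hb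
  rw [Nat.testBit_and, testBit_ones, Nat.testBit_shiftRight,
    Bool.and_eq_true, decide_eq_true_eq] at hb'
  exact ⟨hb'.2, hσ.2 ⟨m, hmT⟩ (le_refl _) b hb'.2 hb'.1⟩

theorem defer_sound {ρ : Fin B.T → ℕ → Bool} {G : Prop} {m S : ℕ} {st : Stk}
    {k : Stk → Bool} (hk : ∀ D, B.Done G ρ D → k D = true → B.Done G ρ st) {D : Stk}
    (hD : B.Done G ρ D) (h : Par.defer m S k D = true) : (B.Sat ρ m S → G) ∧ B.Done G ρ st := by
  cases D with
  | nil => exact absurd h (by simp [Par.defer])
  | cons m' S' D' =>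
    change @Bool.rec (fun _ => Bool) false (k D')
      (Nat.beq m m' && Nat.beq (Nat.shiftRight S 64) (Nat.shiftRight S' 64)) = true at h
    rw [rec_bool] at h
    rcases hc : (Nat.beq m m' && Nat.beq (Nat.shiftRight S 64) (Nat.shiftRight S' 64)) with _ | _
    · rw [hc, cond_false] at h
      exact absurd h (by simp)
    rw [hc, cond_true] at h
    rw [Bool.and_eq_true] at hc
    have hm : m = m' := Nat.eq_of_beq_eq_true hc.1
    have hS : S >>> 64 = S' >>> 64 := Nat.eq_of_beq_eq_true hc.2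
    subst hm
    refine ⟨fun hsat => hD.1 ?_, hk D' hD.2 h⟩
    have hbit : ∀ b, 64 ≤ b → S'.testBit b = S.testBit b := by
      intro b hb
      have h1 := congrArg (fun z => Nat.testBit z (b - 64)) hS
      simp only [Nat.testBit_shiftRight, show 64 + (b - 64) = b by omega] at h1
      exact h1.symm
    rw [sat_iff] at hsat ⊢
    obtain ⟨hT, hZ, σ, hσ⟩ := hsat
    refine ⟨hT, ?_, σ, hσ.mono fun b hb h1 => by rwa [hbit b hb] at h1⟩
    apply lt_two_pow_of_testBit'
    intro b hb
    rcases Nat.lt_or_ge b 64 with h1 | h1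
    · omega
    · rw [hbit b h1] at hb
      exact lt_of_testBit_lt hZ hb

/-- the search is correct -/
theorem run_sound (B : SBase) (hM : B.M ≤ B.L) (ρ : Fin B.T → ℕ → Bool) (G : Prop)
    (hcl : ∀ e < B.nc, ∃ t, ∃ j, (fl B.CT B.M (ones B.M) e).testBit j = true ∧ B.Covers (ρ t) j)
    (lf : ℕ → ℕ → ℕ → Bool) (hlf : ∀ A m S, lf A m S = true → B.Sat ρ m S → G)
    (ST fuel str : ℕ) (D st : Stk) (hD : B.Done G ρ D)
    (h : Par.run B.par ST lf fuel str D st = true) : B.Done G ρ st := by
  induction fuel generalizing str D st with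
  | zero => exact absurd h (by simp [Par.run])
  | succ fuel ih =>
    cases st with
    | nil => trivial
    | cons m S st' =>
      have ih' : ∀ D, B.Done G ρ D → ∀ str st, Par.run B.par ST lf fuel str D st = true →
          B.Done G ρ st := fun D hD str st => ih str D st hD
      change (sq (Nat.land (Nat.shiftRight ST str) 4095) fun t =>
        sq (Nat.xor S (Nat.land (Par.salt str) (ones 64))) fun Z =>
        @Bool.rec (fun _ => Bool)
          (@Bool.rec (fun _ => Bool)
            (@Bool.rec (fun _ => Bool)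
              (@Bool.rec (fun _ => Bool)
                (@Bool.rec (fun _ => Bool)
                  (@Bool.rec (fun _ => Bool)
                    false
                    (sq (Nat.add str 12) fun str1 =>
                      Par.fresh B.par m Z (fun q => Par.run B.par ST lf fuel str1 D q) st')
                    (Nat.beq t 4091))
                  (sq (Nat.add str 12) fun str1 =>
                    Par.defer m S (fun D' => Par.run B.par ST lf fuel str1 D' st') D)
                  (Nat.beq t 4092))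
                (sq (Nat.land (Nat.shiftRight ST (Nat.add str 12)) 4095) fun a =>
                  sq (Nat.add str 24) fun str1 =>
                  Par.split B.par m Z (Nat.div a 64) (Nat.mod a 64)
                    (fun q => Par.run B.par ST lf fuel str1 D q) st')
                (Nat.beq t 4093))
              (sq (Nat.land (Nat.shiftRight ST (Nat.add str 12)) 4095) fun a =>
                sq (Nat.land (Nat.shiftRight ST (Nat.add str 24)) 4095) fun j =>
                sq (Nat.add str 36) fun str1 =>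
                Par.force B.par m Z (Nat.div a 64) (Nat.mod a 64) j
                  (fun q => Par.run B.par ST lf fuel str1 D q) st')
              (Nat.beq t 4094))
            (@Bool.rec (fun _ => Bool) false
              (sq (Nat.add str 228) fun str1 => Par.run B.par ST lf fuel str1 D st')
              (lf (Nat.land (Nat.shiftRight ST (Nat.add str 12)) (ones 216)) m Z))
            (Nat.beq t 4095))
          (sq (Nat.add str 12) fun str1 =>
            Par.clause B.par ST t m Z (fun str2 q => Par.run B.par ST lf fuel str2 D q) str1 st')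
          (Nat.blt t B.par.nc)) = true at h
      simp only [sq_eq, rec_bool] at h
      have hZ : B.Sat ρ m S → B.Sat ρ m (Nat.xor S (Nat.land (Par.salt str) (ones 64))) :=
        B.sat_salt _
      generalize Nat.land (Nat.shiftRight ST str) 4095 = t at h
      rcases h1 : Nat.blt t B.par.nc with _ | _
      · rw [h1, cond_false] at h
        rcases h2 : Nat.beq t 4095 with _ | _
        · rw [h2, cond_false] at h
          rcases h3 : Nat.beq t 4094 with _ | _
          · rw [h3, cond_false] at h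
            rcases h4 : Nat.beq t 4093 with _ | _
            · rw [h4, cond_false] at h
              rcases h5 : Nat.beq t 4092 with _ | _
              · rw [h5, cond_false] at h
                rcases h6 : Nat.beq t 4091 with _ | _
                · rw [h6, cond_false] at h
                  exact absurd h (by simp)
                · rw [h6, cond_true] at h
                  have h7 := B.fresh_sound (fun q => ih' D hD _ q) h
                  exact ⟨fun hs => h7.1 (hZ hs), h7.2⟩
              · rw [h5, cond_true] at h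
                exact B.defer_sound (fun D' hD' => ih' D' hD' _ st') hD h
            · rw [h4, cond_true] at h
              have h7 := B.split_sound hM (fun q => ih' D hD _ q) h
              exact ⟨fun hs => h7.1 (hZ hs), h7.2⟩
          · rw [h3, cond_true] at h
            have h7 := B.force_sound hM (fun q => ih' D hD _ q) h
            exact ⟨fun hs => h7.1 (hZ hs), h7.2⟩
        · rw [h2, cond_true] at h
          rcases h3 : lf (Nat.land (Nat.shiftRight ST (Nat.add str 12)) (ones 216)) m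
              (Nat.xor S (Nat.land (Par.salt str) (ones 64))) with _ | _
          · rw [h3, cond_false] at h
            exact absurd h (by simp)
          · rw [h3, cond_true] at h
            exact ⟨fun hs => hlf _ _ _ h3 (hZ hs), ih' D hD _ _ h⟩
      · rw [h1, cond_true] at h
        refine ⟨fun hs => B.clause_sound hM hcl (fun str q => ih' D hD str q)
          (blt_iff.1 h1) h (hZ hs), ?_⟩
        unfold Par.clause at h
        simp only [sq_eq] at h
        exact B.clause_rest (fun str q => ih' D hD str q) _ _ _ _ _ _ h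

end SBase

end Pool.Agent.RP5S
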