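import Pool.Agent.RP5S.Glue
import Pool.Agent.RP5S.Sound

/-!
# The two levels
-/

set_option autoImplicit false

namespace Pool.Agent.RP5S

open Finset Pool.Agent.RP5

/-- a state is settled for level D (no vertices `17, …, 22` can be added) -/
def SBase.DoneD (B : SBase) (st : Stk) : Prop :=
  ∀ a : Fin 23 → Fin 23 → Bool, (∀ u v, a u v = a v u) → B.Agree a →
    (∀ u v : Fin 23, 17 ≤ u.1 → 17 ≤ v.1 → u ≠ v → a u v = false) → P a 5 univ →
    B.Done False (fun i w => if h : w < 23 ∧ B.n + i.1 < 23 then
      a ⟨B.n + i.1, h.2⟩ ⟨w, h.1⟩ else false) st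

/-- a state is settled for level B -/
def SBase.DoneB (B : SBase) (nt TG : ℕ) (st : Stk) : Prop :=
  ∀ a : Fin 17 → Fin 17 → Bool, (∀ u v, a u v = a v u) → B.Agree a →
    (∀ u v : Fin 17, 11 ≤ u.1 → 11 ≤ v.1 → u ≠ v → a u v = false) → P a 4 univ →
    B.Done (∃ t < nt, Emb17 (fl TG 578 (ones 578) t) a)
      (fun i w => if h : w < 17 ∧ B.n + i.1 < 17 then
        a ⟨B.n + i.1, h.2⟩ ⟨w, h.1⟩ else false) st

/-- the clauses of a checked base hold for the rows of a signed graph -/
theorem SBase.hits (B : SBase) {cs : ℕ} (hok : B.ok' cs = true) {N : ℕ} (hN : B.n + B.T = N)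
    (a : Fin N → Fin N → Bool) (ha : ∀ u v, a u v = a v u) (hag : B.Agree a)
    (hS : ∀ u v : Fin N, B.n ≤ u.1 → B.n ≤ v.1 → u ≠ v → a u v = false)
    (hP : P a (B.k + 1) univ) : ∀ e < B.nc, ∃ t : Fin B.T, ∃ j,
      (fl B.CT B.M (ones B.M) e).testBit j = true ∧
      B.Covers (fun w => if h : w < N ∧ B.n + t.1 < N then a ⟨B.n + t.1, h.2⟩ ⟨w, h.1⟩
        else false) j := by
  intro e he
  simp only [SBase.ok', Bool.and_eq_true] at hok
  obtain ⟨hok1, _, hok3⟩ := hok
  obtain ⟨t, ht, j, hj, hc⟩ := B.toBase.clauseF hok1 (by omega) a ha hag hS hP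
    (B.clauses_sound hok3 e he)
  refine ⟨⟨t.1 - B.n, by omega⟩, j, hj, ?_⟩
  intro w hw s hs
  have h1 := hc w hw s hs
  simp only at h1
  rw [dif_pos (by omega : w < N)] at h1
  have h2 : w < N ∧ B.n + (t.1 - B.n) < N := ⟨by omega, by omega⟩
  simp only
  rw [dif_pos h2, ← h1]
  congr 1
  exact Fin.ext (by change B.n + (t.1 - B.n) = t.1; omega)

theorem SBase.ok'_le {B : SBase} {cs : ℕ} (hok : B.ok' cs = true) : B.M ≤ B.L := by
  simp only [SBase.ok', Bool.and_eq_true, Nat.ble_eq] at hok
  exact hok.2.1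

/-- level D: one run of the engine -/
theorem SBase.doneD (B : SBase) {cs : ℕ} (hok : B.ok' cs = true) (hn : B.n = 17) (hT : B.T = 6)
    (hk : B.k = 4) {fuel str : ℕ} {D st : Stk} (hD : B.DoneD D)
    (h : B.go (fun _ _ _ => false) fuel str D st = true) : B.DoneD st := by
  intro a ha hag hS hP
  rw [B.go_eq] at h
  refine B.run_sound (SBase.ok'_le hok) _ _ ?_ _ ?_ str fuel 0 D st (hD a ha hag hS hP) h
  · exact B.hits hok (by omega) a ha hag (by rw [hn]; exact hS) (by rw [hk]; exact hP)
  · intro A m S hf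
    exact absurd hf Bool.false_ne_true

/-- level B: one run of the engine -/
theorem SBase.doneB (B : SBase) {cs : ℕ} (hok : B.ok' cs = true) (hn : B.n = 11) (hT : B.T = 6)
    (hk : B.k = 3) {nt TG fuel str : ℕ} {D st : Stk} (hD : B.DoneB nt TG D)
    (h : B.go (Leaf.leaf B nt TG) fuel str D st = true) : B.DoneB nt TG st := by
  intro a ha hag hS hP
  rw [B.go_eq] at h
  refine B.run_sound (SBase.ok'_le hok) _ _ ?_ _ ?_ str fuel 0 D st (hD a ha hag hS hP) h
  · exact B.hits hok (by omega) a ha hag (by rw [hn]; exact hS) (by rw [hk]; exact hP)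
  · intro A m S hf hs
    exact Leaf.leaf_sound B (by omega) a ha hag (by rw [hn]; exact hS) nt TG A m S hf hs

/-- the initial state is satisfied -/
theorem SBase.sat_zero (B : SBase) (ρ : Fin B.T → ℕ → Bool) : B.Sat ρ 0 0 := by
  refine ⟨Nat.zero_le _, by positivity, 1, fun i hi => absurd hi (Nat.not_lt_zero _), ?_⟩
  intro i _ b _ hb
  rw [Nat.zero_shiftRight] at hb
  simp at hb

/-- level D -/
theorem SBase.dead (B : SBase) (hn : B.n = 17) (hT : B.T = 6) {NX : ℕ}
    (hr : B.respOk NX = true) (h : B.DoneD (Stk.cons 0 0 Stk.nil)) : Dead NX := by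
  intro a ha hresp hS hP
  have hag : B.Agree a := by
    intro u v hu hv s t hst
    simp only [Base.respOk, List.all_eq_true, List.mem_range, Bool.and_eq_true,
      Bool.or_eq_true] at hr
    have htn := Bool.toNat_le t
    obtain ⟨h1, h2⟩ := hr u.1 hu (2 * v.1 + t.toNat) (by omega)
    cases s
    · rcases h1 with h1 | h1
      · exact h1
      · exfalso
        refine hresp u v (by omega) hv t (by rw [← h1, add_assoc]) ?_
        rw [hst]
        cases t <;> rfl
    · rcases h2 with h2 | h2
      · exact h2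
      · exfalso
        have e1 : (2 * v.1 + t.toNat) ^^^ 1 = 2 * v.1 + (!t).toNat := by
          cases t
          · apply Nat.eq_of_testBit_eq
            intro i
            rw [Nat.testBit_xor]
            cases i with
            | zero => simp
            | succ i =>
              rw [Nat.testBit_succ, Nat.testBit_succ, Nat.testBit_succ]
              simp
              congr 1
              omega
          · apply Nat.eq_of_testBit_eq
            intro i
            rw [Nat.testBit_xor]
            cases i with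
            | zero => simp
            | succ i =>
              rw [Nat.testBit_succ, Nat.testBit_succ, Nat.testBit_succ]
              simp
              congr 1
              omega
        rw [e1] at h2
        refine hresp u v (by omega) hv (!t) (by rw [← h2, add_assoc]) ?_
        rw [hst]
        cases t <;> rfl
  exact (h a ha hag hS hP).1 (B.sat_zero _)

/-- level B; here `B` is one of the four bases with the table of `qtab j` -/
theorem SBase.levelB (B : SBase) (hn : B.n = 11) (hT : B.T = 6) (j : Fin 4) {nt TG : ℕ}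
    (hq : ∀ u v : Fin 11, v < u → ∀ s t : Bool, qtab j u v = xor s t →
      (B.nb (2 * u.1 + s.toNat)).testBit (2 * v.1 + t.toNat) = true)
    (h : B.DoneB nt TG (Stk.cons 0 0 Stk.nil)) : LevelB nt TG j := by
  intro a ha haq hS hP
  have hag : B.Agree a := by
    intro u v hu hv s t hst
    rw [hn] at hu
    have h1 := haq ⟨u.1, hu⟩ ⟨v.1, by omega⟩ (by rw [Ne, Fin.mk.injEq]; omega)
    have h2 : qtab j ⟨u.1, hu⟩ ⟨v.1, by omega⟩ = xor s t := by
      rw [← h1, ← hst]
      rfl
    exact hq ⟨u.1, hu⟩ ⟨v.1, by omega⟩ hv s t h2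
  exact (h a ha hag hS hP).1 (B.sat_zero _)

end Pool.Agent.RP5S
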