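import Pool.Agent.RP5S.Final
import Pool.Agent.RP5S.LD.All
import Pool.Agent.RP5S.B0Lev
import Pool.Agent.RP5S.B1Lev
import Pool.Agent.RP5S.B2Lev
import Pool.Agent.RP5S.B3Lev

/-!
# There is no witness in dimension five with 23 vertices
-/

set_option autoImplicit false

open Finset

namespace Pool.Agent.RP5S

open Pool.Agent.RP5

theorem noNormal : NoNormal := by
  refine noNormal_of nt TG (fun j => ?_) LD.all_dead
  fin_cases j
  · exact B0.lev
  · exact B1.lev
  · exact B2.lev
  · exact B3.lev

/-- no witness in dimension five on 23 vertices -/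
theorem no23 {a : Fin 23 → Fin 23 → Bool} (ha : ∀ u v, a u v = a v u) : ¬ P a 5 univ :=
  no23_of_noNormal noNormal ha

end Pool.Agent.RP5S
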